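import Mathlib.Combinatorics.SimpleGraph.Acyclic
import Mathlib.Combinatorics.SimpleGraph.Metric
import Mathlib.Algebra.BigOperators.Group.Finset.Basic
import Mathlib.Algebra.Order.BigOperators.Group.Finset
import Mathlib.GroupTheory.GroupAction.Defs
import Mathlib.Tactic

set_option maxSynthPendingDepth 3

namespace QI97

open SimpleGraph

variable {V : Type*} {T : SimpleGraph V}

/-! ### Gates in trees -/

/-- Basic tree facts: unique neighbour of `x` closer to `z`. -/
theorem exists_closer (hT : T.IsTree) {x z : V} (h : x ≠ z) :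
    ∃ y, T.Adj x y ∧ T.dist x z = T.dist y z + 1 := by
  obtain ⟨p, hp⟩ := hT.1.exists_walk_length_eq_dist x z
  cases p with
  | nil => exact absurd rfl h
  | cons hadj q =>
    rename_i y
    refine ⟨y, hadj, ?_⟩
    have h1 : T.dist y z ≤ q.length := dist_le q
    have h2 := hT.1.dist_triangle (u := x) (v := y) (w := z)
    simp only [Walk.length_cons] at hp
    rw [dist_eq_one_iff_adj.2 hadj] at h2
    omega

theorem closer_unique (hT : T.IsTree) {x y y' z : V} (h : T.Adj x y) (h' : T.Adj x y')
    (hd : T.dist y z < T.dist x z) (hd' : T.dist y' z < T.dist x z) : y = y' := by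
  obtain ⟨p, hp⟩ := hT.1.exists_walk_length_eq_dist y z
  obtain ⟨p', hp'⟩ := hT.1.exists_walk_length_eq_dist y' z
  have e1 : T.dist x z = T.dist y z + 1 := by
    have := hT.1.dist_triangle (u := x) (v := y) (w := z)
    rw [dist_eq_one_iff_adj.2 h] at this
    omega
  have e2 : T.dist x z = T.dist y' z + 1 := by
    have := hT.1.dist_triangle (u := x) (v := y') (w := z)
    rw [dist_eq_one_iff_adj.2 h'] at this
    omega
  have q1 : (Walk.cons h p).IsPath := Walk.isPath_of_length_eq_dist _ (by simp [hp, e1])
  have q2 : (Walk.cons h' p').IsPath := Walk.isPath_of_length_eq_dist _ (by simp [hp', e2])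
  have := (hT.existsUnique_path x z).unique q1 q2
  have h3 : (Walk.cons h p).snd = (Walk.cons h' p').snd := by rw [this]
  simpa using h3

open Classical in
/-- The neighbour of `v` towards `a` (and `v` itself when `a = v`). -/
noncomputable def gate (T : SimpleGraph V) (v a : V) : V :=
  if h : ∃ y, T.Adj v y ∧ T.dist y a < T.dist v a then h.choose else v

theorem gate_spec (hT : T.IsTree) {v a : V} (h : v ≠ a) :
    T.Adj v (gate T v a) ∧ T.dist v a = T.dist (gate T v a) a + 1 := by
  have hex : ∃ y, T.Adj v y ∧ T.dist y a < T.dist v a := by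
    obtain ⟨y, h1, h2⟩ := exists_closer hT h
    exact ⟨y, h1, by omega⟩
  have e : gate T v a = hex.choose := by
    unfold gate; rw [dif_pos hex]
  have h1 := hex.choose_spec
  rw [← e] at h1
  refine ⟨h1.1, ?_⟩
  have := hT.1.dist_triangle (u := v) (v := gate T v a) (w := a)
  rw [dist_eq_one_iff_adj.2 h1.1] at this
  omega

theorem gate_eq (hT : T.IsTree) {v a y : V} (h : T.Adj v y) (hd : T.dist y a < T.dist v a) :
    gate T v a = y := by
  have hne : v ≠ a := by
    rintro rfl
    simp at hd
  obtain ⟨h1, h2⟩ := gate_spec hT hne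
  exact closer_unique hT h1 h (by omega) hd

theorem gate_adj (hT : T.IsTree) {v y : V} (h : T.Adj v y) : gate T v y = y :=
  gate_eq hT h (by rw [dist_eq_one_iff_adj.2 h]; simp)

theorem dist_of_gate_ne (hT : T.IsTree) {v a y : V} (h : T.Adj v y) (hne : gate T v a ≠ y) :
    T.dist y a = T.dist v a + 1 := by
  have h1 : T.dist v a ≠ T.dist y a := by
    have := hT.dist_ne_of_adj a h
    rwa [dist_comm, dist_comm (u := a)] at this
  have h2 : ¬ T.dist y a < T.dist v a := fun h3 => hne (gate_eq hT h h3)
  have h3 := hT.1.dist_triangle (u := y) (v := v) (w := a)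
  rw [dist_eq_one_iff_adj.2 h.symm] at h3
  omega

theorem gate_congr (hT : T.IsTree) {v a b : V} (hab : T.Adj a b) (ha : v ≠ a) (hb : v ≠ b) :
    gate T v a = gate T v b := by
  have key : ∀ a b : V, T.Adj a b → v ≠ a → v ≠ b → T.dist v a < T.dist v b →
      gate T v b = gate T v a := by
    intro a b hab ha hb hlt
    obtain ⟨h1, h2⟩ := gate_spec hT ha
    refine gate_eq hT h1 ?_
    have h3 := hT.1.dist_triangle (u := gate T v a) (v := a) (w := b)
    rw [dist_eq_one_iff_adj.2 hab] at h3
    omega
  rcases lt_trichotomy (T.dist v a) (T.dist v b) with h | h | h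
  · exact (key a b hab ha hb h).symm
  · exact absurd h (hT.dist_ne_of_adj v hab)
  · exact key b a hab.symm hb ha h

/-- If the gates of `a` and `b` at `v` differ then `v` lies between `a` and `b`. -/
theorem dist_add_of_gate_ne (hT : T.IsTree) {v a b : V} (h : gate T v a ≠ gate T v b) :
    T.dist a b = T.dist a v + T.dist v b := by
  by_cases ha : v = a
  · subst ha; simp
  by_cases hb : v = b
  · subst hb; simp
  -- induction on walks avoiding `v`
  have key : ∀ (a b : V) (p : T.Walk a b), v ≠ b → gate T v a ≠ gate T v b →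
      T.dist a v + T.dist v b ≤ p.length := by
    intro a b p
    induction p with
    | nil => intro _ h; exact absurd rfl h
    | @cons x y z hadj q ih =>
      intro hz hne
      by_cases hx : v = x
      · subst hx
        rw [dist_self, zero_add]
        exact dist_le (Walk.cons hadj q)
      by_cases hy : v = y
      · subst hy
        have h1 := dist_eq_one_iff_adj.2 hadj
        have h2 : T.dist v z ≤ q.length := dist_le q
        rw [Walk.length_cons, h1]; omega
      have hc := gate_congr hT hadj hx hy
      have := ih hz (by rw [← hc]; exact hne)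
      have h3 := hT.1.dist_triangle (u := x) (v := y) (w := v)
      rw [dist_eq_one_iff_adj.2 hadj] at h3
      rw [Walk.length_cons]; omega
  obtain ⟨p, hp⟩ := hT.1.exists_walk_length_eq_dist a b
  have h1 := key a b p hb h
  have h2 := hT.1.dist_triangle (u := a) (v := v) (w := b)
  omega

/-- If `p` is between `a` and `b` and `p ≠ a`, then the gates at `a` agree. -/
theorem gate_of_between (hT : T.IsTree) {a p b : V} (h : T.dist a p + T.dist p b = T.dist a b)
    (hne : a ≠ p) : gate T a p = gate T a b := by
  obtain ⟨h1, h2⟩ := gate_spec hT hne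
  symm
  refine gate_eq hT h1 ?_
  have := hT.1.dist_triangle (u := gate T a p) (v := p) (w := b)
  omega

/-- Distance across an edge. -/
theorem dist_across (hT : T.IsTree) {p q a b : V} (hpq : T.Adj p q)
    (ha : T.dist a p < T.dist a q) (hb : T.dist b q < T.dist b p) :
    T.dist a b = T.dist a p + 1 + T.dist q b := by
  have hga : gate T q a = p := gate_eq hT hpq.symm (by rw [dist_comm, dist_comm (u := q)]; exact ha)
  by_cases hqb : q = b
  · subst hqb
    rw [dist_self]
    have := hT.1.dist_triangle (u := a) (v := p) (w := q)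
    rw [dist_eq_one_iff_adj.2 hpq] at this
    omega
  have hgb : gate T q b ≠ p := by
    intro h
    obtain ⟨h1, h2⟩ := gate_spec hT hqb
    rw [h] at h2
    rw [dist_comm (u := q), dist_comm (u := p)] at h2
    omega
  have := dist_add_of_gate_ne hT (v := q) (a := a) (b := b) (by rw [hga]; exact hgb.symm)
  have h3 := hT.1.dist_triangle (u := a) (v := p) (w := q)
  rw [dist_eq_one_iff_adj.2 hpq] at h3
  omega

/-- Strict convexity of squared distances. -/
theorem sq_dist_convex (hT : T.IsTree) {y y' : V} (h : 2 ≤ T.dist y y') (z : V) :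
    T.dist (gate T y y') z ^ 2 + T.dist (gate T y' y) z ^ 2
      < T.dist y z ^ 2 + T.dist y' z ^ 2 := by
  have hne : y ≠ y' := by
    rintro rfl
    simp at h
  obtain ⟨a1, a2⟩ := gate_spec hT hne
  obtain ⟨b1, b2⟩ := gate_spec hT hne.symm
  set p := gate T y y' with hp
  set p' := gate T y' y with hp'
  have hc : T.dist y' y = T.dist y y' := dist_comm
  by_cases hz : gate T y z = p
  · by_cases hyz : y = z
    · -- z = y, then p' is closer
      subst hyz
      rw [dist_self]
      have h1 : T.dist p y = 1 := dist_eq_one_iff_adj.2 a1.symm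
      rw [h1]
      rw [hc] at b2 ⊢
      nlinarith
    · have e1 : T.dist y z = T.dist p z + 1 := by
        have := (gate_spec hT hyz).2
        rwa [hz] at this
      by_cases hz' : gate T y' z = p'
      · by_cases hyz' : y' = z
        · subst hyz'
          rw [dist_self]
          have h1 : T.dist p' y' = 1 := dist_eq_one_iff_adj.2 b1.symm
          rw [h1]
          nlinarith
        · have e2 : T.dist y' z = T.dist p' z + 1 := by
            have := (gate_spec hT hyz').2
            rwa [hz'] at this
          nlinarith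
      · have e2 : T.dist p' z = T.dist y' z + 1 := dist_of_gate_ne hT b1 hz'
        have e3 := dist_add_of_gate_ne hT (v := y') (a := y) (b := z) (fun h => hz' (h.symm))
        rw [e2, e1]
        have e4 : T.dist p z + 1 = T.dist y y' + T.dist y' z := by rw [← e1, e3]
        nlinarith
  · have e1 : T.dist p z = T.dist y z + 1 := dist_of_gate_ne hT a1 hz
    have e3 := dist_add_of_gate_ne hT (v := y) (a := y') (b := z) (fun h => hz (h.symm))
    have hyz' : y' ≠ z := by
      rintro rfl
      exact hz rfl
    have hz' : gate T y' z = p' := by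
      have : T.dist y' y + T.dist y z = T.dist y' z := e3.symm
      rw [← gate_of_between hT this hne.symm]
    have e2 : T.dist y' z = T.dist p' z + 1 := by
      have := (gate_spec hT hyz').2
      rwa [hz'] at this
    rw [hc] at e3
    have e4 : T.dist p' z + 1 = T.dist y y' + T.dist y z := by rw [← e2, e3]
    rw [e1, e2]
    nlinarith

/-! ### Group actions on trees -/

section Action

variable {W : Type*} [Group W] [MulAction W V]

/-- `W` acts by graph automorphisms. -/
def ActsOn (W : Type*) [Group W] {V : Type*} [MulAction W V] (T : SimpleGraph V) : Prop :=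
  ∀ (w : W) (x y : V), T.Adj x y → T.Adj (w • x) (w • y)

theorem dist_smul (hT : T.IsTree) (hA : ActsOn W T) (w : W) (x y : V) :
    T.dist (w • x) (w • y) = T.dist x y := by
  have key : ∀ (w : W) (x y : V), T.dist (w • x) (w • y) ≤ T.dist x y := by
    intro w x y
    obtain ⟨p, hp⟩ := hT.1.exists_walk_length_eq_dist x y
    have hom : T →g T := ⟨fun z => w • z, fun {a b} h => hA w a b h⟩
    have h1 : T.dist (w • x) (w • y) ≤ (p.map (⟨fun z => w • z, fun {a b} h => hA w a b h⟩ : T →g T)).length :=
      dist_le _
    rw [Walk.length_map, hp] at h1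
    exact h1
  refine le_antisymm (key w x y) ?_
  have := key w⁻¹ (w • x) (w • y)
  rwa [inv_smul_smul, inv_smul_smul] at this

theorem gate_smul (hT : T.IsTree) (hA : ActsOn W T) (w : W) (v a : V) :
    gate T (w • v) (w • a) = w • gate T v a := by
  by_cases h : v = a
  · subst h
    have : ∀ v : V, gate T v v = v := by
      intro v
      unfold gate
      rw [dif_neg]
      rintro ⟨y, _, h⟩
      simp at h
    rw [this, this]
  · obtain ⟨h1, h2⟩ := gate_spec hT h
    refine gate_eq hT (hA w _ _ h1) ?_
    rw [dist_smul hT hA, dist_smul hT hA]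
    omega

/-- Points between two fixed points are fixed. -/
theorem fixed_between (hT : T.IsTree) (hA : ActsOn W T) {w : W} {b : V} (hb : w • b = b) :
    ∀ (n : ℕ) (a p : V), T.dist a p = n → w • a = a →
      T.dist a p + T.dist p b = T.dist a b → w • p = p := by
  intro n
  induction n with
  | zero =>
    intro a p h ha _
    rw [hT.1.dist_eq_zero_iff] at h
    rw [← h, ha]
  | succ n ih =>
    intro a p h ha hbet
    have hne : a ≠ p := by
      rintro rfl
      simp at h
    have hg := gate_of_between hT hbet hne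
    obtain ⟨h1, h2⟩ := gate_spec hT hne
    have hgf : w • gate T a b = gate T a b := by
      rw [← gate_smul hT hA, ha, hb]
    rw [hg] at h1 h2
    refine ih (gate T a b) p (by omega) hgf ?_
    have h3 := hT.1.dist_triangle (u := gate T a b) (v := p) (w := b)
    have h4 := hT.1.dist_triangle (u := a) (v := gate T a b) (w := b)
    rw [dist_eq_one_iff_adj.2 h1] at h4
    omega

/-- Fixed point theorem for finite groups acting on trees (without odd displacements). -/
theorem exists_fixed (hT : T.IsTree) (hA : ActsOn W T)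
    (hev : ∀ (w : W) (x : V), Even (T.dist x (w • x)))
    (F : Finset W) (H : Set W) (hF : ∀ h ∈ H, ∀ f, h * f ∈ F ↔ f ∈ F) (hne : F.Nonempty)
    (x0 : V) : ∃ x : V, ∀ h ∈ H, h • x = x := by
  classical
  let D : V → ℕ := fun y => ∑ f ∈ F, T.dist y (f • x0) ^ 2
  have : Nonempty V := ⟨x0⟩
  have hmin : ∀ z, D (Function.argmin D) ≤ D z := fun z => Function.argmin_le D z
  set y := Function.argmin D with hy
  have hinv : ∀ h ∈ H, ∀ z, D (h • z) = D z := by
    intro h hh z
    have : D z = ∑ f ∈ F, T.dist (h • z) ((h * f) • x0) ^ 2 := by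
      refine Finset.sum_congr rfl fun f _ => ?_
      rw [mul_smul, dist_smul hT hA]
    rw [this]
    symm
    exact Finset.sum_equiv (Equiv.mulLeft h) (fun f => (hF h hh f).symm) (fun f _ => rfl)
  refine ⟨y, fun h hh => ?_⟩
  by_contra hcon
  have hd : 2 ≤ T.dist y (h • y) := by
    have h1 := hev h y
    have h2 : T.dist y (h • y) ≠ 0 := by
      rw [Ne, hT.1.dist_eq_zero_iff]
      exact fun h => hcon h.symm
    obtain ⟨k, hk⟩ := h1
    omega
  have h1 : D (gate T y (h • y)) + D (gate T (h • y) y) < D y + D (h • y) := by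
    simp only [D]
    rw [← Finset.sum_add_distrib, ← Finset.sum_add_distrib]
    exact Finset.sum_lt_sum_of_nonempty hne fun f _ => sq_dist_convex hT hd _
  have h2 := hmin (gate T y (h • y))
  have h3 := hmin (gate T (h • y) y)
  have h4 := hinv h hh y
  omega

/-- Potentials exist on trees. -/
theorem exists_potential (hT : T.IsTree) (c : V → V → ℤ) (hc : ∀ x y, c y x = - c x y) :
    ∃ φ : V → ℤ, ∀ x y, T.Adj x y → φ y = φ x + c x y := by
  classical
  obtain ⟨r⟩ := hT.1.nonempty
  let φ' : ℕ → V → ℤ := fun n => Nat.rec (fun _ => 0)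
    (fun _ f y => if y = r then 0 else f (gate T y r) + c (gate T y r) y) n
  have h0 : ∀ y, φ' 0 y = 0 := fun y => rfl
  have hs : ∀ n y, φ' (n + 1) y = if y = r then 0 else φ' n (gate T y r) + c (gate T y r) y :=
    fun n y => rfl
  let φ : V → ℤ := fun y => φ' (T.dist y r) y
  have hr : ∀ y, y ≠ r → φ y = φ (gate T y r) + c (gate T y r) y := by
    intro y hy
    obtain ⟨h1, h2⟩ := gate_spec hT hy
    simp only [φ]
    rw [h2, hs, if_neg hy]
  refine ⟨φ, ?_⟩
  intro x y hxy
  have hcases : T.dist x r < T.dist y r ∨ T.dist y r < T.dist x r := by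
    have := hT.dist_ne_of_adj r hxy
    rw [dist_comm, dist_comm (u := r)] at this
    omega
  rcases hcases with h | h
  · have hg : gate T y r = x := gate_eq hT hxy.symm h
    have hy : y ≠ r := by
      rintro rfl
      simp at h
    rw [hr y hy, hg]
  · have hg : gate T x r = y := gate_eq hT hxy h
    have hx : x ≠ r := by
      rintro rfl
      simp at h
    have := hr x hx
    rw [hg, hc x y] at this
    rw [this]; ring

/-- If `W` is generated by elements with fixed vertices, every invariant cocycle
is the coboundary of an invariant potential. -/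
theorem potential_invariant (hT : T.IsTree) (hA : ActsOn W T) (S : Set W)
    (hS : Subgroup.closure S = ⊤) (hfix : ∀ s ∈ S, ∃ x : V, s • x = x)
    (c : V → V → ℤ) (hcW : ∀ (w : W) x y, c (w • x) (w • y) = c x y)
    (φ : V → ℤ) (hφ : ∀ x y, T.Adj x y → φ y = φ x + c x y) (w : W) (x : V) :
    φ (w • x) = φ x := by
  have hconst : ∀ (w : W) (x y : V), φ (w • x) - φ x = φ (w • y) - φ y := by
    intro w x y
    obtain ⟨p⟩ := hT.1 x y
    induction p with
    | nil => rfl
    | @cons x y z hadj q ih =>
      rw [← ih, hφ _ _ hadj, hφ _ _ (hA w _ _ hadj), hcW]; ring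
  let K : Subgroup W :=
    { carrier := {w | ∀ x, φ (w • x) = φ x}
      one_mem' := by
        intro x
        rw [one_smul]
      mul_mem' := by
        intro a b ha hb x
        rw [mul_smul, ha, hb]
      inv_mem' := by
        intro a ha x
        have := ha (a⁻¹ • x)
        rw [smul_inv_smul] at this
        exact this.symm }
  have hK : S ⊆ K := by
    intro s hs x
    obtain ⟨y, hy⟩ := hfix s hs
    have := hconst s x y
    rw [hy, sub_self] at this
    linarith
  have h1 : Subgroup.closure S ≤ K := (Subgroup.closure_le K).2 hK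
  rw [hS] at h1
  exact h1 (Subgroup.mem_top w) x

/-- The quotient of a tree by a group generated by elliptics, with finitely many orbits,
has a leaf. -/
theorem exists_leaf (hT : T.IsTree) (hA : ActsOn W T)
    (hev : ∀ (w : W) (x : V), Even (T.dist x (w • x)))
    (S : Set W) (hS : Subgroup.closure S = ⊤) (hfix : ∀ s ∈ S, ∃ x : V, s • x = x)
    (hfin : ∃ F : Set V, F.Finite ∧ ∀ x : V, ∃ w : W, w • x ∈ F)
    (hnb : ∀ x : V, ∃ y, T.Adj x y) :
    ∃ z : V, ∀ y y', T.Adj z y → T.Adj z y' → ∃ w : W, w • z = z ∧ w • y = y' := by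
  classical
  by_contra hcon
  push Not at hcon
  have hstep : ∀ z y, T.Adj z y → ∃ y', T.Adj z y' ∧ ∀ w : W, w • z = z → w • y ≠ y' := by
    intro z y0 _
    obtain ⟨y, y', h1, h2, h3⟩ := hcon z
    by_cases hy : ∃ w : W, w • z = z ∧ w • y0 = y
    · obtain ⟨w, hw1, hw2⟩ := hy
      refine ⟨y', h2, fun w' hw' h => ?_⟩
      refine h3 (w' * w⁻¹) ?_ ?_
      · rw [mul_smul, inv_smul_eq_iff.2 hw1.symm, hw']
      · rw [mul_smul, inv_smul_eq_iff.2 hw2.symm, h]
    · push Not at hy
      exact ⟨y, h1, hy⟩
  choose! nxt hn1 hn2 using hstep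
  obtain ⟨z0⟩ := hT.1.nonempty
  obtain ⟨z1, hz1⟩ := hnb z0
  let pr : ℕ → V × V := fun n => Nat.rec (z0, z1) (fun _ p => (p.2, nxt p.2 p.1)) n
  have hpr0 : pr 0 = (z0, z1) := rfl
  have hprs : ∀ n, pr (n + 1) = ((pr n).2, nxt (pr n).2 (pr n).1) := fun n => rfl
  let z : ℕ → V := fun n => (pr n).1
  have hz : ∀ n, (pr n).2 = z (n + 1) := fun n => rfl
  have hadj : ∀ n, T.Adj (z n) (z (n + 1)) := by
    intro n
    induction n with
    | zero => exact hz1
    | succ n ih =>
      have : z (n + 1 + 1) = nxt (z (n + 1)) (z n) := rfl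
      rw [this]
      exact hn1 _ _ ih.symm
  have hno : ∀ n (w : W), w • z (n + 1) = z (n + 1) → w • z n ≠ z (n + 2) := by
    intro n w hw
    have : z (n + 1 + 1) = nxt (z (n + 1)) (z n) := rfl
    rw [show n + 2 = n + 1 + 1 from rfl, this]
    exact hn2 _ _ (hadj n).symm w hw
  -- pigeonhole
  obtain ⟨F, hF, hFx⟩ := hfin
  choose g hg using hFx
  have hex : ∃ n, 0 < n ∧ ∃ i, ∃ w : W, w • z i = z (i + n) := by
    have : Finite F := hF
    obtain ⟨i, j, hij, he⟩ := Finite.exists_ne_map_eq_of_infinite
      (fun i : ℕ => (⟨g (z i) • z i, hg (z i)⟩ : F))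
    have he' : g (z i) • z i = g (z j) • z j := congrArg Subtype.val he
    rcases lt_or_gt_of_ne hij with h | h
    · refine ⟨j - i, by omega, i, (g (z j))⁻¹ * g (z i), ?_⟩
      rw [mul_smul, he', inv_smul_smul]
      congr 1; omega
    · refine ⟨i - j, by omega, j, (g (z i))⁻¹ * g (z j), ?_⟩
      rw [mul_smul, ← he', inv_smul_smul]
      congr 1; omega
  set n := Nat.find hex with hn
  obtain ⟨hn0, i, w0, hw0⟩ := Nat.find_spec hex
  have hmin : ∀ m, 0 < m → m < n → ∀ k (w : W), w • z k ≠ z (k + m) := by
    intro m hm hmn k w h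
    exact Nat.find_min hex hmn ⟨hm, k, w, h⟩
  set a := z i with ha
  set b := z (i + 1) with hb
  let c : V → V → ℤ := fun x y => (if ∃ w : W, w • a = x ∧ w • b = y then 1 else 0)
    - (if ∃ w : W, w • a = y ∧ w • b = x then 1 else 0)
  have hcdef : ∀ x y, c x y = (if ∃ w : W, w • a = x ∧ w • b = y then 1 else 0)
    - (if ∃ w : W, w • a = y ∧ w • b = x then 1 else 0) := fun x y => rfl
  have hcanti : ∀ x y, c y x = - c x y := by
    intro x y
    rw [hcdef, hcdef]; ring
  have hcW : ∀ (w : W) x y, c (w • x) (w • y) = c x y := by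
    intro w x y
    have e : ∀ x y, (∃ w' : W, w' • a = w • x ∧ w' • b = w • y) ↔
        (∃ w' : W, w' • a = x ∧ w' • b = y) := by
      intro x y
      constructor
      · rintro ⟨w', h1, h2⟩
        exact ⟨w⁻¹ * w', by rw [mul_smul, h1, inv_smul_smul], by rw [mul_smul, h2, inv_smul_smul]⟩
      · rintro ⟨w', h1, h2⟩
        exact ⟨w * w', by rw [mul_smul, h1], by rw [mul_smul, h2]⟩
    rw [hcdef, hcdef]
    simp only [e]
  obtain ⟨φ, hφ⟩ := exists_potential hT c hcanti
  have hinv := potential_invariant hT hA S hS hfix c hcW φ hφ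
  have hodd : ∀ w : W, w • a ≠ b := by
    intro w h
    have h1 := hev w a
    rw [h, dist_eq_one_iff_adj.2 (hadj i)] at h1
    exact absurd h1 (by decide)
  have hkey : ∀ m, m + 1 ≤ n → φ (z (i + (m + 1))) = φ a + 1 := by
    intro m
    induction m with
    | zero =>
      intro _
      rw [zero_add, hφ _ _ (hadj i)]
      have : c a b = 1 := by
        rw [hcdef, if_pos ⟨1, one_smul _ _, one_smul _ _⟩, if_neg]
        · rfl
        · rintro ⟨w, h1, _⟩
          exact hodd w h1
      rw [this]
    | succ m ih =>
      intro hm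
      have hm' := ih (by omega)
      have had := hadj (i + (m + 1))
      rw [show i + (m + 1 + 1) = i + (m + 1) + 1 by ring, hφ _ _ had, hm']
      have : c (z (i + (m + 1))) (z (i + (m + 1) + 1)) = 0 := by
        rw [hcdef, if_neg, if_neg]
        · rfl
        · rintro ⟨w, h1, h2⟩
          by_cases hlt : m + 2 < n
          · exact hmin (m + 2) (by omega) hlt i w h1
          · have hn2 : n = m + 2 := by omega
            by_cases hm0 : m = 0
            · subst hm0
              exact hno i w h2 h1
            · refine hmin m (by omega) (by omega) (i + 1) w ?_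
              rw [show i + 1 + m = i + (m + 1) by ring]
              exact h2
        · rintro ⟨w, h1, _⟩
          exact hmin (m + 1) (by omega) (by omega) i w h1
      rw [this, add_zero]
  have h1 := hkey (n - 1) (by omega)
  rw [show n - 1 + 1 = n by omega] at h1
  have h2 := hinv w0 a
  rw [hw0] at h2
  rw [← hn] at h2
  omega

end Action

end QI97
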