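import Pool.Agent.QI97.TreeSpace

set_option maxSynthPendingDepth 3

namespace QI97

open SimpleGraph Relation

theorem rtg_mono {α : Type*} {r p : α → α → Prop} {a b : α} (h : ReflTransGen r a b)
    (hrp : ∀ a b, r a b → p a b) : ReflTransGen p a b := by
  induction h with
  | refl => exact ReflTransGen.refl
  | tail _ h2 ih => exact ih.tail (hrp _ _ h2)

namespace TreeSpace

variable {X P Y : Type*} (S : TreeSpace X P Y)

/-- Neighbourhoods. -/
def nbhd (A : Set X) (r : ℕ) : Set X := {x | ∃ y ∈ A, S.d x y ≤ r}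

/-- Quadratic growth. -/
def Thin (M : ℕ) (N : Set X) : Prop :=
  ∀ (x : X) (ρ : ℕ) (F : Finset X), (∀ y ∈ F, y ∈ N ∧ S.d x y ≤ ρ) → F.card ≤ M * (ρ + 1) ^ 2

/-- The rigidity properties used. -/
structure Rigid : Prop where
  ball : ∀ ρ, ∃ B, ∀ (x : X) (F : Finset X), (∀ y ∈ F, S.d x y ≤ ρ) → F.card ≤ B
  thin : ∃ M, ∀ v, S.Thin M (S.pts v)
  fin_pts : ∀ x r, {v | ∃ y ∈ S.pts v, S.d x y ≤ r}.Finite
  nonthin : ∀ M N u, S.Thin M N → ∃ x, S.π x = u ∧ x ∉ N
  ns : ∀ M, ∃ R, ∀ N u, S.Thin M N → ∀ x y, S.π x = u → S.π y = u →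
    x ∉ S.nbhd N R → y ∉ S.nbhd N R →
    ReflTransGen (fun a b => S.d a b ≤ 2 ∧ a ∉ N ∧ b ∉ N ∧ S.π a = u ∧ S.π b = u) x y
  not_near : ∀ v v' r, v ≠ v' → ¬ (S.pts v ⊆ S.nbhd (S.pts v') r)
  two : ∀ v, ∃ u u', u ≠ u' ∧ S.adj u v ∧ S.adj u' v
  pts_ne : ∀ v, (S.pts v).Nonempty

variable {S}

theorem Thin.mono {M : ℕ} {N N' : Set X} (h : S.Thin M N) (hN : N' ⊆ N) : S.Thin M N' :=
  fun x ρ F hF => h x ρ F (fun y hy => ⟨hN (hF y hy).1, (hF y hy).2⟩)

theorem Thin.union {M M' : ℕ} {N N' : Set X} (h : S.Thin M N) (h' : S.Thin M' N') :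
    S.Thin (M + M') (N ∪ N') := by
  classical
  intro x ρ F hF
  have h1 := h x ρ (F.filter (fun y => y ∈ N)) (fun y hy => by
    rw [Finset.mem_filter] at hy
    exact ⟨hy.2, (hF y hy.1).2⟩)
  have h2 := h' x ρ (F.filter (fun y => ¬ y ∈ N)) (fun y hy => by
    rw [Finset.mem_filter] at hy
    refine ⟨?_, (hF y hy.1).2⟩
    rcases (hF y hy.1).1 with h3 | h3
    · exact absurd h3 hy.2
    · exact h3)
  have h3 := Finset.card_filter_add_card_filter_not (s := F) (fun y => y ∈ N)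
  rw [add_mul]
  omega

/-- Pulling back thin sets. -/
theorem thin_pull' (hball : ∀ ρ, ∃ B, ∀ (x : X) (F : Finset X), (∀ y ∈ F, S.d x y ≤ ρ) → F.card ≤ B)
    (M A : ℕ) : ∃ M', ∀ (N N' : Set X) (g : X → X), S.Thin M N →
    (∀ y ∈ N', g y ∈ N) → (∀ y ∈ N', ∀ y' ∈ N', S.d (g y) (g y') ≤ A * S.d y y' + A) →
    (∀ y ∈ N', ∀ y' ∈ N', g y = g y' → S.d y y' ≤ A) → S.Thin M' N' := by
  classical
  obtain ⟨B, hB⟩ := hball A
  refine ⟨B * (M * (2 * A + 1) ^ 2), ?_⟩
  intro N N' g hN hg hup hlow x ρ F hF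
  rcases F.eq_empty_or_nonempty with hF0 | ⟨y0, hy0⟩
  · rw [hF0]; simp
  have h1 : F.card ≤ B * (F.image g).card := by
    refine Finset.card_le_mul_card_image F B ?_
    intro b hb
    obtain ⟨a, ha, rfl⟩ := Finset.mem_image.1 hb
    refine hB a _ ?_
    intro y hy
    rw [Finset.mem_filter] at hy
    rw [S.d_comm]
    exact hlow y (hF y hy.1).1 a (hF a ha).1 hy.2
  have h2 : (F.image g).card ≤ M * ((2 * A * ρ + A) + 1) ^ 2 := by
    refine hN (g y0) _ _ ?_
    intro z hz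
    obtain ⟨a, ha, rfl⟩ := Finset.mem_image.1 hz
    refine ⟨hg a (hF a ha).1, ?_⟩
    have h3 := hup y0 (hF y0 hy0).1 a (hF a ha).1
    have h4 := S.d_tri y0 x a
    have h5 := (hF a ha).2
    have h6 := (hF y0 hy0).2
    rw [S.d_comm y0 x] at h4
    have h7 : A * S.d y0 a ≤ A * (2 * ρ) := Nat.mul_le_mul_left _ (by omega)
    have h8 : A * (2 * ρ) = 2 * A * ρ := by ring
    omega
  have h3 : (2 * A * ρ + A) + 1 ≤ (2 * A + 1) * (ρ + 1) := by nlinarith
  have h4 : ((2 * A * ρ + A) + 1) ^ 2 ≤ ((2 * A + 1) * (ρ + 1)) ^ 2 := Nat.pow_le_pow_left h3 2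
  calc F.card ≤ B * (F.image g).card := h1
    _ ≤ B * (M * ((2 * A * ρ + A) + 1) ^ 2) := Nat.mul_le_mul_left _ h2
    _ ≤ B * (M * ((2 * A + 1) * (ρ + 1)) ^ 2) := by gcongr
    _ = B * (M * (2 * A + 1) ^ 2) * (ρ + 1) ^ 2 := by ring

theorem thin_pull (hS : S.Rigid) (M A : ℕ) : ∃ M', ∀ (N N' : Set X) (g : X → X), S.Thin M N →
    (∀ y ∈ N', g y ∈ N) → (∀ y ∈ N', ∀ y' ∈ N', S.d (g y) (g y') ≤ A * S.d y y' + A) →
    (∀ y ∈ N', ∀ y' ∈ N', g y = g y' → S.d y y' ≤ A) → S.Thin M' N' :=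
  thin_pull' hS.ball M A

theorem thin_nbhd' (hball : ∀ ρ, ∃ B, ∀ (x : X) (F : Finset X), (∀ y ∈ F, S.d x y ≤ ρ) → F.card ≤ B)
    (M r : ℕ) : ∃ M', ∀ N : Set X, S.Thin M N →
    S.Thin M' (S.nbhd N r) := by
  classical
  obtain ⟨M', hM'⟩ := thin_pull' hball M (2 * r + 1)
  refine ⟨M', fun N hN => ?_⟩
  have hex : ∀ y : X, ∃ z, y ∈ S.nbhd N r → (z ∈ N ∧ S.d y z ≤ r) := by
    intro y
    by_cases hy : y ∈ S.nbhd N r
    · obtain ⟨z, hz, hd⟩ := hy
      exact ⟨z, fun _ => ⟨hz, hd⟩⟩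
    · exact ⟨y, fun h => absurd h hy⟩
  choose g hg using hex
  refine hM' N _ g hN (fun y hy => (hg y hy).1) ?_ ?_
  · intro y hy y' hy'
    have h1 := (hg y hy).2
    have h2 := (hg y' hy').2
    have h3 := S.d_tri (g y) y (g y')
    have h4 := S.d_tri y y' (g y')
    rw [S.d_comm (g y) y] at h3
    nlinarith
  · intro y hy y' hy' h
    have h1 := (hg y hy).2
    have h2 := (hg y' hy').2
    have h3 := S.d_tri y (g y) y'
    rw [h] at h3 h1
    rw [S.d_comm (g y') y'] at h3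
    omega

theorem thin_nbhd (hS : S.Rigid) (M r : ℕ) : ∃ M', ∀ N : Set X, S.Thin M N →
    S.Thin M' (S.nbhd N r) := thin_nbhd' hS.ball M r

theorem nbhd_nbhd {A : Set X} {r r' : ℕ} {x : X} (h : x ∈ S.nbhd (S.nbhd A r) r') :
    x ∈ S.nbhd A (r + r') := by
  obtain ⟨y, ⟨z, hz, h1⟩, h2⟩ := h
  refine ⟨z, hz, ?_⟩
  have := S.d_tri x y z
  omega

theorem nbhd_mono {A : Set X} {r r' : ℕ} (h : r ≤ r') : S.nbhd A r ⊆ S.nbhd A r' := by
  rintro x ⟨y, hy, h1⟩
  exact ⟨y, hy, by omega⟩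

/-- Thin subsets of flats do not coarsely separate unless they are coarsely everything. -/
theorem nonsep (hS : S.Rigid) (v : Y) (Y0 : Set X) (r0 : ℕ) (h0 : Y0 ⊆ S.nbhd (S.pts v) r0)
    (h : ∀ r, ¬ (S.pts v ⊆ S.nbhd Y0 r)) (r : ℕ) :
    ∃ R, ∀ x y, x ∉ S.nbhd Y0 R → y ∉ S.nbhd Y0 R →
      ReflTransGen (fun a b => S.d a b ≤ 2 ∧ a ∉ S.nbhd Y0 r ∧ b ∉ S.nbhd Y0 r) x y := by
  obtain ⟨M0, hM0⟩ := hS.thin
  obtain ⟨M, hM⟩ := thin_nbhd hS M0 (r0 + r)
  have hthin : S.Thin M (S.nbhd Y0 r) := by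
    refine (hM (S.pts v) (hM0 v)).mono ?_
    rintro x ⟨y, hy, h1⟩
    exact nbhd_nbhd ⟨y, h0 hy, h1⟩
  obtain ⟨R1, hR1⟩ := hS.ns M
  refine ⟨r + R1, ?_⟩
  have hfar : ∀ x, x ∉ S.nbhd Y0 (r + R1) → x ∉ S.nbhd (S.nbhd Y0 r) R1 :=
    fun x hx h => hx (nbhd_nbhd h)
  have key : ∀ n (u u' : P), S.T.dist (Sum.inl u) (Sum.inl u') ≤ n → ∀ x y, S.π x = u →
      S.π y = u' → x ∉ S.nbhd Y0 (r + R1) → y ∉ S.nbhd Y0 (r + R1) →
      ReflTransGen (fun a b => S.d a b ≤ 2 ∧ a ∉ S.nbhd Y0 r ∧ b ∉ S.nbhd Y0 r) x y := by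
    intro n
    induction n using Nat.strong_induction_on with
    | _ n ih =>
      intro u u' hd x y hx hy hxf hyf
      by_cases huu : u = u'
      · subst huu
        refine rtg_mono (hR1 _ u hthin x y hx hy (hfar x hxf) (hfar y hyf)) ?_
        intro a b hab
        exact ⟨hab.1, hab.2.1, hab.2.2.1⟩
      · obtain ⟨v1, hv1, hs, hg⟩ := S.exists_sep huu
        obtain ⟨u1, hu1, hu1v⟩ := S.exists_side_eq v1 u'
        have hne : (Sum.inl u : P ⊕ Y) ≠ Sum.inl u' := by simpa using huu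
        have h1 := (gate_spec S.isTree hne).2
        rw [hg] at h1
        have hne2 : (Sum.inr v1 : P ⊕ Y) ≠ Sum.inl u' := by simp
        have h2 := (gate_spec S.isTree hne2).2
        have h3 : gate S.T (Sum.inr v1) (Sum.inl u') = Sum.inl u1 := hu1
        rw [h3] at h2
        -- a far point
        have hz : ∃ z ∈ S.pts v1, z ∉ S.nbhd Y0 (r + R1 + 1) := by
          by_cases hvv : v1 = v
          · subst hvv
            have := h (r + R1 + 1)
            rw [Set.not_subset] at this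
            exact this
          · have := hS.not_near v1 v (r0 + (r + R1 + 1)) hvv
            rw [Set.not_subset] at this
            obtain ⟨z, hz, hz2⟩ := this
            refine ⟨z, hz, ?_⟩
            rintro ⟨y', hy', h4⟩
            exact hz2 (nbhd_nbhd ⟨y', h0 hy', h4⟩)
        obtain ⟨z, hz1, hz2⟩ := hz
        obtain ⟨z1, _, hd1, hπ1⟩ := S.near u v1 hv1 z hz1
        obtain ⟨z2, _, hd2, hπ2⟩ := S.near u1 v1 hu1v z hz1
        have hz1f : z1 ∉ S.nbhd Y0 (r + R1) := by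
          rintro ⟨y', hy', h4⟩
          refine hz2 ⟨y', hy', ?_⟩
          have := S.d_tri z z1 y'
          omega
        have hz2f : z2 ∉ S.nbhd Y0 (r + R1) := by
          rintro ⟨y', hy', h4⟩
          refine hz2 ⟨y', hy', ?_⟩
          have := S.d_tri z z2 y'
          omega
        have c1 : ReflTransGen (fun a b => S.d a b ≤ 2 ∧ a ∉ S.nbhd Y0 r ∧ b ∉ S.nbhd Y0 r)
            x z1 := by
          refine rtg_mono (hR1 _ u hthin x z1 hx hπ1 (hfar x hxf) (hfar z1 hz1f)) ?_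
          intro a b hab
          exact ⟨hab.1, hab.2.1, hab.2.2.1⟩
        have c3 := ih (n - 2) (by omega) u1 u' (by omega) z2 y hπ2 hy hz2f hyf
        refine (c1.tail ⟨?_, ?_, ?_⟩).trans c3
        · have := S.d_tri z1 z z2
          rw [S.d_comm z1 z] at this
          omega
        · exact fun h => hz1f (nbhd_mono (by omega) h)
        · exact fun h => hz2f (nbhd_mono (by omega) h)
  intro x y hx hy
  exact key _ _ _ le_rfl x y rfl rfl hx hy

/-- A coarse action. -/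
structure CoarseAction (S : TreeSpace X P Y) (W : Type*) [Group W] where
  act : W → X → X
  K : ℕ
  lip : ∀ w x y, S.d (act w x) (act w y) ≤ K * S.d x y + K
  comp : ∀ w w' x, S.d (act w (act w' x)) (act (w * w') x) ≤ K
  one : ∀ x, S.d (act 1 x) x ≤ K
  x0 : X
  cob : ∀ x, ∃ w, S.d x (act w x0) ≤ K

namespace CoarseAction

variable {W : Type*} [Group W] (A : CoarseAction S W)

theorem inv_act (w : W) (x : X) : S.d (A.act w⁻¹ (A.act w x)) x ≤ 2 * A.K := by
  have h1 := A.comp w⁻¹ w x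
  rw [inv_mul_cancel] at h1
  have h2 := A.one x
  have h3 := S.d_tri (A.act w⁻¹ (A.act w x)) (A.act 1 x) x
  omega

theorem act_inv (w : W) (x : X) : S.d (A.act w (A.act w⁻¹ x)) x ≤ 2 * A.K := by
  have := A.inv_act w⁻¹ x
  rwa [inv_inv] at this

theorem low (w : W) (x y : X) : S.d x y ≤ A.K * S.d (A.act w x) (A.act w y) + 5 * A.K := by
  have h1 := A.inv_act w x
  have h2 := A.inv_act w y
  have h3 := A.lip w⁻¹ (A.act w x) (A.act w y)
  have h4 := S.d_tri x (A.act w⁻¹ (A.act w x)) y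
  have h5 := S.d_tri (A.act w⁻¹ (A.act w x)) (A.act w⁻¹ (A.act w y)) y
  rw [S.d_comm] at h1
  omega

theorem lip_one {w : W} {x y : X} (h : S.d x y ≤ 1) : S.d (A.act w x) (A.act w y) ≤ 2 * A.K := by
  have h1 := A.lip w x y
  have h2 : A.K * S.d x y ≤ A.K * 1 := Nat.mul_le_mul_left _ h
  omega

theorem lip_two {w : W} {x y : X} (h : S.d x y ≤ 2) : S.d (A.act w x) (A.act w y) ≤ 3 * A.K := by
  have h1 := A.lip w x y
  have h2 : A.K * S.d x y ≤ A.K * 2 := Nat.mul_le_mul_left _ h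
  omega

theorem lip_le {w : W} {x y : X} {r : ℕ} (h : S.d x y ≤ r) :
    S.d (A.act w x) (A.act w y) ≤ A.K * r + A.K := by
  have h1 := A.lip w x y
  have h2 : A.K * S.d x y ≤ A.K * r := Nat.mul_le_mul_left _ h
  omega

/-- The preimage of a neighbourhood of `pts v`. -/
def pre (w : W) (v : Y) (r : ℕ) : Set X := {x | A.act w x ∈ S.nbhd (S.pts v) r}

theorem thin_pre (hS : S.Rigid) (r : ℕ) : ∃ M, ∀ w v, S.Thin M (A.pre w v r) := by
  classical
  obtain ⟨M0, hM0⟩ := hS.thin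
  obtain ⟨M, hM⟩ := thin_pull hS M0 (2 * A.K * r + 2 * r + 6 * A.K)
  refine ⟨M, fun w v => ?_⟩
  have hex : ∀ y : X, ∃ z, y ∈ A.pre w v r → (z ∈ S.pts v ∧ S.d (A.act w y) z ≤ r) := by
    intro y
    by_cases hy : y ∈ A.pre w v r
    · obtain ⟨z, hz, hd⟩ := hy
      exact ⟨z, fun _ => ⟨hz, hd⟩⟩
    · exact ⟨y, fun h => absurd h hy⟩
  choose g hg using hex
  refine hM (S.pts v) _ g (hM0 v) (fun y hy => (hg y hy).1) ?_ ?_
  · intro y hy y' hy'
    have h1 := (hg y hy).2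
    have h2 := (hg y' hy').2
    have h3 := S.d_tri (g y) (A.act w y) (g y')
    have h4 := S.d_tri (A.act w y) (A.act w y') (g y')
    have h5 := A.lip w y y'
    rw [S.d_comm (g y) (A.act w y)] at h3
    have h6 : A.K * S.d y y' ≤ (2 * A.K * r + 2 * r + 6 * A.K) * S.d y y' :=
      Nat.mul_le_mul_right _ (by nlinarith)
    have h7 : 0 ≤ 2 * A.K * r := Nat.zero_le _
    omega
  · intro y hy y' hy' h
    have h1 := (hg y hy).2
    have h2 := (hg y' hy').2
    have h3 := S.d_tri (A.act w y) (g y) (A.act w y')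
    rw [h] at h3 h1
    rw [S.d_comm (g y') _] at h3
    have h4 := A.low w y y'
    have h5 : A.K * S.d (A.act w y) (A.act w y') ≤ A.K * (2 * r) :=
      Nat.mul_le_mul_left _ (by omega)
    have h6 : A.K * (2 * r) = 2 * A.K * r := by ring
    omega

/-- A point near two `P`-cosets on different sides of `v` is near `v`. -/
theorem both_near {a y1 y2 : X} {R : ℕ} {v : Y} (h1 : S.d a y1 ≤ R) (h2 : S.d a y2 ≤ R)
    (h : S.side v (S.π y1) ≠ S.side v (S.π y2)) : a ∈ S.nbhd (S.pts v) R := by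
  by_cases h3 : S.side v (S.π a) = S.side v (S.π y1)
  · obtain ⟨z, hz, hd⟩ := S.sep v R a y2 h2 (by rw [h3]; exact h)
    exact ⟨z, hz, hd⟩
  · obtain ⟨z, hz, hd⟩ := S.sep v R a y1 h1 h3
    exact ⟨z, hz, hd⟩

/-- The coarse image of a `P`-coset is near at most one `P`-coset. -/
theorem near_unique (hS : S.Rigid) {w : W} {u u1 u2 : P} {R1 R2 : ℕ}
    (h1 : ∀ x, S.π x = u → ∃ y, S.π y = u1 ∧ S.d (A.act w x) y ≤ R1)
    (h2 : ∀ x, S.π x = u → ∃ y, S.π y = u2 ∧ S.d (A.act w x) y ≤ R2) : u1 = u2 := by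
  by_contra hne
  obtain ⟨v, hv, hs, _⟩ := S.exists_sep hne
  obtain ⟨M, hM⟩ := A.thin_pre hS (R1 + R2)
  obtain ⟨x, hx, hx2⟩ := hS.nonthin M _ u (hM w v)
  apply hx2
  obtain ⟨y1, hy1, hd1⟩ := h1 x hx
  obtain ⟨y2, hy2, hd2⟩ := h2 x hx
  refine both_near (y1 := y1) (y2 := y2) (by omega) (by omega) ?_
  rw [hy1, hy2]
  exact hs

/-- The coarse image of a `P`-coset is near a `P`-coset. -/
theorem exists_near (hS : S.Rigid) : ∃ R, ∀ (w : W) (u : P), ∃ u', ∀ x, S.π x = u →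
    ∃ y, S.π y = u' ∧ S.d (A.act w x) y ≤ R := by
  classical
  obtain ⟨M1, hM1⟩ := A.thin_pre hS (3 * A.K)
  obtain ⟨R1, hR1⟩ := hS.ns M1
  obtain ⟨M2, hM2⟩ := thin_nbhd hS M1 R1
  set R2 := A.K * R1 + A.K + 3 * A.K with hR2
  refine ⟨R2 + 1, ?_⟩
  intro w u
  -- deep sides
  have hdeep : ∀ v, ∃ g : P ⊕ Y, (∃ t, g = Sum.inl t ∧ S.adj t v) ∧
      ∀ x, S.π x = u → x ∉ S.nbhd (A.pre w v (3 * A.K)) R1 →
        S.side v (S.π (A.act w x)) = g := by
    intro v
    obtain ⟨x0, hx0, hx0'⟩ := hS.nonthin M2 _ u (hM2 _ (hM1 w v))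
    refine ⟨S.side v (S.π (A.act w x0)), S.exists_side_eq _ _, ?_⟩
    intro x hx hx'
    have hc := hR1 _ u (hM1 w v) x x0 hx hx0 hx' hx0'
    clear hx hx'
    induction hc using ReflTransGen.head_induction_on with
    | refl => rfl
    | @head a b hab _ ih =>
      rw [← ih]
      by_contra hne
      obtain ⟨z, hz, hd⟩ := S.sep v (3 * A.K) _ _ (A.lip_two (w := w) hab.1) hne
      exact hab.2.1 ⟨z, hz, hd⟩
  choose g hg1 hg2 using hdeep
  have hnear : ∀ v x, S.π x = u → S.side v (S.π (A.act w x)) ≠ g v →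
      ∃ z ∈ S.pts v, S.d (A.act w x) z ≤ R2 := by
    intro v x hx hne
    have h1 : x ∈ S.nbhd (A.pre w v (3 * A.K)) R1 := by
      by_contra h
      exact hne (hg2 v x hx h)
    obtain ⟨n, ⟨z, hz, hd⟩, hn⟩ := h1
    refine ⟨z, hz, ?_⟩
    have h2 := S.d_tri (A.act w x) (A.act w n) z
    have h3 := A.lip_le (w := w) hn
    omega
  obtain ⟨x00, hx00⟩ := S.surj u
  have hfin0 : {v | S.side v (S.π (A.act w x00)) ≠ g v}.Finite :=
    (hS.fin_pts (A.act w x00) R2).subset (fun v hv => hnear v x00 hx00 hv)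
  -- descent
  have hdesc : ∀ n (t : P), {v | S.side v t ≠ g v}.Finite → {v | S.side v t ≠ g v}.ncard ≤ n →
      ∃ t', ∀ v, S.side v t' = g v := by
    intro n
    induction n with
    | zero =>
      intro t hf hc
      refine ⟨t, fun v => ?_⟩
      have h1 : {v | S.side v t ≠ g v} = ∅ := (Set.ncard_eq_zero hf).1 (Nat.le_zero.1 hc)
      by_contra h2
      have : v ∈ {v | S.side v t ≠ g v} := h2
      rw [h1] at this
      exact this
    | succ n ih =>
      intro t hf hc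
      by_cases hemp : {v | S.side v t ≠ g v}.Nonempty
      · obtain ⟨v, hv, hvmin⟩ := Set.exists_min_image _
          (fun v => S.T.dist (Sum.inl t) (Sum.inr v)) hf hemp
        have hvbad : S.side v t ≠ g v := hv
        have hadj : S.adj t v := by
          have hne : (Sum.inl t : P ⊕ Y) ≠ Sum.inr v := by simp
          obtain ⟨ga, gd⟩ := gate_spec S.isTree hne
          rcases hgt : gate S.T (Sum.inl t) (Sum.inr v) with w' | v1
          · rw [hgt] at ga
            exact absurd ga bip_ll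
          rw [hgt] at ga gd
          by_cases hv1 : v1 = v
          · rw [hv1] at ga
            exact bip_lr.1 ga
          exfalso
          have hadj1 : S.adj t v1 := bip_lr.1 ga
          have hd1 : S.T.dist (Sum.inl t) (Sum.inr v1) = 1 := dist_eq_one_iff_adj.2 ga
          have hpos : S.T.dist (Sum.inr v1) (Sum.inr v) ≠ 0 := by
            rw [Ne, S.isTree.1.dist_eq_zero_iff]
            simpa using hv1
          have hgood : S.side v1 t = g v1 := by
            by_contra hbad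
            have := hvmin v1 hbad
            omega
          rw [S.side_adj hadj1] at hgood
          obtain ⟨x, hx, hx'⟩ := hS.nonthin _ _ u
            ((hM2 _ (hM1 w v)).union (hM2 _ (hM1 w v1)))
          rw [Set.mem_union, not_or] at hx'
          have e1 := hg2 v x hx hx'.1
          have e2 := hg2 v1 x hx hx'.2
          set y := S.π (A.act w x) with hy
          have e3 := dist_add_of_gate_ne S.isTree (v := Sum.inr v) (a := Sum.inl t)
            (b := Sum.inl y) (by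
              show S.side v t ≠ S.side v y
              rw [e1]
              exact hvbad)
          have e4 : gate S.T (Sum.inr v1) (Sum.inl y) = Sum.inl t := by
            show S.side v1 y = _
            rw [e2, hgood]
          have hne4 : (Sum.inr v1 : P ⊕ Y) ≠ Sum.inl y := by simp
          have e5 := (gate_spec S.isTree hne4).2
          rw [e4] at e5
          have e6 := S.isTree.1.dist_triangle (u := Sum.inr v1) (v := Sum.inr v) (w := Sum.inl y)
          omega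
        obtain ⟨t', ht', hadj'⟩ := hg1 v
        have hsub : {v | S.side v t' ≠ g v} ⊆ {v | S.side v t ≠ g v} \ {v} := by
          intro v'' hv''
          have hne : v'' ≠ v := by
            rintro rfl
            apply hv''
            rw [S.side_adj hadj', ht']
          refine ⟨?_, hne⟩
          show S.side v'' t ≠ g v''
          rw [S.side_congr hadj hadj' hne]
          exact hv''
        have hf' : ({v | S.side v t ≠ g v} \ {v}).Finite := hf.subset Set.sdiff_subset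
        refine ih t' (hf'.subset hsub) ?_
        have h1 := Set.ncard_le_ncard hsub hf'
        have h2 := Set.ncard_sdiff_singleton_add_one hv hf
        omega
      · refine ⟨t, fun v => ?_⟩
        by_contra h2
        exact hemp ⟨v, h2⟩
  obtain ⟨t, ht⟩ := hdesc _ _ hfin0 le_rfl
  refine ⟨t, fun x hx => ?_⟩
  by_cases heq : S.π (A.act w x) = t
  · exact ⟨_, heq, by rw [S.d_self]; omega⟩
  · obtain ⟨v, hv, hs, _⟩ := S.exists_sep (Ne.symm heq)
    rw [ht] at hs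
    obtain ⟨z, hz, hd⟩ := hnear v x hx hs.symm
    obtain ⟨z', hz', hd', hπ⟩ := S.near t v hv z hz
    refine ⟨z', hπ, ?_⟩
    have := S.d_tri (A.act w x) z z'
    omega

/-- `u'` is coarsely the image of `u`. -/
def RelP (w : W) (u u' : P) : Prop := ∃ R, ∀ x, S.π x = u → ∃ y, S.π y = u' ∧ S.d (A.act w x) y ≤ R

/-- `v'` is coarsely the image of `v`. -/
def RelY (w : W) (v v' : Y) : Prop :=
  ∃ R, ∀ x ∈ S.pts v, ∃ y ∈ S.pts v', S.d (A.act w x) y ≤ R

variable {A}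

theorem RelP.unique (hS : S.Rigid) {w : W} {u u1 u2 : P} (h1 : A.RelP w u u1)
    (h2 : A.RelP w u u2) : u1 = u2 := by
  obtain ⟨R1, h1⟩ := h1
  obtain ⟨R2, h2⟩ := h2
  exact A.near_unique hS h1 h2

theorem RelP.comp {w w' : W} {u u1 u2 : P} (h1 : A.RelP w' u u1) (h2 : A.RelP w u1 u2) :
    A.RelP (w * w') u u2 := by
  obtain ⟨R1, h1⟩ := h1
  obtain ⟨R2, h2⟩ := h2
  refine ⟨A.K + (A.K * R1 + A.K) + R2, fun x hx => ?_⟩
  obtain ⟨y, hy, hd⟩ := h1 x hx
  obtain ⟨z, hz, hd'⟩ := h2 y hy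
  refine ⟨z, hz, ?_⟩
  have e1 := A.comp w w' x
  have e2 := A.lip_le (w := w) hd
  have e3 := S.d_tri (A.act (w * w') x) (A.act w (A.act w' x)) z
  have e4 := S.d_tri (A.act w (A.act w' x)) (A.act w y) z
  have e5 := S.d_comm (A.act (w * w') x) (A.act w (A.act w' x))
  omega

theorem RelP.one (u : P) : A.RelP 1 u u := ⟨A.K, fun x hx => ⟨x, hx, A.one x⟩⟩

theorem RelY.comp {w w' : W} {u u1 u2 : Y} (h1 : A.RelY w' u u1) (h2 : A.RelY w u1 u2) :
    A.RelY (w * w') u u2 := by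
  obtain ⟨R1, h1⟩ := h1
  obtain ⟨R2, h2⟩ := h2
  refine ⟨A.K + (A.K * R1 + A.K) + R2, fun x hx => ?_⟩
  obtain ⟨y, hy, hd⟩ := h1 x hx
  obtain ⟨z, hz, hd'⟩ := h2 y hy
  refine ⟨z, hz, ?_⟩
  have e1 := A.comp w w' x
  have e2 := A.lip_le (w := w) hd
  have e3 := S.d_tri (A.act (w * w') x) (A.act w (A.act w' x)) z
  have e4 := S.d_tri (A.act w (A.act w' x)) (A.act w y) z
  have e5 := S.d_comm (A.act (w * w') x) (A.act w (A.act w' x))
  omega

theorem RelY.one (u : Y) : A.RelY 1 u u := ⟨A.K, fun x hx => ⟨x, hx, A.one x⟩⟩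

theorem RelY.eq_of_one (hS : S.Rigid) {v v' : Y} (h : A.RelY 1 v v') : v = v' := by
  by_contra hne
  obtain ⟨R, h⟩ := h
  refine hS.not_near v v' (A.K + R) hne ?_
  intro x hx
  obtain ⟨y, hy, hd⟩ := h x hx
  refine ⟨y, hy, ?_⟩
  have e1 := A.one x
  have e2 := S.d_tri x (A.act 1 x) y
  rw [S.d_comm] at e1
  omega

theorem RelP.inj (hS : S.Rigid) {w : W} {u1 u2 u : P} (h1 : A.RelP w u1 u) (h2 : A.RelP w u2 u) :
    u1 = u2 := by
  obtain ⟨R, hR⟩ := A.exists_near hS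
  obtain ⟨u', hu'⟩ := hR w⁻¹ u
  have h3 : A.RelP w⁻¹ u u' := ⟨R, hu'⟩
  have e1 := h1.comp h3
  have e2 := h2.comp h3
  rw [inv_mul_cancel] at e1 e2
  rw [(RelP.one u1).unique hS e1, (RelP.one u2).unique hS e2]

/-- The image of a flat is near any flat separating the images of two adjacent `P`-cosets. -/
theorem relY_of_sep {w : W} {v v' : Y} {u1 u2 u1' u2' : P} {R : ℕ} (h1 : S.adj u1 v)
    (h2 : S.adj u2 v) (hr1 : ∀ x, S.π x = u1 → ∃ y, S.π y = u1' ∧ S.d (A.act w x) y ≤ R)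
    (hr2 : ∀ x, S.π x = u2 → ∃ y, S.π y = u2' ∧ S.d (A.act w x) y ≤ R)
    (hs : S.side v' u1' ≠ S.side v' u2') :
    ∀ x ∈ S.pts v, ∃ y ∈ S.pts v', S.d (A.act w x) y ≤ 2 * A.K + R := by
  intro x hx
  obtain ⟨x1, _, hd1, hp1⟩ := S.near u1 v h1 x hx
  obtain ⟨x2, _, hd2, hp2⟩ := S.near u2 v h2 x hx
  obtain ⟨y1, hy1, hdy1⟩ := hr1 x1 hp1
  obtain ⟨y2, hy2, hdy2⟩ := hr2 x2 hp2
  have e1 := A.lip_one (w := w) hd1
  have e2 := A.lip_one (w := w) hd2
  have e3 := S.d_tri (A.act w x) (A.act w x1) y1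
  have e4 := S.d_tri (A.act w x) (A.act w x2) y2
  have := both_near (S := S) (a := A.act w x) (y1 := y1) (y2 := y2) (R := 2 * A.K + R) (v := v')
    (by omega) (by omega) (by rw [hy1, hy2]; exact hs)
  exact this

theorem exists_nearY (hS : S.Rigid) : ∃ R, ∀ (w : W) (v : Y), ∃ v', ∀ x ∈ S.pts v,
    ∃ y ∈ S.pts v', S.d (A.act w x) y ≤ R := by
  obtain ⟨R, hR⟩ := A.exists_near hS
  refine ⟨2 * A.K + R, fun w v => ?_⟩
  obtain ⟨u1, u2, hne, h1, h2⟩ := hS.two v
  obtain ⟨u1', hu1'⟩ := hR w u1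
  obtain ⟨u2', hu2'⟩ := hR w u2
  have hne' : u1' ≠ u2' := by
    rintro rfl
    exact hne (RelP.inj (A := A) hS ⟨R, hu1'⟩ ⟨R, hu2'⟩)
  obtain ⟨v', _, hs, _⟩ := S.exists_sep hne'
  exact ⟨v', relY_of_sep h1 h2 hu1' hu2' hs⟩

theorem RelY.unique (hS : S.Rigid) {w : W} {v v1 v2 : Y} (h1 : A.RelY w v v1)
    (h2 : A.RelY w v v2) : v1 = v2 := by
  obtain ⟨R, hR⟩ := exists_nearY (A := A) hS
  obtain ⟨v', hv'⟩ := hR w⁻¹ v1
  have h3 : A.RelY w⁻¹ v1 v' := ⟨R, hv'⟩
  have h4 := h1.comp h3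
  rw [inv_mul_cancel] at h4
  have h5 := h4.eq_of_one hS
  subst h5
  have h6 := h3.comp h2
  rw [mul_inv_cancel] at h6
  exact h6.eq_of_one hS

/-- The induced action on the tree. -/
theorem exists_action (hS : S.Rigid) : ∃ (_ : MulAction W (P ⊕ Y)) (R : ℕ),
    (∀ (w : W) (u : P), ∃ u', w • (Sum.inl u : P ⊕ Y) = Sum.inl u' ∧
      ∀ x, S.π x = u → ∃ y, S.π y = u' ∧ S.d (A.act w x) y ≤ R) ∧
    (∀ (w : W) (v : Y), ∃ v', w • (Sum.inr v : P ⊕ Y) = Sum.inr v' ∧
      ∀ x ∈ S.pts v, ∃ y ∈ S.pts v', S.d (A.act w x) y ≤ R) ∧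
    ActsOn W S.T ∧
    (∃ F : Set (P ⊕ Y), F.Finite ∧ ∀ a : P ⊕ Y, ∃ w : W, w • a ∈ F) := by
  classical
  obtain ⟨R1, hR1⟩ := A.exists_near hS
  obtain ⟨R2, hR2⟩ := exists_nearY (A := A) hS
  choose fP hfP using hR1
  choose fY hfY using hR2
  have hP : ∀ w u, A.RelP w u (fP w u) := fun w u => ⟨R1, hfP w u⟩
  have hY : ∀ w u, A.RelY w u (fY w u) := fun w u => ⟨R2, hfY w u⟩
  let inst : MulAction W (P ⊕ Y) :=
    { smul := fun w a => Sum.map (fP w) (fY w) a
      one_smul := by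
        rintro (u | v)
        · show Sum.inl (fP 1 u) = Sum.inl u
          rw [(hP 1 u).unique hS (RelP.one u)]
        · show Sum.inr (fY 1 v) = Sum.inr v
          rw [(hY 1 v).unique hS (RelY.one v)]
      mul_smul := by
        rintro w w' (u | v)
        · show Sum.inl (fP (w * w') u) = Sum.inl (fP w (fP w' u))
          rw [(hP (w * w') u).unique hS ((hP w' u).comp (hP w _))]
        · show Sum.inr (fY (w * w') v) = Sum.inr (fY w (fY w' v))
          rw [(hY (w * w') v).unique hS ((hY w' v).comp (hY w _))] }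
  have hl : ∀ (w : W) (u : P), w • (Sum.inl u : P ⊕ Y) = Sum.inl (fP w u) := fun _ _ => rfl
  have hr : ∀ (w : W) (v : Y), w • (Sum.inr v : P ⊕ Y) = Sum.inr (fY w v) := fun _ _ => rfl
  have hadj : ∀ w u v, S.adj u v → S.adj (fP w u) (fY w v) := by
    intro w u v huv
    obtain ⟨u', hne, hu'⟩ : ∃ u', u ≠ u' ∧ S.adj u' v := by
      obtain ⟨u1, u2, hne, h1, h2⟩ := hS.two v
      by_cases h : u = u1
      · subst h; exact ⟨u2, hne, h2⟩
      · exact ⟨u1, h, h1⟩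
    have hne' : fP w u ≠ fP w u' := by
      intro h
      have h1 := hP w u
      rw [h] at h1
      exact hne (h1.inj hS (hP w u'))
    obtain ⟨v', hv', hs, _⟩ := S.exists_sep hne'
    have h1 := relY_of_sep (A := A) huv hu' (hfP w u) (hfP w u') hs
    have h2 : fY w v = v' := (hY w v).unique hS ⟨_, h1⟩
    rw [h2]
    exact hv'
  refine ⟨inst, R1 + R2, ?_, ?_, ?_, ?_⟩
  · intro w u
    refine ⟨fP w u, hl w u, fun x hx => ?_⟩
    obtain ⟨y, hy, hd⟩ := hfP w u x hx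
    exact ⟨y, hy, by omega⟩
  · intro w v
    refine ⟨fY w v, hr w v, fun x hx => ?_⟩
    obtain ⟨y, hy, hd⟩ := hfY w v x hx
    exact ⟨y, hy, by omega⟩
  · rintro w (u | v) (u' | v') h
    · exact absurd h bip_ll
    · rw [hl, hr]
      exact bip_lr.2 (hadj w _ _ (bip_lr.1 h))
    · rw [hl, hr]
      exact bip_rl.2 (hadj w _ _ (bip_rl.1 h))
    · exact absurd h bip_rr
  · -- finitely many orbits
    set D := A.K * A.K + A.K + 2 * A.K with hD
    have hcob : ∀ x, ∃ w : W, S.d (A.act w x) A.x0 ≤ D := by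
      intro x
      obtain ⟨w, hw⟩ := A.cob x
      refine ⟨w⁻¹, ?_⟩
      have h1 := A.lip_le (w := w⁻¹) hw
      have h2 := A.inv_act w A.x0
      have h3 := S.d_tri (A.act w⁻¹ x) (A.act w⁻¹ (A.act w A.x0)) A.x0
      omega
    have hballfin : ∀ r, {y | S.d A.x0 y ≤ r}.Finite := by
      intro r
      obtain ⟨B, hB⟩ := hS.ball r
      by_contra hinf
      obtain ⟨F, hF, hc⟩ := Set.Infinite.exists_subset_card_eq hinf (B + 1)
      have := hB A.x0 F (fun y hy => hF hy)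
      omega
    refine ⟨(Sum.inl '' (S.π '' {y | S.d A.x0 y ≤ D + R1})) ∪
      (Sum.inr '' {v | ∃ y ∈ S.pts v, S.d A.x0 y ≤ D + R2}), ?_, ?_⟩
    · exact (((hballfin _).image _).image _).union ((hS.fin_pts _ _).image _)
    · rintro (u | v)
      · obtain ⟨x, hx⟩ := S.surj u
        obtain ⟨w, hw⟩ := hcob x
        refine ⟨w, Or.inl ?_⟩
        rw [hl]
        obtain ⟨y, hy, hd⟩ := hfP w u x hx
        refine ⟨_, ⟨y, ?_, hy⟩, rfl⟩
        have := S.d_tri A.x0 (A.act w x) y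
        have h5 := S.d_comm A.x0 (A.act w x)
        show S.d A.x0 y ≤ D + R1
        omega
      · obtain ⟨x, hx⟩ := hS.pts_ne v
        obtain ⟨w, hw⟩ := hcob x
        refine ⟨w, Or.inr ?_⟩
        rw [hr]
        obtain ⟨y, hy, hd⟩ := hfY w v x hx
        refine ⟨_, ⟨y, hy, ?_⟩, rfl⟩
        have := S.d_tri A.x0 (A.act w x) y
        have h5 := S.d_comm A.x0 (A.act w x)
        omega

end CoarseAction

end TreeSpace

end QI97
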