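import Pool.Agent.QI97.Coarse
import Mathlib.Analysis.SpecificLimits.Normed

set_option maxSynthPendingDepth 3

namespace QI97

open Relation

/-- Number of words of length `n` satisfying `B`. -/
noncomputable def cnt : ℕ → (List Bool → Prop) → ℕ
  | 0, B => by classical exact if B [] then 1 else 0
  | n + 1, B => cnt n (fun w => B (false :: w)) + cnt n (fun w => B (true :: w))

theorem cnt_zero (B : List Bool → Prop) [Decidable (B [])] : cnt 0 B = if B [] then 1 else 0 := by
  unfold cnt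
  congr

theorem cnt_succ (n : ℕ) (B : List Bool → Prop) :
    cnt (n + 1) B = cnt n (fun w => B (false :: w)) + cnt n (fun w => B (true :: w)) := rfl

theorem cnt_or (n : ℕ) : ∀ (B B' : List Bool → Prop),
    cnt n (fun w => B w ∨ B' w) ≤ cnt n B + cnt n B' := by
  classical
  induction n with
  | zero =>
    intro B B'
    rw [cnt_zero, cnt_zero, cnt_zero]
    split_ifs <;> simp_all
  | succ n ih =>
    intro B B'
    rw [cnt_succ, cnt_succ, cnt_succ]
    have h1 := ih (fun w => B (false :: w)) (fun w => B' (false :: w))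
    have h2 := ih (fun w => B (true :: w)) (fun w => B' (true :: w))
    omega

theorem exists_words (n : ℕ) : ∀ B : List Bool → Prop, ∃ F : Finset (List Bool),
    F.card = cnt n B ∧ ∀ w ∈ F, w.length = n ∧ B w := by
  classical
  induction n with
  | zero =>
    intro B
    by_cases h : B []
    · exact ⟨{[]}, by rw [cnt_zero, if_pos h]; rfl, by simp [h]⟩
    · exact ⟨∅, by rw [cnt_zero, if_neg h]; rfl, by simp⟩
  | succ n ih =>
    intro B
    obtain ⟨F, hF, hF'⟩ := ih (fun w => B (false :: w))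
    obtain ⟨H, hH, hH'⟩ := ih (fun w => B (true :: w))
    refine ⟨F.image (List.cons false) ∪ H.image (List.cons true), ?_, ?_⟩
    · rw [Finset.card_union_of_disjoint, Finset.card_image_of_injective _ (List.cons_injective),
        Finset.card_image_of_injective _ (List.cons_injective), hF, hH, cnt_succ]
      rw [Finset.disjoint_left]
      intro w hw hw'
      obtain ⟨a, _, rfl⟩ := Finset.mem_image.1 hw
      obtain ⟨b, _, hb⟩ := Finset.mem_image.1 hw'
      simp at hb
    · intro w hw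
      rcases Finset.mem_union.1 hw with hw | hw
      · obtain ⟨a, ha, rfl⟩ := Finset.mem_image.1 hw
        have := hF' a ha
        exact ⟨by simp [this.1], this.2⟩
      · obtain ⟨a, ha, rfl⟩ := Finset.mem_image.1 hw
        have := hH' a ha
        exact ⟨by simp [this.1], this.2⟩

/-- Kraft's inequality: few bad words leave a word without bad prefixes. -/
theorem kraft (n : ℕ) : ∀ B : List Bool → Prop,
    ∑ i ∈ Finset.range (n + 1), 2 ^ (n - i) * cnt i B < 2 ^ n →
    ∃ w : List Bool, w.length = n ∧ ∀ p, p <+: w → ¬ B p := by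
  classical
  induction n with
  | zero =>
    intro B h
    refine ⟨[], rfl, ?_⟩
    intro p hp hB
    have hp' : p = [] := List.prefix_nil.1 hp
    subst hp'
    rw [Finset.sum_range_one, cnt_zero, if_pos hB] at h
    simp at h
  | succ n ih =>
    intro B h
    rw [Finset.sum_range_succ'] at h
    have h0 : ¬ B [] := by
      intro hB
      rw [cnt_zero, if_pos hB] at h
      simp at h
    have h1 : ∑ i ∈ Finset.range (n + 1), 2 ^ (n + 1 - (i + 1)) * cnt (i + 1) B =
        ∑ i ∈ Finset.range (n + 1), 2 ^ (n - i) * cnt i (fun w => B (false :: w)) +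
        ∑ i ∈ Finset.range (n + 1), 2 ^ (n - i) * cnt i (fun w => B (true :: w)) := by
      rw [← Finset.sum_add_distrib]
      refine Finset.sum_congr rfl fun i _ => ?_
      rw [cnt_succ, Nat.add_sub_add_right]
      ring
    rw [h1, pow_succ] at h
    have hcase : ∑ i ∈ Finset.range (n + 1), 2 ^ (n - i) * cnt i (fun w => B (false :: w)) < 2 ^ n ∨
        ∑ i ∈ Finset.range (n + 1), 2 ^ (n - i) * cnt i (fun w => B (true :: w)) < 2 ^ n := by
      by_contra hcon
      push Not at hcon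
      omega
    have hfin : ∀ b : Bool, (∃ w : List Bool, w.length = n ∧ ∀ p, p <+: w → ¬ B (b :: p)) →
        ∃ w : List Bool, w.length = n + 1 ∧ ∀ p, p <+: w → ¬ B p := by
      rintro b ⟨w, hw, hp⟩
      refine ⟨b :: w, by simp [hw], ?_⟩
      intro p hpw
      rcases p with _ | ⟨a, p⟩
      · exact h0
      · rw [List.cons_prefix_cons] at hpw
        rw [hpw.1]
        exact hp p hpw.2
    rcases hcase with hc | hc
    · exact hfin false (ih _ hc)
    · exact hfin true (ih _ hc)

theorem growth (C k : ℕ) : ∃ n0, ∀ n ≥ n0, C * (n + k) ^ 2 ≤ 2 ^ n := by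
  have h1 : Filter.Tendsto (fun n : ℕ => ((n : ℝ) ^ 2 / 2 ^ n)) Filter.atTop (nhds 0) :=
    tendsto_pow_const_div_const_pow_of_one_lt 2 (by norm_num)
  have h2 : Filter.Tendsto (fun n : ℕ => (((n + k : ℕ) : ℝ) ^ 2 / 2 ^ (n + k))) Filter.atTop
      (nhds 0) := h1.comp (Filter.tendsto_add_atTop_nat k)
  have h3 : ∀ᶠ n : ℕ in Filter.atTop, (((n + k : ℕ) : ℝ) ^ 2 / 2 ^ (n + k)) <
      1 / ((C + 1) * 2 ^ k) := h2.eventually_lt_const (by positivity)
  obtain ⟨n0, hn0⟩ := Filter.eventually_atTop.1 h3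
  refine ⟨n0, fun n hn => ?_⟩
  have h4 := hn0 n hn
  rw [div_lt_div_iff₀ (by positivity) (by positivity), one_mul, pow_add] at h4
  have h5 : (((n + k : ℕ) : ℝ) ^ 2 * (C + 1)) < 2 ^ n := by
    have h6 : (0 : ℝ) < 2 ^ k := by positivity
    nlinarith
  have h7 : ((n + k) ^ 2 * (C + 1) : ℕ) < 2 ^ n := by exact_mod_cast h5
  nlinarith [Nat.zero_le ((n + k) ^ 2)]

theorem tail_bound (M : ℕ) : ∃ i0, ∀ (n : ℕ) (c : ℕ → ℕ), (∀ i < i0, c i = 0) →
    (∀ i, c i ≤ M * (2 * i + 1) ^ 2) →
    4 * ∑ i ∈ Finset.range (n + 1), 2 ^ (n - i) * c i ≤ 2 ^ n := by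
  obtain ⟨i0, hi0⟩ := growth (4 * M * 34) 1
  refine ⟨i0, ?_⟩
  intro n c h0 hc
  have hrec : ∀ n, ∑ i ∈ Finset.range (n + 1 + 1), 2 ^ (n + 1 - i) * c i =
      2 * ∑ i ∈ Finset.range (n + 1), 2 ^ (n - i) * c i + c (n + 1) := by
    intro n
    rw [Finset.sum_range_succ, Finset.mul_sum]
    congr 1
    · refine Finset.sum_congr rfl fun i hi => ?_
      rw [Finset.mem_range] at hi
      rw [show n + 1 - i = (n - i) + 1 by omega, pow_succ]
      ring
    · simp
  have hsmall : ∀ n, n < i0 → ∑ i ∈ Finset.range (n + 1), 2 ^ (n - i) * c i = 0 := by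
    intro n hn
    refine Finset.sum_eq_zero fun i hi => ?_
    rw [Finset.mem_range] at hi
    rw [h0 i (by omega), mul_zero]
  have hbig : ∀ m, ∑ i ∈ Finset.range (i0 + m + 1), 2 ^ (i0 + m - i) * c i
      + M * (4 * (i0 + m + 1) ^ 2 + 12 * (i0 + m + 1) + 17) ≤
      2 ^ m * (M * (8 * i0 ^ 2 + 24 * i0 + 34)) := by
    intro m
    induction m with
    | zero =>
      have h1 : ∑ i ∈ Finset.range (i0 + 0 + 1), 2 ^ (i0 + 0 - i) * c i = c i0 := by
        rw [add_zero, Finset.sum_range_succ, Nat.sub_self, pow_zero, one_mul]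
        rw [Finset.sum_eq_zero, zero_add]
        intro i hi
        rw [Finset.mem_range] at hi
        rw [h0 i hi, mul_zero]
      rw [h1]
      have h2 := hc i0
      rw [pow_zero, one_mul, add_zero]
      nlinarith
    | succ m ih =>
      rw [show i0 + (m + 1) = i0 + m + 1 by ring, hrec]
      have h2 := hc (i0 + m + 1)
      have e : 2 ^ (m + 1) * (M * (8 * i0 ^ 2 + 24 * i0 + 34)) =
          2 * (2 ^ m * (M * (8 * i0 ^ 2 + 24 * i0 + 34))) := by ring
      rw [e]
      nlinarith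
  rcases lt_or_ge n i0 with h | h
  · rw [hsmall n h]; simp
  · obtain ⟨m, rfl⟩ := Nat.exists_eq_add_of_le h
    have h1 := hbig m
    have h2 := hi0 i0 le_rfl
    have h3 : 4 * (M * (8 * i0 ^ 2 + 24 * i0 + 34)) ≤ 2 ^ i0 := by
      refine le_trans ?_ h2
      nlinarith [Nat.zero_le (M * i0), Nat.zero_le (M * i0 ^ 2)]
    calc 4 * ∑ i ∈ Finset.range (i0 + m + 1), 2 ^ (i0 + m - i) * c i
        ≤ 4 * (2 ^ m * (M * (8 * i0 ^ 2 + 24 * i0 + 34))) := by omega
      _ = 2 ^ m * (4 * (M * (8 * i0 ^ 2 + 24 * i0 + 34))) := by ring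
      _ ≤ 2 ^ m * 2 ^ i0 := Nat.mul_le_mul_left _ h3
      _ = 2 ^ (i0 + m) := by rw [pow_add]; ring

namespace TreeSpace

variable {X P Y : Type*} {S : TreeSpace X P Y}

theorem cnt_le {M : ℕ} {N : Set X} (hN : S.Thin M N) (f : List Bool → X)
    (hf : Function.Injective f) (z : X) (n ρ : ℕ) (hd : ∀ w, w.length = n → S.d z (f w) ≤ ρ) :
    cnt n (fun w => f w ∈ N) ≤ M * (ρ + 1) ^ 2 := by
  classical
  obtain ⟨F, hF, hF'⟩ := exists_words n (fun w => f w ∈ N)
  rw [← hF, ← Finset.card_image_of_injective F hf]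
  refine hN z ρ _ ?_
  intro y hy
  obtain ⟨w, hw, rfl⟩ := Finset.mem_image.1 hy
  exact ⟨(hF' w hw).2, hd w (hF' w hw).1⟩

theorem cnt_zero_of {n : ℕ} {B : List Bool → Prop} (h : ∀ w, w.length = n → ¬ B w) :
    cnt n B = 0 := by
  obtain ⟨F, hF, hF'⟩ := exists_words n B
  rw [← hF, Finset.card_eq_zero, Finset.eq_empty_iff_forall_notMem]
  intro w hw
  exact h w (hF' w hw).1 (hF' w hw).2

/-- Choosing a binary word such that the two rays avoid `N` and finitely many far points
avoid `N'`. -/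
theorem select (S : TreeSpace X P Y) (M : ℕ) : ∃ R, ∀ (M' L : ℕ), ∃ n0, ∀ n ≥ n0,
    ∀ (N N' : Set X) (f1 f2 : List Bool → X) (h : ℕ → List Bool → X) (z : X),
    S.Thin M N → S.Thin M' N' → Function.Injective f1 → Function.Injective f2 →
    (∀ t, Function.Injective (h t)) → (∀ w, S.d (f1 []) (f1 w) ≤ 2 * w.length) →
    (∀ w, S.d (f2 []) (f2 w) ≤ 2 * w.length) →
    (∀ t ≤ L, ∀ w, S.d z (h t w) ≤ 2 * w.length + L) →
    f1 [] ∉ S.nbhd N R → f2 [] ∉ S.nbhd N R →
    ∃ w : List Bool, w.length = n ∧ (∀ p, p <+: w → f1 p ∉ N ∧ f2 p ∉ N) ∧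
      ∀ t ≤ L, h t w ∉ N' := by
  classical
  obtain ⟨i0, hi0⟩ := tail_bound M
  refine ⟨2 * i0, ?_⟩
  intro M' L
  obtain ⟨n0, hn0⟩ := growth (4 * ((L + 1) * M') * (2 + L) ^ 2) 1
  refine ⟨n0, ?_⟩
  intro n hn N N' f1 f2 h z hN hN' hf1 hf2 hh hd1 hd2 hdh hz1 hz2
  -- counts
  have hray : ∀ f : List Bool → X, Function.Injective f →
      (∀ w, S.d (f []) (f w) ≤ 2 * w.length) → f [] ∉ S.nbhd N (2 * i0) →
      4 * ∑ i ∈ Finset.range (n + 1), 2 ^ (n - i) * cnt i (fun w => f w ∈ N) ≤ 2 ^ n := by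
    intro f hf hd hz
    refine hi0 n _ ?_ ?_
    · intro i hi
      refine cnt_zero_of ?_
      intro w hw hwN
      refine hz ⟨f w, hwN, ?_⟩
      have := hd w
      omega
    · intro i
      refine cnt_le hN f hf (f []) i (2 * i) ?_
      intro w hw
      have := hd w
      rw [hw] at this
      exact this
  have hfar : ∀ m, m ≤ L + 1 → cnt n (fun w => ∃ t < m, h t w ∈ N') ≤
      m * (M' * (2 * n + L + 1) ^ 2) := by
    intro m
    induction m with
    | zero =>
      intro _
      rw [cnt_zero_of]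
      · simp
      · rintro w _ ⟨t, ht, _⟩
        omega
    | succ m ih =>
      intro hm
      have h1 := ih (by omega)
      have h2 : cnt n (fun w => h m w ∈ N') ≤ M' * (2 * n + L + 1) ^ 2 := by
        refine cnt_le hN' (h m) (hh m) z n (2 * n + L) ?_
        intro w hw
        have := hdh m (by omega) w
        rw [hw] at this
        exact this
      have h3 := cnt_or n (fun w => ∃ t < m, h t w ∈ N') (fun w => h m w ∈ N')
      have h4 : (fun w => ∃ t < m + 1, h t w ∈ N') =
          (fun w => (∃ t < m, h t w ∈ N') ∨ h m w ∈ N') := by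
        funext w
        apply propext
        constructor
        · rintro ⟨t, ht, hw⟩
          rcases Nat.lt_succ_iff_lt_or_eq.1 ht with h5 | h5
          · exact Or.inl ⟨t, h5, hw⟩
          · rw [h5] at hw
            exact Or.inr hw
        · rintro (⟨t, ht, hw⟩ | hw)
          · exact ⟨t, by omega, hw⟩
          · exact ⟨m, by omega, hw⟩
      rw [h4, Nat.succ_mul]
      omega
  have hfar' : 4 * cnt n (fun w => ∃ t < L + 1, h t w ∈ N') ≤ 2 ^ n := by
    have h1 := hfar (L + 1) le_rfl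
    have h2 := hn0 n hn
    have h3 : 2 * n + L + 1 ≤ (2 + L) * (n + 1) := by nlinarith
    have h4 : (2 * n + L + 1) ^ 2 ≤ ((2 + L) * (n + 1)) ^ 2 := Nat.pow_le_pow_left h3 2
    calc 4 * cnt n (fun w => ∃ t < L + 1, h t w ∈ N')
        ≤ 4 * ((L + 1) * (M' * (2 * n + L + 1) ^ 2)) := by omega
      _ ≤ 4 * ((L + 1) * (M' * ((2 + L) * (n + 1)) ^ 2)) := by gcongr
      _ = 4 * ((L + 1) * M') * (2 + L) ^ 2 * (n + 1) ^ 2 := by ring
      _ ≤ 2 ^ n := h2
  -- Kraft
  have hk := kraft n (fun w => (f1 w ∈ N ∨ f2 w ∈ N) ∨ (w.length = n ∧ ∃ t < L + 1, h t w ∈ N'))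
  have hsum : ∑ i ∈ Finset.range (n + 1), 2 ^ (n - i) * cnt i
      (fun w => (f1 w ∈ N ∨ f2 w ∈ N) ∨ (w.length = n ∧ ∃ t < L + 1, h t w ∈ N')) < 2 ^ n := by
    have h1 := hray f1 hf1 hd1 hz1
    have h2 := hray f2 hf2 hd2 hz2
    have h3 : ∑ i ∈ Finset.range (n + 1), 2 ^ (n - i) * cnt i
        (fun w => (w.length = n ∧ ∃ t < L + 1, h t w ∈ N')) ≤
        cnt n (fun w => ∃ t < L + 1, h t w ∈ N') := by
      rw [Finset.sum_range_succ, Finset.sum_eq_zero, zero_add, Nat.sub_self, pow_zero, one_mul]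
      · obtain ⟨F, hF, hF'⟩ := exists_words n (fun w => (w.length = n ∧ ∃ t < L + 1, h t w ∈ N'))
        have h6 := cnt_or n (fun w => (w.length = n ∧ ∃ t < L + 1, h t w ∈ N'))
          (fun w => ∃ t < L + 1, h t w ∈ N')
        -- monotonicity
        have hmono : ∀ (n : ℕ) (B B' : List Bool → Prop), (∀ w, B w → B' w) →
            cnt n B ≤ cnt n B' := by
          intro n
          induction n with
          | zero =>
            intro B B' hB
            rw [cnt_zero, cnt_zero]
            split_ifs with h7 h8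
            · exact le_rfl
            · exact absurd (hB _ h7) h8
            · omega
            · exact le_rfl
          | succ n ih =>
            intro B B' hB
            rw [cnt_succ, cnt_succ]
            exact Nat.add_le_add (ih _ _ fun w => hB _) (ih _ _ fun w => hB _)
        exact hmono n _ _ (fun w hw => hw.2)
      · intro i hi
        rw [Finset.mem_range] at hi
        rw [cnt_zero_of, mul_zero]
        rintro w hw ⟨h7, _⟩
        omega
    have h4 : ∑ i ∈ Finset.range (n + 1), 2 ^ (n - i) * cnt i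
        (fun w => (f1 w ∈ N ∨ f2 w ∈ N) ∨ (w.length = n ∧ ∃ t < L + 1, h t w ∈ N')) ≤
        ∑ i ∈ Finset.range (n + 1), 2 ^ (n - i) * cnt i (fun w => f1 w ∈ N) +
        ∑ i ∈ Finset.range (n + 1), 2 ^ (n - i) * cnt i (fun w => f2 w ∈ N) +
        ∑ i ∈ Finset.range (n + 1), 2 ^ (n - i) * cnt i
          (fun w => (w.length = n ∧ ∃ t < L + 1, h t w ∈ N')) := by
      rw [← Finset.sum_add_distrib, ← Finset.sum_add_distrib]
      refine Finset.sum_le_sum fun i _ => ?_
      rw [← mul_add, ← mul_add]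
      refine Nat.mul_le_mul_left _ ?_
      refine (cnt_or i _ _).trans ?_
      exact Nat.add_le_add_right (cnt_or i _ _) _
    have h5 : 0 < 2 ^ n := by positivity
    omega
  obtain ⟨w, hw, hp⟩ := hk hsum
  refine ⟨w, hw, ?_, ?_⟩
  · intro p hpw
    have := hp p hpw
    push Not at this
    exact ⟨this.1.1, this.1.2⟩
  · intro t ht hwt
    exact hp w (List.prefix_refl w) (Or.inr ⟨hw, t, by omega, hwt⟩)

end TreeSpace

end QI97
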