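import Pool.Agent.QI97.GPSpace
import Pool.Agent.QI97.Coarse

set_option maxSynthPendingDepth 3

namespace QI97

open SimpleGraph

namespace GP

variable {ι : Type*} {Γ : SimpleGraph ι} {n : ι → ℕ}

/-- The family of cyclic groups. -/
abbrev Z (n : ι → ℕ) : ι → Type := fun i => Multiplicative (ZMod (n i))

/-- The generator. -/
def gen (Γ : SimpleGraph ι) (n : ι → ℕ) (i : ι) : GraphProduct Γ (Z n) :=
  of Γ (Z n) i (Multiplicative.ofAdd 1)

theorem ofAdd_pow (m : ℕ) [NeZero m] (x : Multiplicative (ZMod m)) :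
    (Multiplicative.ofAdd (1 : ZMod m)) ^ (ZMod.val (Multiplicative.toAdd x)) = x := by
  rw [← ofAdd_nsmul, nsmul_eq_mul, mul_one, ZMod.natCast_val, ZMod.cast_id', id]
  rfl

/-- The homomorphism from a cyclic group. -/
def zhom {H : Type*} [Group H] (m : ℕ) [NeZero m] (h : H) (hm : h ^ m = 1) :
    Multiplicative (ZMod m) →* H where
  toFun x := h ^ (ZMod.val (Multiplicative.toAdd x))
  map_one' := by
    show h ^ (ZMod.val (0 : ZMod m)) = 1
    rw [ZMod.val_zero, pow_zero]
  map_mul' := by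
    intro x y
    show h ^ (ZMod.val (Multiplicative.toAdd x + Multiplicative.toAdd y)) = _
    rw [ZMod.val_add, ← pow_add, ← pow_eq_pow_mod _ hm]

theorem zhom_apply {H : Type*} [Group H] (m : ℕ) [NeZero m] (h : H) (hm : h ^ m = 1)
    (x : Multiplicative (ZMod m)) : zhom m h hm x = h ^ (ZMod.val (Multiplicative.toAdd x)) := rfl

/-- Homomorphisms out of graph products of cyclic groups. -/
noncomputable def homOf {H : Type*} [Group H] [∀ i, NeZero (n i)] (e : ι → H)
    (he : ∀ i, e i ^ n i = 1) (hc : ∀ i j, Γ.Adj i j → e i * e j = e j * e i) :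
    GraphProduct Γ (Z n) →* H :=
  lift (fun i => zhom (n i) (e i) (he i)) (by
    intro i j hij x y
    rw [zhom_apply, zhom_apply]
    have h1 : Commute (e i) (e j) := hc i j hij
    exact (Commute.pow_pow h1 _ _).eq)

theorem homOf_of {H : Type*} [Group H] [∀ i, NeZero (n i)] (e : ι → H)
    (he : ∀ i, e i ^ n i = 1) (hc : ∀ i j, Γ.Adj i j → e i * e j = e j * e i) (i : ι)
    (x : Z n i) : homOf (Γ := Γ) e he hc (of Γ (Z n) i x) =
      e i ^ (ZMod.val (Multiplicative.toAdd x)) := by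
  unfold homOf
  rw [lift_of, zhom_apply]

theorem homOf_gen {H : Type*} [Group H] [∀ i, NeZero (n i)] (e : ι → H)
    (he : ∀ i, e i ^ n i = 1) (hc : ∀ i j, Γ.Adj i j → e i * e j = e j * e i) (i : ι) :
    homOf (Γ := Γ) e he hc (gen Γ n i) = e i := by
  unfold gen
  rw [homOf_of]
  have : ZMod.val (1 : ZMod (n i)) = 1 % n i := by
    have h := ZMod.val_natCast (n i) 1
    rwa [Nat.cast_one] at h
  show e i ^ (ZMod.val (1 : ZMod (n i))) = e i
  rw [this, ← pow_eq_pow_mod _ (he i), pow_one]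

theorem of_eq_pow [∀ i, NeZero (n i)] (i : ι) (x : Z n i) :
    of Γ (Z n) i x = gen Γ n i ^ (ZMod.val (Multiplicative.toAdd x)) := by
  unfold gen
  rw [← _root_.map_pow, ofAdd_pow]

theorem gen_pow [∀ i, NeZero (n i)] (i : ι) : gen Γ n i ^ n i = 1 := by
  unfold gen
  rw [← _root_.map_pow, ← ofAdd_nsmul, nsmul_eq_mul, mul_one, ZMod.natCast_self]
  exact _root_.map_one _

theorem gen_mul_self [∀ i, NeZero (n i)] {i : ι} (h : n i = 2) :
    gen Γ n i * gen Γ n i = 1 := by
  have := gen_pow (Γ := Γ) (n := n) i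
  rwa [h, pow_two] at this

/-- letters of order two -/
theorem of_cases [∀ i, NeZero (n i)] {i : ι} (h : n i = 2) (x : Z n i) :
    of Γ (Z n) i x = 1 ∨ of Γ (Z n) i x = gen Γ n i := by
  rw [of_eq_pow]
  have h1 : ZMod.val (Multiplicative.toAdd x) < n i := ZMod.val_lt _
  have h2 : ZMod.val (Multiplicative.toAdd x) = 0 ∨ ZMod.val (Multiplicative.toAdd x) = 1 := by
    omega
  rcases h2 with h2 | h2
  · left; rw [h2, pow_zero]
  · right; rw [h2, pow_one]

open Classical in
/-- projection to a vertex group -/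
noncomputable def proj (Γ : SimpleGraph ι) (n : ι → ℕ) [∀ i, NeZero (n i)] (i : ι) :
    GraphProduct Γ (Z n) →* Z n i :=
  homOf (fun j => if j = i then Multiplicative.ofAdd (1 : ZMod (n i)) else 1) (by
    intro j
    split_ifs with h
    · rw [h, ← ofAdd_nsmul, nsmul_eq_mul, mul_one, ZMod.natCast_self]
      rfl
    · exact one_pow _) (by
    intro i j _
    exact mul_comm _ _)

theorem proj_of [∀ i, NeZero (n i)] (i : ι) (x : Z n i) : proj Γ n i (of Γ (Z n) i x) = x := by
  unfold proj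
  rw [homOf_of, if_pos rfl]
  exact ofAdd_pow (n i) x

theorem proj_of_ne [∀ i, NeZero (n i)] {i j : ι} (h : j ≠ i) (x : Z n j) :
    proj Γ n i (of Γ (Z n) j x) = 1 := by
  unfold proj
  rw [homOf_of, if_neg h, one_pow]

theorem of_injective [∀ i, NeZero (n i)] (i : ι) :
    Function.Injective (of Γ (Z n) i) := by
  intro x y h
  have := congrArg (proj Γ n i) h
  rwa [proj_of, proj_of] at this

theorem of_not_mem_sp [∀ i, NeZero (n i)] {i : ι} {U : Set ι} (h : i ∉ U) {x : Z n i}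
    (hx : of Γ (Z n) i x ∈ sp Γ (Z n) U) : x = 1 := by
  rw [mem_sp, ret_of_not_mem h] at hx
  exact of_injective (Γ := Γ) i (by rw [← hx, _root_.map_one])

/-! ### Infinite dihedral subgroups -/

open Classical in
/-- The action of a dihedral pair on the integers. -/
noncomputable def dih (Γ : SimpleGraph ι) (n : ι → ℕ) [∀ i, NeZero (n i)] {p q : ι}
    (hpq : ¬ Γ.Adj p q) (hne : p ≠ q) (hp : n p = 2) (hq : n q = 2) :
    GraphProduct Γ (Z n) →* Equiv.Perm ℤ :=
  homOf (fun i => if i = p then Equiv.neg ℤ else if i = q then Equiv.subLeft 1 else 1) (by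
    intro i
    by_cases h1 : i = p
    · rw [if_pos h1, h1, hp]
      ext x
      simp [pow_two]
    · by_cases h2 : i = q
      · rw [if_neg h1, if_pos h2, h2, hq]
        ext x
        simp [pow_two]
      · rw [if_neg h1, if_neg h2, one_pow]) (by
    intro i j hij
    by_cases hi : i = p
    · have hj1 : j ≠ p := by
        rintro rfl
        exact hij.ne hi
      have hj2 : j ≠ q := by
        rintro rfl
        rw [hi] at hij
        exact hpq hij
      rw [if_neg hj1, if_neg hj2, mul_one, one_mul]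
    · by_cases hi' : i = q
      · have hj1 : j ≠ p := by
          rintro rfl
          rw [hi'] at hij
          exact hpq hij.symm
        have hj2 : j ≠ q := by
          rintro rfl
          exact hij.ne hi'
        rw [if_neg hj1, if_neg hj2, mul_one, one_mul]
      · rw [if_neg hi, if_neg hi', mul_one, one_mul])

section dih

variable [∀ i, NeZero (n i)] {p q : ι} (hpq : ¬ Γ.Adj p q) (hne : p ≠ q) (hp : n p = 2)
  (hq : n q = 2)

theorem dih_p (x : ℤ) : dih Γ n hpq hne hp hq (gen Γ n p) x = -x := by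
  unfold dih
  rw [homOf_gen, if_pos rfl]
  rfl

theorem dih_q (x : ℤ) : dih Γ n hpq hne hp hq (gen Γ n q) x = 1 - x := by
  unfold dih
  rw [homOf_gen, if_neg hne.symm, if_pos rfl]
  rfl

theorem dih_pow (m : ℕ) (x : ℤ) :
    dih Γ n hpq hne hp hq ((gen Γ n p * gen Γ n q) ^ m) x = x - m := by
  induction m with
  | zero => rw [pow_zero, _root_.map_one]; simp
  | succ m ih =>
    rw [pow_succ', _root_.map_mul, Equiv.Perm.mul_apply, ih, _root_.map_mul,
      Equiv.Perm.mul_apply, dih_q, dih_p]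
    push_cast
    ring

end dih

/-- Powers of the product of a dihedral pair have unbounded norm. -/
theorem exists_large [Finite ι] [∀ i, NeZero (n i)] {p q : ι} (hpq : ¬ Γ.Adj p q) (hne : p ≠ q)
    (hp : n p = 2) (hq : n q = 2) (R : ℕ) :
    ∃ m : ℕ, R < nrm (letters Γ (Z n)) ((gen Γ n p * gen Γ n q) ^ m) := by
  by_contra hcon
  push Not at hcon
  have hinj : Function.Injective (fun m : ℕ => (gen Γ n p * gen Γ n q) ^ m) := by
    intro a b hab
    have h1 : dih Γ n hpq hne hp hq ((gen Γ n p * gen Γ n q) ^ a) 0 =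
        dih Γ n hpq hne hp hq ((gen Γ n p * gen Γ n q) ^ b) 0 := by
      have hab' : (gen Γ n p * gen Γ n q) ^ a = (gen Γ n p * gen Γ n q) ^ b := hab
      rw [hab']
    rw [dih_pow, dih_pow] at h1
    omega
  have hfin : {g : GraphProduct Γ (Z n) | nrm (letters Γ (Z n)) g ≤ R}.Finite :=
    finite_ball goodGen letters_finite R
  exact Set.infinite_range_of_injective hinj (hfin.subset (by
    rintro _ ⟨m, rfl⟩
    exact hcon m))

theorem gen_mem_sp {U : Set ι} {i : ι} (h : i ∈ U) : gen Γ n i ∈ sp Γ (Z n) U := of_mem_sp h _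

theorem sp_empty {G : ι → Type*} [∀ i, Group (G i)] {x : GraphProduct Γ G}
    (h : x ∈ sp Γ G ∅) : x = 1 := by
  refine sp_induction (P := fun x => x = 1) rfl ?_ h
  intro x _ i hi
  exact absurd hi (Set.notMem_empty i)

theorem sp_single {G : ι → Type*} [∀ i, Group (G i)] {i : ι} {x : GraphProduct Γ G}
    (h : x ∈ sp Γ G {i}) : ∃ y, x = of Γ G i y := by
  refine sp_induction (P := fun x => ∃ y, x = of Γ G i y) ⟨1, (_root_.map_one _).symm⟩ ?_ h
  rintro x _ j hj g ⟨y, rfl⟩
  have : j = i := hj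
  subst this
  exact ⟨y * g, (_root_.map_mul _ _ _).symm⟩

/-- A special subgroup containing a dihedral pair is not coarsely contained in a coset of
a special subgroup not containing the pair. -/
theorem not_coarse [Finite ι] [∀ i, NeZero (n i)] {p q : ι} (hpq : ¬ Γ.Adj p q) (hne : p ≠ q)
    (hp : n p = 2) (hq : n q = 2) {K K' : Set ι} (hpK : p ∈ K) (hqK : q ∈ K)
    (hK' : ¬ (p ∈ K' ∧ q ∈ K')) (g g' : GraphProduct Γ (Z n)) (r : ℕ) :
    ¬ ∀ x ∈ sp Γ (Z n) K, ∃ k ∈ sp Γ (Z n) K',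
      dst (letters Γ (Z n)) (g * x) (g' * k) ≤ r := by
  intro hcon
  set ρ := ret Γ (Z n) {p, q} with hρ
  obtain ⟨m, hm⟩ := exists_large hpq hne hp hq (nrm (letters Γ (Z n)) (ρ g) + nrm (letters Γ (Z n)) (ρ g') + 1 + r)
  have hx : (gen Γ n p * gen Γ n q) ^ m ∈ sp Γ (Z n) K :=
    Subgroup.pow_mem _ (Subgroup.mul_mem _ (gen_mem_sp hpK) (gen_mem_sp hqK)) m
  have hx' : (gen Γ n p * gen Γ n q) ^ m ∈ sp Γ (Z n) {p, q} :=
    Subgroup.pow_mem _ (Subgroup.mul_mem _ (gen_mem_sp (by simp)) (gen_mem_sp (by simp))) m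
  obtain ⟨k, hk, hd⟩ := hcon _ hx
  have h1 := dst_ret {p, q} (g * (gen Γ n p * gen Γ n q) ^ m) (g' * k)
  rw [_root_.map_mul, _root_.map_mul, mem_sp.1 hx'] at h1
  -- ret k is a letter
  have h2 : nrm (letters Γ (Z n)) (ρ k) ≤ 1 := by
    have h3 : ρ k ∈ sp Γ (Z n) ({p, q} ∩ K') := by
      have h4 := ret_mem_sp (Γ := Γ) (G := Z n) ({p, q} ∩ K') k
      rw [← ret_ret, mem_sp.1 hk] at h4
      exact h4
    by_cases hpK' : p ∈ K'
    · have hqK' : q ∉ K' := fun h => hK' ⟨hpK', h⟩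
      have h5 : ({p, q} ∩ K' : Set ι) = {p} := by
        ext i
        constructor
        · rintro ⟨h6 | h6, h7⟩
          · exact h6
          · have h6' : i = q := h6
            rw [h6'] at h7
            exact absurd h7 hqK'
        · intro h6
          have h6' : i = p := h6
          subst h6'
          exact ⟨by simp, hpK'⟩
      rw [h5] at h3
      obtain ⟨y, hy⟩ := sp_single h3
      rw [hy]
      exact goodGen.nrm_letter (Or.inr ⟨_, _, rfl⟩)
    · have h5 : ({p, q} ∩ K' : Set ι) ⊆ {q} := by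
        rintro i ⟨h6 | h6, h7⟩
        · have h6' : i = p := h6
          rw [h6'] at h7
          exact absurd h7 hpK'
        · exact h6
      obtain ⟨y, hy⟩ := sp_single (sp_mono h5 h3)
      rw [hy]
      exact goodGen.nrm_letter (Or.inr ⟨_, _, rfl⟩)
  have h6 : nrm (letters Γ (Z n)) ((gen Γ n p * gen Γ n q) ^ m) ≤ nrm (letters Γ (Z n)) (ρ g) + nrm (letters Γ (Z n)) (ρ g') + 1 + r := by
    have e : (gen Γ n p * gen Γ n q) ^ m =
        (ρ g)⁻¹ * ((ρ g' * ρ k) * ((ρ g * (gen Γ n p * gen Γ n q) ^ m)⁻¹ * (ρ g' * ρ k))⁻¹) := by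
      group
    have h7 := goodGen.nrm_mul (L := letters Γ (Z n)) (ρ g)⁻¹
      ((ρ g' * ρ k) * ((ρ g * (gen Γ n p * gen Γ n q) ^ m)⁻¹ * (ρ g' * ρ k))⁻¹)
    rw [← e] at h7
    have h8 := goodGen.nrm_mul (L := letters Γ (Z n)) (ρ g' * ρ k)
      ((ρ g * (gen Γ n p * gen Γ n q) ^ m)⁻¹ * (ρ g' * ρ k))⁻¹
    have h9 := goodGen.nrm_mul (L := letters Γ (Z n)) (ρ g') (ρ k)
    have h10 := goodGen.nrm_inv (L := letters Γ (Z n)) (ρ g)
    have h11 := goodGen.nrm_inv (L := letters Γ (Z n))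
      ((ρ g * (gen Γ n p * gen Γ n q) ^ m)⁻¹ * (ρ g' * ρ k))
    have h12 : nrm (letters Γ (Z n)) ((ρ g * (gen Γ n p * gen Γ n q) ^ m)⁻¹ * (ρ g' * ρ k)) ≤ r :=
      le_trans h1 hd
    omega
  omega

end GP

end QI97
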