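import Mathlib.GroupTheory.CoprodI
import Mathlib.GroupTheory.QuotientGroup.Basic
import Mathlib.Combinatorics.SimpleGraph.Basic
import Mathlib.Algebra.Group.Pointwise.Set.Basic
import Mathlib.Data.ZMod.Basic
import Mathlib.Data.Real.Basic

set_option maxSynthPendingDepth 3

/-!
# Graph products, right-angled Coxeter groups, quasi-isometry

The definitions used in the statement of the result on MP_97dbbf_al.
-/

namespace QI97

open scoped Pointwise

/-- The relators of a graph product: all commutators `g h g⁻¹ h⁻¹` of an element `g` of a vertex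
group `G u` with an element `h` of a vertex group `G v`, for `u` and `v` adjacent in `Γ`. -/
def graphRels {ι : Type*} (Γ : SimpleGraph ι) (G : ι → Type*) [∀ i, Group (G i)] :
    Set (Monoid.CoprodI G) :=
  {x | ∃ (u v : ι) (g : G u) (h : G v), Γ.Adj u v ∧
    x = Monoid.CoprodI.of g * Monoid.CoprodI.of h *
      (Monoid.CoprodI.of g)⁻¹ * (Monoid.CoprodI.of h)⁻¹}

/-- The graph product of the groups `G v` over the simple graph `Γ`: the quotient of the free
product of the groups `G v` by the normal subgroup generated by the relators. -/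
def GraphProduct {ι : Type*} (Γ : SimpleGraph ι) (G : ι → Type*) [∀ i, Group (G i)] : Type _ :=
  Monoid.CoprodI G ⧸ Subgroup.normalClosure (graphRels Γ G)

instance {ι : Type*} (Γ : SimpleGraph ι) (G : ι → Type*) [∀ i, Group (G i)] :
    Group (GraphProduct Γ G) :=
  inferInstanceAs (Group (Monoid.CoprodI G ⧸ Subgroup.normalClosure (graphRels Γ G)))

/-- The right-angled Coxeter group of a simple graph: all vertex groups are `ℤ/2`. -/
abbrev RACG {ι : Type*} (Γ : SimpleGraph ι) : Type _ :=
  GraphProduct Γ (fun _ : ι => Multiplicative (ZMod 2))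

/-- Word length of `g` with respect to the set `S`: the least `n` such that `g` is a product of
`n` elements of `S ∪ S⁻¹`. -/
noncomputable def wordLength {G : Type*} [Group G] (S : Set G) (g : G) : ℕ :=
  sInf {n | g ∈ (S ∪ S⁻¹) ^ n}

/-- Two groups are quasi-isometric if for some finite generating sets there is a
quasi-isometry between them for the word metrics `d (x, y) = wordLength (x⁻¹ * y)`. -/
def QuasiIsometric (G H : Type*) [Group G] [Group H] : Prop :=
  ∃ (S : Finset G) (T : Finset H), Subgroup.closure (S : Set G) = ⊤ ∧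
    Subgroup.closure (T : Set H) = ⊤ ∧
    ∃ (f : G → H) (K C : ℝ), 1 ≤ K ∧ 0 ≤ C ∧
      (∀ x y : G,
        (wordLength (S : Set G) (x⁻¹ * y) : ℝ) / K - C ≤ wordLength (T : Set H) ((f x)⁻¹ * f y) ∧
        (wordLength (T : Set H) ((f x)⁻¹ * f y) : ℝ) ≤
          K * wordLength (S : Set G) (x⁻¹ * y) + C) ∧
      (∀ z : H, ∃ x : G, (wordLength (T : Set H) ((f x)⁻¹ * z) : ℝ) ≤ C)

end QI97
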