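import Pool.Agent.QI97.Gen
import Pool.Agent.QI97.Count

set_option maxSynthPendingDepth 3

namespace QI97

open SimpleGraph Relation

namespace Ex

/-- The vertices: `inl (s, i)` with `s` the side and `i : Fin 3` the vertices of `K₃₃`, and two
extra vertices `inr false`, `inr true`. -/
abbrev Ix : Type := (Bool × Fin 3) ⊕ Bool

/-- adjacency -/
def adj0 : Ix → Ix → Bool
  | Sum.inl (s, _), Sum.inl (t, _) => s != t
  | Sum.inl (_, i), Sum.inr c => i != (if c then 0 else 2)
  | Sum.inr c, Sum.inl (_, i) => i != (if c then 0 else 2)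
  | Sum.inr _, Sum.inr _ => false

/-- The graph. -/
def Γ0 : SimpleGraph Ix where
  Adj a b := adj0 a b = true
  symm := ⟨by decide⟩
  loopless := ⟨by decide⟩

/-- Orders of the vertex groups. -/
def ord0 : Ix → ℕ
  | Sum.inl _ => 2
  | Sum.inr false => 3
  | Sum.inr true => 5

instance : DecidableRel Γ0.Adj := fun a b => inferInstanceAs (Decidable (adj0 a b = true))

instance : ∀ i, NeZero (ord0 i)
  | Sum.inl _ => ⟨two_ne_zero⟩
  | Sum.inr false => ⟨three_ne_zero⟩
  | Sum.inr true => ⟨by show 5 ≠ 0; omega⟩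

theorem adj_iff {a b : Ix} : Γ0.Adj a b ↔ adj0 a b = true := Iff.rfl

/-- The special vertices. -/
def C0 : Set Ix := Set.range Sum.inr

/-- A side of `K₃₃`. -/
def side0 (s : Bool) : Set Ix := {x | ∃ i, x = Sum.inl (s, i)}

theorem hC0 : ∀ c ∈ C0, ∀ c' ∈ C0, ¬ Γ0.Adj c c' := by
  rintro _ ⟨c, rfl⟩ _ ⟨c', rfl⟩ h
  rw [adj_iff] at h
  simp [adj0] at h

/-- The tree space. -/
noncomputable abbrev S0 : TreeSpace (GraphProduct Γ0 (GP.Z ord0)) (GP.PV Γ0 (GP.Z ord0) C0)
    (GP.YV Γ0 (GP.Z ord0) C0) := GP.space Γ0 (GP.Z ord0) C0 hC0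

theorem side_join : ∀ i ∈ side0 false, ∀ j ∈ side0 true, Γ0.Adj i j := by
  rintro _ ⟨i, rfl⟩ _ ⟨j, rfl⟩
  rfl

theorem side_join' {s t : Bool} (h : s ≠ t) : ∀ i ∈ side0 s, ∀ j ∈ side0 t, Γ0.Adj i j := by
  rintro _ ⟨i, rfl⟩ _ ⟨j, rfl⟩
  rw [adj_iff]
  simp [adj0, h]

theorem compl_C0 : C0ᶜ = side0 false ∪ side0 true := by
  ext x
  rcases x with ⟨s, i⟩ | c
  · constructor
    · intro _
      cases s
      · exact Or.inl ⟨i, rfl⟩
      · exact Or.inr ⟨i, rfl⟩
    · rintro _ ⟨c, hc⟩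
      cases hc
  · constructor
    · intro h
      exact absurd ⟨c, rfl⟩ h
    · rintro (⟨i, hi⟩ | ⟨i, hi⟩)
      · cases hi
      · cases hi

theorem side_sub (s : Bool) : side0 s ⊆ C0ᶜ := by
  rw [compl_C0]
  cases s
  · exact Set.subset_union_left
  · exact Set.subset_union_right

/-! ### Free monoids -/

/-- The involutions of `ℤ²`. -/
def inv0 : Fin 3 → ℤ × ℤ → ℤ × ℤ
  | 0, (x, y) => (x, -y)
  | 1, (x, y) => (x + y, -y)
  | 2, (x, y) => (x, -x - y)

theorem inv0_inv (i : Fin 3) : Function.Involutive (inv0 i) := by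
  rintro ⟨x, y⟩
  fin_cases i
  · simp [inv0]
  · simp [inv0]
  · simp [inv0]

/-- The images of the generators. -/
def mu0 (s : Bool) : Ix → Equiv.Perm (ℤ × ℤ)
  | Sum.inl (t, i) => if t = s then (inv0_inv i).toPerm else 1
  | Sum.inr _ => 1

theorem mu0_pow (s : Bool) (i : Ix) : mu0 s i ^ ord0 i = 1 := by
  rcases i with ⟨t, i⟩ | c
  · show (if t = s then (inv0_inv i).toPerm else 1) ^ 2 = 1
    split_ifs
    · ext1 p
      rw [pow_two, Equiv.Perm.mul_apply]
      show inv0 i (inv0 i p) = p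
      exact inv0_inv i p
    · exact one_pow _
  · exact one_pow _

theorem mu0_comm (s : Bool) (i j : Ix) (h : Γ0.Adj i j) : mu0 s i * mu0 s j = mu0 s j * mu0 s i := by
  rcases i with ⟨t, i⟩ | c
  · rcases j with ⟨t', j⟩ | c'
    · have htt : t ≠ t' := by
        rw [adj_iff] at h
        simpa [adj0] using h
      show (if t = s then (inv0_inv i).toPerm else 1) * (if t' = s then (inv0_inv j).toPerm else 1) =
        (if t' = s then (inv0_inv j).toPerm else 1) * (if t = s then (inv0_inv i).toPerm else 1)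
      by_cases h1 : t = s
      · have h2 : t' ≠ s := fun h2 => htt (h1.trans h2.symm)
        rw [if_neg h2, mul_one, one_mul]
      · rw [if_neg h1, mul_one, one_mul]
    · exact (mul_one _).trans (one_mul _).symm
  · exact (one_mul _).trans (mul_one _).symm

/-- The linear action of one side. -/
noncomputable def mu (s : Bool) : GraphProduct Γ0 (GP.Z ord0) →* Equiv.Perm (ℤ × ℤ) :=
  GP.homOf (mu0 s) (mu0_pow s) (mu0_comm s)

theorem mu_gen (s : Bool) (i : Fin 3) (p : ℤ × ℤ) :
    mu s (GP.gen Γ0 ord0 (Sum.inl (s, i))) p = inv0 i p := by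
  unfold mu
  rw [GP.homOf_gen]
  show (if s = s then (inv0_inv i).toPerm else 1) p = _
  rw [if_pos rfl]
  rfl

/-- The generators of the free monoid. -/
noncomputable def α (s b : Bool) : GraphProduct Γ0 (GP.Z ord0) :=
  GP.gen Γ0 ord0 (Sum.inl (s, 0)) * GP.gen Γ0 ord0 (Sum.inl (s, if b then 2 else 1))

theorem mu_α (s b : Bool) (p : ℤ × ℤ) :
    mu s (α s b) p = if b then (p.1, p.1 + p.2) else (p.1 + p.2, p.2) := by
  unfold α
  rw [_root_.map_mul, Equiv.Perm.mul_apply, mu_gen, mu_gen]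
  obtain ⟨x, y⟩ := p
  cases b
  · simp [inv0]
  · simp [inv0, add_comm]

/-- The image of a binary word. -/
noncomputable def φ (s : Bool) : List Bool → GraphProduct Γ0 (GP.Z ord0)
  | [] => 1
  | b :: w => α s b * φ s w

theorem mu_φ_pos (s : Bool) (w : List Bool) :
    0 < (mu s (φ s w) (1, 1)).1 ∧ 0 < (mu s (φ s w) (1, 1)).2 := by
  induction w with
  | nil =>
    show 0 < (mu s 1 (1, 1)).1 ∧ 0 < (mu s 1 (1, 1)).2
    rw [_root_.map_one]
    exact ⟨one_pos, one_pos⟩
  | cons b w ih =>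
    show 0 < (mu s (α s b * φ s w) (1, 1)).1 ∧ 0 < (mu s (α s b * φ s w) (1, 1)).2
    rw [_root_.map_mul, Equiv.Perm.mul_apply, mu_α]
    obtain ⟨h1, h2⟩ := ih
    cases b
    · simp only [Bool.false_eq_true, if_false]
      exact ⟨by omega, h2⟩
    · simp only [if_true]
      exact ⟨h1, by omega⟩

theorem φ_injective (s : Bool) : Function.Injective (φ s) := by
  have hmul : ∀ b w, mu s (φ s (b :: w)) (1, 1) =
      if b then ((mu s (φ s w) (1, 1)).1, (mu s (φ s w) (1, 1)).1 + (mu s (φ s w) (1, 1)).2)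
      else ((mu s (φ s w) (1, 1)).1 + (mu s (φ s w) (1, 1)).2, (mu s (φ s w) (1, 1)).2) := by
    intro b w
    show mu s (α s b * φ s w) (1, 1) = _
    rw [_root_.map_mul, Equiv.Perm.mul_apply, mu_α]
  have hnil : mu s (φ s []) (1, 1) = (1, 1) := by
    show mu s 1 (1, 1) = _
    rw [_root_.map_one]
    rfl
  have key : ∀ w w' : List Bool, mu s (φ s w) (1, 1) = mu s (φ s w') (1, 1) → w = w' := by
    intro w
    induction w with
    | nil =>
      intro w' h
      cases w' with
      | nil => rfl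
      | cons b w' =>
        exfalso
        obtain ⟨h1, h2⟩ := mu_φ_pos s w'
        rw [hnil, hmul] at h
        cases b
        · simp only [Bool.false_eq_true, if_false] at h
          have e1 := congrArg Prod.fst h
          have e2 := congrArg Prod.snd h
          simp only at e1 e2
          omega
        · simp only [if_true] at h
          have e1 := congrArg Prod.fst h
          have e2 := congrArg Prod.snd h
          simp only at e1 e2
          omega
    | cons a w ih =>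
      intro w' h
      obtain ⟨g1, g2⟩ := mu_φ_pos s w
      cases w' with
      | nil =>
        exfalso
        rw [hnil, hmul] at h
        cases a
        · simp only [Bool.false_eq_true, if_false] at h
          have e1 := congrArg Prod.fst h
          have e2 := congrArg Prod.snd h
          simp only at e1 e2
          omega
        · simp only [if_true] at h
          have e1 := congrArg Prod.fst h
          have e2 := congrArg Prod.snd h
          simp only at e1 e2
          omega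
      | cons b w' =>
        obtain ⟨h1, h2⟩ := mu_φ_pos s w'
        rw [hmul, hmul] at h
        cases a <;> cases b
        · simp only [Bool.false_eq_true, if_false] at h
          have e1 := congrArg Prod.fst h
          have e2 := congrArg Prod.snd h
          simp only at e1 e2
          rw [ih w' (Prod.ext (by omega) e2)]
        · exfalso
          simp only [Bool.false_eq_true, if_false, if_true] at h
          have e1 := congrArg Prod.fst h
          have e2 := congrArg Prod.snd h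
          simp only at e1 e2
          omega
        · exfalso
          simp only [Bool.false_eq_true, if_false, if_true] at h
          have e1 := congrArg Prod.fst h
          have e2 := congrArg Prod.snd h
          simp only at e1 e2
          omega
        · simp only [if_true] at h
          have e1 := congrArg Prod.fst h
          have e2 := congrArg Prod.snd h
          simp only at e1 e2
          rw [ih w' (Prod.ext e1 (by omega))]
  intro w w' h
  exact key w w' (by rw [h])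

theorem α_mem (s b : Bool) : α s b ∈ GP.sp Γ0 (GP.Z ord0) (side0 s) :=
  Subgroup.mul_mem _ (GP.gen_mem_sp ⟨_, rfl⟩) (GP.gen_mem_sp ⟨_, rfl⟩)

theorem φ_mem (s : Bool) (w : List Bool) : φ s w ∈ GP.sp Γ0 (GP.Z ord0) (side0 s) := by
  induction w with
  | nil => exact Subgroup.one_mem _
  | cons b w ih => exact Subgroup.mul_mem _ (α_mem s b) ih

theorem nrm_α (s b : Bool) : nrm (GP.letters Γ0 (GP.Z ord0)) (α s b) ≤ 2 := by
  have h1 := (GP.goodGen (Γ := Γ0) (G := GP.Z ord0)).nrm_mul (GP.gen Γ0 ord0 (Sum.inl (s, 0)))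
    (GP.gen Γ0 ord0 (Sum.inl (s, if b then 2 else 1)))
  have h2 : ∀ i, nrm (GP.letters Γ0 (GP.Z ord0)) (GP.gen Γ0 ord0 i) ≤ 1 :=
    fun i => GP.goodGen.nrm_letter (Or.inr ⟨i, _, rfl⟩)
  have h3 := h2 (Sum.inl (s, 0))
  have h4 := h2 (Sum.inl (s, if b then 2 else 1))
  show nrm _ (GP.gen Γ0 ord0 (Sum.inl (s, 0)) * GP.gen Γ0 ord0 (Sum.inl (s, if b then 2 else 1))) ≤ 2
  omega

theorem nrm_φ (s : Bool) (w : List Bool) :
    nrm (GP.letters Γ0 (GP.Z ord0)) (φ s w) ≤ 2 * w.length := by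
  induction w with
  | nil =>
    show nrm (GP.letters Γ0 (GP.Z ord0)) 1 ≤ 0
    rw [GP.goodGen.nrm_one]
  | cons b w ih =>
    have h1 := (GP.goodGen (Γ := Γ0) (G := GP.Z ord0)).nrm_mul (α s b) (φ s w)
    have h2 := nrm_α s b
    show nrm _ (α s b * φ s w) ≤ _
    rw [List.length_cons]
    omega

/-- Paths in special subgroups. -/
theorem exists_path (U : Set Ix) {h : GraphProduct Γ0 (GP.Z ord0)}
    (hh : h ∈ GP.sp Γ0 (GP.Z ord0) U) : ∃ (L : ℕ) (β : ℕ → GraphProduct Γ0 (GP.Z ord0)),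
      β 0 = 1 ∧ (∀ t ≥ L, β t = h) ∧ (∀ t, β t ∈ GP.sp Γ0 (GP.Z ord0) U) ∧
      (∀ t, dst (GP.letters Γ0 (GP.Z ord0)) (β t) (β (t + 1)) ≤ 1) ∧
      (∀ t, nrm (GP.letters Γ0 (GP.Z ord0)) (β t) ≤ L) := by
  refine GP.sp_induction (P := fun h => ∃ (L : ℕ) (β : ℕ → GraphProduct Γ0 (GP.Z ord0)),
      β 0 = 1 ∧ (∀ t ≥ L, β t = h) ∧ (∀ t, β t ∈ GP.sp Γ0 (GP.Z ord0) U) ∧
      (∀ t, dst (GP.letters Γ0 (GP.Z ord0)) (β t) (β (t + 1)) ≤ 1) ∧
      (∀ t, nrm (GP.letters Γ0 (GP.Z ord0)) (β t) ≤ L)) ?_ ?_ hh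
  · refine ⟨0, fun _ => 1, rfl, fun _ _ => rfl, fun _ => Subgroup.one_mem _, fun t => ?_,
      fun t => ?_⟩
    · rw [GP.goodGen.dst_self]; omega
    · rw [GP.goodGen.nrm_one]
  · rintro h hh i hi g ⟨L, β, h0, hL, hm, hd, hn⟩
    refine ⟨L + 1, fun t => if t ≤ L then β t else h * GP.of Γ0 (GP.Z ord0) i g, ?_, ?_, ?_, ?_, ?_⟩
    · show (if 0 ≤ L then β 0 else _) = 1
      rw [if_pos (Nat.zero_le _), h0]
    · intro t ht
      show (if t ≤ L then β t else _) = _
      rw [if_neg (by omega)]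
    · intro t
      show (if t ≤ L then β t else _) ∈ _
      split_ifs
      · exact hm t
      · exact Subgroup.mul_mem _ hh (GP.of_mem_sp hi g)
    · intro t
      show dst _ (if t ≤ L then β t else _) (if t + 1 ≤ L then β (t + 1) else _) ≤ 1
      by_cases h1 : t + 1 ≤ L
      · rw [if_pos h1, if_pos (by omega)]
        exact hd t
      · rw [if_neg h1]
        by_cases h2 : t ≤ L
        · rw [if_pos h2, hL t (by omega)]
          unfold dst
          rw [inv_mul_cancel_left]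
          exact GP.goodGen.nrm_letter (Or.inr ⟨i, g, rfl⟩)
        · rw [if_neg h2, GP.goodGen.dst_self]
          omega
    · intro t
      show nrm _ (if t ≤ L then β t else _) ≤ L + 1
      split_ifs
      · have := hn t
        omega
      · have h1 := (GP.goodGen (Γ := Γ0) (G := GP.Z ord0)).nrm_mul h (GP.of Γ0 (GP.Z ord0) i g)
        have h2 : nrm (GP.letters Γ0 (GP.Z ord0)) (GP.of Γ0 (GP.Z ord0) i g) ≤ 1 :=
          GP.goodGen.nrm_letter (Or.inr ⟨i, g, rfl⟩)
        have h3 := hn L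
        rw [hL L le_rfl] at h3
        omega

/-- The chain relation in a `P`-coset avoiding `N`. -/
def Rel (N : Set (GraphProduct Γ0 (GP.Z ord0))) (u : GP.PV Γ0 (GP.Z ord0) C0)
    (a b : GraphProduct Γ0 (GP.Z ord0)) : Prop :=
  S0.d a b ≤ 2 ∧ a ∉ N ∧ b ∉ N ∧ S0.π a = u ∧ S0.π b = u

theorem Rel.symm {N : Set (GraphProduct Γ0 (GP.Z ord0))} {u : GP.PV Γ0 (GP.Z ord0) C0}
    {a b : GraphProduct Γ0 (GP.Z ord0)} (h : Rel N u a b) : Rel N u b a :=
  ⟨by rw [S0.d_comm]; exact h.1, h.2.2.1, h.2.1, h.2.2.2.2, h.2.2.2.1⟩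

theorem rtg_symm {N : Set (GraphProduct Γ0 (GP.Z ord0))} {u : GP.PV Γ0 (GP.Z ord0) C0}
    {a b : GraphProduct Γ0 (GP.Z ord0)} (h : ReflTransGen (Rel N u) a b) :
    ReflTransGen (Rel N u) b a := by
  induction h with
  | refl => exact ReflTransGen.refl
  | tail _ h2 ih => exact ReflTransGen.head h2.symm ih

theorem π_mul {x h : GraphProduct Γ0 (GP.Z ord0)} (hh : h ∈ GP.sp Γ0 (GP.Z ord0) C0ᶜ) :
    S0.π (x * h) = S0.π x := by
  show (QuotientGroup.mk (x * h) : GP.PV Γ0 (GP.Z ord0) C0) = QuotientGroup.mk x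
  symm
  rw [QuotientGroup.eq, inv_mul_cancel_left]
  exact hh

theorem d_mul (x g h : GraphProduct Γ0 (GP.Z ord0)) : S0.d (x * g) (x * h) = S0.d g h :=
  dst_mul_left _ _ _ _

theorem d_one (x h : GraphProduct Γ0 (GP.Z ord0)) :
    S0.d x (x * h) = nrm (GP.letters Γ0 (GP.Z ord0)) h := by
  show dst _ x (x * h) = _
  unfold dst
  rw [inv_mul_cancel_left]

theorem ray_chain (s : Bool) {N : Set (GraphProduct Γ0 (GP.Z ord0))}
    {u : GP.PV Γ0 (GP.Z ord0) C0} (w : List Bool) : ∀ x : GraphProduct Γ0 (GP.Z ord0),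
    S0.π x = u → (∀ p, p <+: w → x * φ s p ∉ N) → ReflTransGen (Rel N u) x (x * φ s w) := by
  induction w with
  | nil =>
    intro x _ _
    show ReflTransGen _ x (x * 1)
    rw [mul_one]
  | cons b w ih =>
    intro x hx hp
    have h0 := hp [] (List.nil_prefix)
    have h0' : x ∉ N := by
      have e : x * φ s [] = x := mul_one x
      rwa [e] at h0
    have h1 : x * α s b ∉ N := by
      have h2 := hp [b] (by rw [List.cons_prefix_cons]; exact ⟨rfl, List.nil_prefix⟩)
      have e : φ s [b] = α s b := mul_one _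
      rwa [e] at h2
    have hπ : S0.π (x * α s b) = u := by
      rw [π_mul (GP.sp_mono (side_sub s) (α_mem s b)), hx]
    have h2 := ih (x * α s b) hπ (by
      intro p hpw
      have h3 := hp (b :: p) (by rw [List.cons_prefix_cons]; exact ⟨rfl, hpw⟩)
      have e : x * φ s (b :: p) = x * α s b * φ s p := (mul_assoc _ _ _).symm
      rwa [e] at h3)
    have e : x * φ s (b :: w) = x * α s b * φ s w := (mul_assoc _ _ _).symm
    rw [e]
    refine ReflTransGen.head ⟨?_, h0', h1, hx, hπ⟩ h2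
    rw [d_one]
    exact nrm_α s b

theorem path_chain {N : Set (GraphProduct Γ0 (GP.Z ord0))}
    {u : GP.PV Γ0 (GP.Z ord0) C0} {U : Set Ix} (hU : U ⊆ C0ᶜ) (β : ℕ → GraphProduct Γ0 (GP.Z ord0))
    (h0 : β 0 = 1) (hm : ∀ t, β t ∈ GP.sp Γ0 (GP.Z ord0) U)
    (hd : ∀ t, dst (GP.letters Γ0 (GP.Z ord0)) (β t) (β (t + 1)) ≤ 1)
    (x : GraphProduct Γ0 (GP.Z ord0)) (hx : S0.π x = u) (L : ℕ) :
    (∀ t ≤ L, x * β t ∉ N) → ReflTransGen (Rel N u) x (x * β L) := by
  induction L with
  | zero =>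
    intro _
    rw [h0, mul_one]
  | succ L ih =>
    intro h
    refine (ih fun t ht => h t (by omega)).tail ⟨?_, h L (by omega), h (L + 1) le_rfl, ?_, ?_⟩
    · rw [d_mul]
      have := hd L
      show dst _ _ _ ≤ 2
      omega
    · rw [π_mul (GP.sp_mono hU (hm L)), hx]
    · rw [π_mul (GP.sp_mono hU (hm _)), hx]

theorem sides_comm {a b : GraphProduct Γ0 (GP.Z ord0)} (ha : a ∈ GP.sp Γ0 (GP.Z ord0) (side0 false))
    (hb : b ∈ GP.sp Γ0 (GP.Z ord0) (side0 true)) : a * b = b * a := by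
  have h1 : ∀ i ∈ side0 false, ∀ (y : GP.Z ord0 i), ∀ z ∈ GP.sp Γ0 (GP.Z ord0) (side0 true),
      z * GP.of Γ0 (GP.Z ord0) i y = GP.of Γ0 (GP.Z ord0) i y * z := by
    intro i hi y z hz
    refine GP.sp_induction (P := fun z => z * GP.of Γ0 (GP.Z ord0) i y =
      GP.of Γ0 (GP.Z ord0) i y * z) (by simp) ?_ hz
    intro z _ j hj g ih
    rw [mul_assoc, GP.of_comm (side_join i hi j hj).symm, ← mul_assoc, ih, mul_assoc]
  refine GP.sp_induction (P := fun a => a * b = b * a) (by simp) ?_ ha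
  intro a _ i hi g ih
  rw [mul_assoc, ← h1 i hi g b hb, ← mul_assoc, ih, mul_assoc]

theorem inj_mul (s : Bool) (x h : GraphProduct Γ0 (GP.Z ord0)) :
    Function.Injective (fun w => x * φ s w * h) := by
  intro w w' hw
  have hw' : x * φ s w * h = x * φ s w' * h := hw
  exact φ_injective s (mul_left_cancel (mul_right_cancel hw'))

theorem ball0 : ∀ ρ, ∃ B, ∀ (x : GraphProduct Γ0 (GP.Z ord0))
    (F : Finset (GraphProduct Γ0 (GP.Z ord0))), (∀ y ∈ F, S0.d x y ≤ ρ) → F.card ≤ B :=
  fun ρ => GP.ball_gen ρ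

/-- Thin sets do not separate `P`-cosets. -/
theorem ns0 (M : ℕ) : ∃ R, ∀ N u, S0.Thin M N → ∀ x y, S0.π x = u → S0.π y = u →
    x ∉ S0.nbhd N R → y ∉ S0.nbhd N R → ReflTransGen (Rel N u) x y := by
  obtain ⟨R, hR⟩ := TreeSpace.select S0 M
  obtain ⟨M', hM'⟩ := TreeSpace.thin_nbhd' (S := S0) ball0 M R
  refine ⟨R, ?_⟩
  intro N u hN x y hx hy hxN hyN
  have hNsub : ∀ z, z ∉ S0.nbhd N R → z ∉ N := by
    intro z hz hzN
    exact hz ⟨z, hzN, by rw [S0.d_self]; omega⟩
  -- decomposition of x⁻¹ y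
  have hp : x⁻¹ * y ∈ GP.sp Γ0 (GP.Z ord0) (side0 false ∪ side0 true) := by
    rw [← compl_C0]
    exact QuotientGroup.eq.1 (hx.trans hy.symm)
  have hdec := GP.join_decomp side_join hp
  set pA := GP.ret Γ0 (GP.Z ord0) (side0 false) (x⁻¹ * y) with hpA
  set pB := GP.ret Γ0 (GP.Z ord0) (side0 true) (x⁻¹ * y) with hpB
  have hpAm : pA ∈ GP.sp Γ0 (GP.Z ord0) (side0 false) := GP.ret_mem_sp _ _
  have hpBm : pB ∈ GP.sp Γ0 (GP.Z ord0) (side0 true) := GP.ret_mem_sp _ _
  obtain ⟨L, β, hβ0, hβL, hβm, hβd, hβn⟩ := exists_path (side0 true) hpBm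
  obtain ⟨n, hn⟩ := hR M' L
  obtain ⟨w, _, hw1, hw2⟩ := hn n le_rfl N (S0.nbhd N R) (fun w => x * φ false w)
    (fun w => x * φ false w) (fun t w => x * φ false w * β t) x hN (hM' N hN)
    (by have := inj_mul false x 1; simpa only [mul_one] using this)
    (by have := inj_mul false x 1; simpa only [mul_one] using this)
    (fun t => inj_mul false x (β t))
    (by
      intro w
      show S0.d (x * 1) (x * φ false w) ≤ _
      rw [mul_one, d_one]
      exact nrm_φ false w)
    (by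
      intro w
      show S0.d (x * 1) (x * φ false w) ≤ _
      rw [mul_one, d_one]
      exact nrm_φ false w)
    (by
      intro t _ w
      show S0.d x (x * φ false w * β t) ≤ _
      rw [mul_assoc, d_one]
      have h1 := (GP.goodGen (Γ := Γ0) (G := GP.Z ord0)).nrm_mul (φ false w) (β t)
      have h2 := nrm_φ false w
      have h3 := hβn t
      omega)
    (by
      show x * 1 ∉ _
      rw [mul_one]
      exact hxN)
    (by
      show x * 1 ∉ _
      rw [mul_one]
      exact hxN)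
  have hφA : φ false w ∈ GP.sp Γ0 (GP.Z ord0) (side0 false) := φ_mem false w
  have hπ1 : S0.π (x * φ false w) = u := by
    rw [π_mul (GP.sp_mono (side_sub _) hφA), hx]
  set z := x * φ false w * pB with hz
  have hπz : S0.π z = u := by
    rw [hz, π_mul (GP.sp_mono (side_sub _) hpBm), hπ1]
  have hzN : z ∉ S0.nbhd N R := by
    have := hw2 L le_rfl
    rw [hβL L le_rfl] at this
    exact this
  have c1 : ReflTransGen (Rel N u) x (x * φ false w) :=
    ray_chain false w x hx (fun p hp => (hw1 p hp).1)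
  have c2 : ReflTransGen (Rel N u) (x * φ false w) z := by
    have := path_chain (N := N) (side_sub true) β hβ0 hβm hβd (x * φ false w) hπ1 L
      (fun t ht => hNsub _ (hw2 t ht))
    rw [hβL L le_rfl] at this
    exact this
  -- second selection
  have hq : (φ false w)⁻¹ * pA ∈ GP.sp Γ0 (GP.Z ord0) (side0 false) :=
    Subgroup.mul_mem _ (Subgroup.inv_mem _ hφA) hpAm
  obtain ⟨L', γ, hγ0, hγL, hγm, hγd, hγn⟩ := exists_path (side0 false) hq
  obtain ⟨m, hm⟩ := hR M L'
  obtain ⟨w', _, hw1', hw2'⟩ := hm m le_rfl N N (fun w => z * φ true w)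
    (fun w => y * φ true w) (fun t w => z * φ true w * γ t) z hN hN
    (by have := inj_mul true z 1; simpa only [mul_one] using this)
    (by have := inj_mul true y 1; simpa only [mul_one] using this)
    (fun t => inj_mul true z (γ t))
    (by
      intro w
      show S0.d (z * 1) (z * φ true w) ≤ _
      rw [mul_one, d_one]
      exact nrm_φ true w)
    (by
      intro w
      show S0.d (y * 1) (y * φ true w) ≤ _
      rw [mul_one, d_one]
      exact nrm_φ true w)
    (by
      intro t _ w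
      show S0.d z (z * φ true w * γ t) ≤ _
      rw [mul_assoc, d_one]
      have h1 := (GP.goodGen (Γ := Γ0) (G := GP.Z ord0)).nrm_mul (φ true w) (γ t)
      have h2 := nrm_φ true w
      have h3 := hγn t
      omega)
    (by
      show z * 1 ∉ _
      rw [mul_one]
      exact hzN)
    (by
      show y * 1 ∉ _
      rw [mul_one]
      exact hyN)
  have hφB : φ true w' ∈ GP.sp Γ0 (GP.Z ord0) (side0 true) := φ_mem true w'
  have hπ3 : S0.π (z * φ true w') = u := by
    rw [π_mul (GP.sp_mono (side_sub _) hφB), hπz]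
  have c3 : ReflTransGen (Rel N u) z (z * φ true w') :=
    ray_chain true w' z hπz (fun p hp => (hw1' p hp).1)
  have c5 : ReflTransGen (Rel N u) y (y * φ true w') :=
    ray_chain true w' y hy (fun p hp => (hw1' p hp).2)
  have c4 : ReflTransGen (Rel N u) (z * φ true w') (z * φ true w' * ((φ false w)⁻¹ * pA)) := by
    have := path_chain (N := N) (side_sub false) γ hγ0 hγm hγd (z * φ true w') hπ3 L' hw2'
    rw [hγL L' le_rfl] at this
    exact this
  have e : z * φ true w' * ((φ false w)⁻¹ * pA) = y * φ true w' := by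
    have e1 : y = x * (pA * pB) := by rw [← hdec, mul_inv_cancel_left]
    have e2 := sides_comm hq (Subgroup.mul_mem _ hpBm hφB)
    have e3 : z * φ true w' * ((φ false w)⁻¹ * pA) =
        x * φ false w * ((pB * φ true w') * ((φ false w)⁻¹ * pA)) := by
      rw [hz]; group
    rw [e3, ← e2, e1]
    group
  rw [e] at c4
  exact (((c1.trans c2).trans c3).trans c4).trans (rtg_symm c5)

theorem nonthin0 (M : ℕ) (N : Set (GraphProduct Γ0 (GP.Z ord0))) (u : GP.PV Γ0 (GP.Z ord0) C0)
    (hN : S0.Thin M N) : ∃ x, S0.π x = u ∧ x ∉ N := by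
  obtain ⟨g, hg⟩ := S0.surj u
  obtain ⟨R, hR⟩ := TreeSpace.select S0 0
  obtain ⟨n, hn⟩ := hR M 0
  have hemp : S0.Thin 0 ∅ := by
    intro x ρ F hF
    rcases F.eq_empty_or_nonempty with h | ⟨y, hy⟩
    · rw [h]; simp
    · exact absurd (hF y hy).1 (Set.notMem_empty _)
  have hd : ∀ w, S0.d (g * φ false []) (g * φ false w) ≤ 2 * w.length := by
    intro w
    show S0.d (g * 1) (g * φ false w) ≤ _
    rw [mul_one, d_one]
    exact nrm_φ false w
  have hinj : Function.Injective (fun w => g * φ false w) := by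
    have := inj_mul false g 1
    simpa only [mul_one] using this
  obtain ⟨w, _, _, hw⟩ := hn n le_rfl ∅ N (fun w => g * φ false w) (fun w => g * φ false w)
    (fun _ w => g * φ false w) g hemp hN hinj hinj (fun _ => hinj) hd hd
    (by
      intro t _ w
      rw [d_one]
      have := nrm_φ false w
      omega)
    (by
      rintro ⟨y, hy, _⟩
      exact hy)
    (by
      rintro ⟨y, hy, _⟩
      exact hy)
  exact ⟨g * φ false w, by rw [π_mul (GP.sp_mono (side_sub _) (φ_mem _ _)), hg], hw 0 le_rfl⟩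

/-- The side of a vertex (arbitrary for the special vertices). -/
def sd : Ix → Bool
  | Sum.inl (s, _) => s
  | Sum.inr _ => false

/-- The combinatorial conditions on the graph. -/
theorem cond0 : ∀ c ∈ C0, ∀ z, z ∉ GP.star Γ0 c → ∃ p q, p ∈ GP.star Γ0 c ∧ q ∈ GP.star Γ0 c ∧
    ¬ Γ0.Adj p q ∧ p ≠ q ∧ ord0 p = 2 ∧ ord0 q = 2 ∧
    ¬ (p ∈ GP.star Γ0 z ∧ q ∈ GP.star Γ0 z) := by
  have key : ∀ c : Bool, ∀ z : Ix, ¬ (z = Sum.inr c ∨ adj0 (Sum.inr c) z = true) →
      (((Sum.inl (sd z, if c then 2 else 0) : Ix) = Sum.inr c ∨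
          adj0 (Sum.inr c) (Sum.inl (sd z, if c then 2 else 0)) = true) ∧
        ((Sum.inl (sd z, 1) : Ix) = Sum.inr c ∨ adj0 (Sum.inr c) (Sum.inl (sd z, 1)) = true) ∧
        ¬ (adj0 (Sum.inl (sd z, if c then 2 else 0)) (Sum.inl (sd z, 1)) = true) ∧
        (Sum.inl (sd z, if c then 2 else 0) : Ix) ≠ Sum.inl (sd z, 1) ∧
        ¬ (((Sum.inl (sd z, if c then 2 else 0) : Ix) = z ∨
            adj0 z (Sum.inl (sd z, if c then 2 else 0)) = true) ∧
          ((Sum.inl (sd z, 1) : Ix) = z ∨ adj0 z (Sum.inl (sd z, 1)) = true))) := by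
    decide
  rintro _ ⟨c, rfl⟩ z hz
  obtain ⟨h1, h2, h3, h4, h5⟩ := key c z hz
  exact ⟨_, _, h1, h2, h3, h4, rfl, rfl, h5⟩

theorem cond1 : ∀ c ∈ C0, ord0 c ≤ 5 ∧ ∃ p q p' q', ord0 p = 2 ∧ ord0 q = 2 ∧ ord0 p' = 2 ∧
    ord0 q' = 2 ∧ GP.lk Γ0 c = {p, q} ∪ {p', q'} ∧
    ∀ i ∈ ({p, q} : Set Ix), ∀ j ∈ ({p', q'} : Set Ix), Γ0.Adj i j := by
  rintro _ ⟨c, rfl⟩
  refine ⟨by cases c <;> decide, ?_⟩
  refine ⟨Sum.inl (false, if c then 1 else 0), Sum.inl (false, if c then 2 else 1),
    Sum.inl (true, if c then 1 else 0), Sum.inl (true, if c then 2 else 1), rfl, rfl, rfl, rfl,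
    ?_, ?_⟩
  · ext i
    have key : ∀ c : Bool, ∀ i : Ix, adj0 (Sum.inr c) i = true ↔
        ((i = Sum.inl (false, if c then 1 else 0) ∨ i = Sum.inl (false, if c then 2 else 1)) ∨
          (i = Sum.inl (true, if c then 1 else 0) ∨ i = Sum.inl (true, if c then 2 else 1))) := by
      decide
    exact key c i
  · rintro i (hi | hi) j (hj | hj)
    · rw [hi, hj]; exact adj_iff.2 rfl
    · rw [hi, hj]; exact adj_iff.2 rfl
    · rw [hi, hj]; exact adj_iff.2 rfl
    · rw [hi, hj]; exact adj_iff.2 rfl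

/-- Rigidity of the example. -/
theorem rigid0 : S0.Rigid where
  ball := ball0
  thin := ⟨16 * 5, GP.thin_gen hC0 5 cond1⟩
  fin_pts := GP.fin_pts_gen hC0
  nonthin := nonthin0
  ns := ns0
  not_near := fun v v' r h => GP.not_near_gen hC0 cond0 v v' r h
  two := by
    intro v
    have h1 := GP.valence hC0 v
    have h2 : 1 < {u : GP.PV Γ0 (GP.Z ord0) C0 | GP.padj u v}.ncard := by
      rw [h1]
      obtain ⟨⟨_, c, rfl⟩, a⟩ := v
      cases c
      · show 1 < 3
        omega
      · show 1 < 5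
        omega
    obtain ⟨u, u', hu, hu', hne⟩ := (Set.one_lt_ncard_iff (Set.finite_of_ncard_pos (by omega))).1 h2
    exact ⟨u, u', hne, hu, hu'⟩
  pts_ne := by
    rintro ⟨c, a⟩
    obtain ⟨g, rfl⟩ := QuotientGroup.mk_surjective a
    exact ⟨g, rfl⟩

end Ex

end QI97
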