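import Pool.Agent.QI97.Split
import Pool.Agent.QI97.Example
import Mathlib.GroupTheory.Perm.Cycle.Type

set_option maxSynthPendingDepth 3

namespace QI97

open SimpleGraph Relation

open scoped Pointwise

open GP Ex

theorem ncard_neighbor {V W : Type*} [Group W] [MulAction W V] {T : SimpleGraph V}
    (hA : ActsOn W T) (w : W) (a : V) : (T.neighborSet (w • a)).ncard = (T.neighborSet a).ncard := by
  have h : T.neighborSet (w • a) = (fun x => w • x) '' T.neighborSet a := by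
    ext b
    constructor
    · intro hb
      refine ⟨w⁻¹ • b, ?_, smul_inv_smul w b⟩
      have := hA w⁻¹ _ _ hb
      rwa [inv_smul_smul] at this
    · rintro ⟨c, hc, rfl⟩
      exact hA w _ _ hc
  rw [h, Set.ncard_image_of_injective _ (MulAction.injective w)]

theorem ncard_inr (v : YV Γ0 (Z ord0) C0) : (S0.T.neighborSet (Sum.inr v)).ncard = ord0 v.1.1 := by
  have h : S0.T.neighborSet (Sum.inr v) = Sum.inl '' {u : PV Γ0 (Z ord0) C0 | padj u v} := by
    ext b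
    constructor
    · intro hb
      rcases b with u | v'
      · have hb' : S0.T.Adj (Sum.inr v) (Sum.inl u) := hb
        have hb'' : padj u v := bip_rl.1 hb'
        exact ⟨u, hb'', rfl⟩
      · exact absurd hb bip_rr
    · rintro ⟨u, hu, rfl⟩
      exact bip_rl.2 hu
  rw [h, Set.ncard_image_of_injective _ Sum.inl_injective]
  exact valence hC0 v

/-- The Coxeter group is generated by its generators. -/
theorem closure_gen {κ : Type*} (Δ : SimpleGraph κ) :
    Subgroup.closure (Set.range (fun s => gen Δ (fun _ : κ => 2) s)) = ⊤ := by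
  rw [eq_top_iff]
  rintro x -
  induction x using GP.induction with
  | h1 => exact Subgroup.one_mem _
  | h2 x i g hx =>
    refine Subgroup.mul_mem _ hx ?_
    rcases of_cases (Γ := Δ) (n := fun _ : κ => 2) (i := i) rfl g with h | h
    · rw [h]; exact Subgroup.one_mem _
    · rw [h]; exact Subgroup.subset_closure ⟨i, rfl⟩

/-- There is no quasi-isometry. -/
theorem no_qi_data {κ : Type*} [Finite κ] (Δ : SimpleGraph κ) (D : QIData S0 Δ) : False := by
  classical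
  have : Fintype κ := Fintype.ofFinite κ
  have hS := rigid0
  obtain ⟨inst, R, hP, hY, hAct, hfin⟩ := TreeSpace.CoarseAction.exists_action (A := D.action) hS
  have hT := S0.isTree
  have hleft : ∀ (w : RACG Δ) (x : PV Γ0 (Z ord0) C0 ⊕ YV Γ0 (Z ord0) C0),
      (w • x).isLeft = x.isLeft := by
    rintro w (u | v)
    · obtain ⟨u', hu', _⟩ := hP w u
      rw [hu']; rfl
    · obtain ⟨v', hv', _⟩ := hY w v
      rw [hv']; rfl
  have hev : ∀ (w : RACG Δ) (x : PV Γ0 (Z ord0) C0 ⊕ YV Γ0 (Z ord0) C0),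
      Even (S0.T.dist x (w • x)) := fun w x => bip_even hT _ _ (hleft w x).symm
  set γ : κ → RACG Δ := fun s => gen Δ (fun _ : κ => 2) s with hγ
  have hγ2 : ∀ s, γ s * γ s = 1 := fun s => gen_mul_self (Γ := Δ) (n := fun _ : κ => 2) (i := s) rfl
  have hgen : Subgroup.closure (Set.range γ) = ⊤ := closure_gen Δ
  obtain ⟨pt⟩ := hT.1.nonempty
  have hfix : ∀ s, ∃ x : PV Γ0 (Z ord0) C0 ⊕ YV Γ0 (Z ord0) C0, γ s • x = x := by
    intro s
    obtain ⟨x, hx, _⟩ := common_fixed hT hAct hev (hγ2 s) (hγ2 s) rfl pt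
    exact ⟨x, hx⟩
  -- two neighbours of `P`-vertices of different types
  have htypes : ∀ u : PV Γ0 (Z ord0) C0, ∃ v v' : YV Γ0 (Z ord0) C0, padj u v ∧ padj u v' ∧
      ord0 v.1.1 ≠ ord0 v'.1.1 := by
    intro u
    obtain ⟨g, rfl⟩ := QuotientGroup.mk_surjective u
    refine ⟨yv ⟨Sum.inr false, false, rfl⟩ g, yv ⟨Sum.inr true, true, rfl⟩ g, padj_mk _ _,
      padj_mk _ _, ?_⟩
    show 3 ≠ 5
    omega
  have hleafless : ∀ x y : PV Γ0 (Z ord0) C0 ⊕ YV Γ0 (Z ord0) C0, S0.T.Adj x y →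
      ∃ z, S0.T.Adj x z ∧ z ≠ y := by
    rintro (u | v) y hxy
    · obtain ⟨v, v', h1, h2, h3⟩ := htypes u
      by_cases hy : Sum.inr v = y
      · refine ⟨Sum.inr v', bip_lr.2 h2, ?_⟩
        rintro rfl
        have := Sum.inr_injective hy
        rw [this] at h3
        exact h3 rfl
      · exact ⟨Sum.inr v, bip_lr.2 h1, hy⟩
    · obtain ⟨u, u', hne, h1, h2⟩ := hS.two v
      by_cases hy : Sum.inl u = y
      · refine ⟨Sum.inl u', bip_rl.2 h2, ?_⟩
        rintro rfl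
        exact hne (Sum.inl_injective hy)
      · exact ⟨Sum.inl u, bip_rl.2 h1, hy⟩
  have hnb : ∀ x : PV Γ0 (Z ord0) C0 ⊕ YV Γ0 (Z ord0) C0, ∃ y, S0.T.Adj x y := by
    rintro (u | v)
    · obtain ⟨v, _, h1, _⟩ := htypes u
      exact ⟨_, bip_lr.2 h1⟩
    · obtain ⟨u, _, _, h1, _⟩ := hS.two v
      exact ⟨_, bip_rl.2 h1⟩
  obtain ⟨z, hz⟩ := exists_leaf hT hAct hev (Set.range γ) hgen
    (by rintro _ ⟨s, rfl⟩; exact hfix s) hfin hnb
  rcases z with u | v
  · -- a `P`-vertex cannot be a leaf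
    obtain ⟨v, v', h1, h2, h3⟩ := htypes u
    obtain ⟨w, _, hw⟩ := hz _ _ (bip_lr.2 h1) (bip_lr.2 h2)
    have h4 := ncard_neighbor hAct w (Sum.inr v : PV Γ0 (Z ord0) C0 ⊕ YV Γ0 (Z ord0) C0)
    rw [hw, ncard_inr, ncard_inr] at h4
    exact h3 h4.symm
  · obtain ⟨u0, u0', hne0, hu0, hu0'⟩ := hS.two v
    have hκ : Nonempty κ := by
      by_contra hemp
      have hemp' : IsEmpty κ := not_nonempty_iff.1 hemp
      obtain ⟨w, _, hw⟩ := hz _ _ (bip_rl.2 hu0) (bip_rl.2 hu0')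
      have hw1 : w = 1 := by
        have : w ∈ Subgroup.closure (Set.range γ) := by rw [hgen]; exact Subgroup.mem_top w
        rw [Set.range_eq_empty, Subgroup.closure_empty] at this
        exact Subgroup.mem_bot.1 this
      rw [hw1, one_smul] at hw
      exact hne0 (Sum.inl_injective hw)
    obtain ⟨x, hx, hxmin⟩ := exists_min_fixed (T := S0.T) γ hfix
    obtain ⟨w0, s0, t0, hs0, ht0⟩ := exists_translate hT hAct γ hgen x hx hleafless hfin
      (bip_lr.2 hu0 : S0.T.Adj (Sum.inl u0) (Sum.inr v))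
    obtain ⟨u1, hu1, _⟩ := hP w0 u0
    obtain ⟨v1, hv1, _⟩ := hY w0 v
    rw [hu1, hv1] at hs0 ht0
    have hpq : S0.T.Adj (Sum.inl u1) (Sum.inr v1) := by
      have := hAct w0 _ _ (bip_lr.2 hu0 : S0.T.Adj (Sum.inl u0) (Sum.inr v))
      rwa [hu1, hv1] at this
    -- transitivity at v1
    have htrans : ∀ u' : PV Γ0 (Z ord0) C0, padj u' v1 → ∃ w : RACG Δ,
        w • (Sum.inr v1 : PV Γ0 (Z ord0) C0 ⊕ YV Γ0 (Z ord0) C0) = Sum.inr v1 ∧
        w • (Sum.inl u1 : PV Γ0 (Z ord0) C0 ⊕ YV Γ0 (Z ord0) C0) = Sum.inl u' := by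
      intro u' hu'
      obtain ⟨u2, hu2, _⟩ := hP w0⁻¹ u'
      have h1 : S0.T.Adj (Sum.inr v) (Sum.inl u2) := by
        have := hAct w0⁻¹ _ _ (bip_rl.2 hu' : S0.T.Adj (Sum.inr v1) (Sum.inl u'))
        rwa [hu2, ← hv1, inv_smul_smul] at this
      obtain ⟨w, hw1, hw2⟩ := hz _ _ (bip_rl.2 hu0) h1
      refine ⟨w0 * w * w0⁻¹, ?_, ?_⟩
      · rw [mul_smul, mul_smul, ← hv1, inv_smul_smul, hw1]
      · rw [mul_smul, mul_smul, ← hu1, inv_smul_smul, hw2, ← hu2, smul_inv_smul]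
    set J : Set κ := {s | γ s • (Sum.inl u1 : PV Γ0 (Z ord0) C0 ⊕ YV Γ0 (Z ord0) C0) = Sum.inl u1 ∧
      γ s • (Sum.inr v1 : PV Γ0 (Z ord0) C0 ⊕ YV Γ0 (Z ord0) C0) = Sum.inr v1} with hJ
    obtain ⟨t1, ht1, ht1'⟩ := exists_side hT γ x hx hxmin hpq hs0 ht0
    obtain ⟨s1, hs1, hs1'⟩ := exists_side hT γ x hx hxmin hpq.symm ht0 hs0
    set C1 : Set κ := {s | s ∉ J ∧ S0.T.dist (x s) (Sum.inl u1) < S0.T.dist (x s) (Sum.inr v1)}
      with hC1
    have hsJ : s1 ∉ J := fun h => hs1 ⟨h.2, h.1⟩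
    have htJ : t1 ∉ J := fun h => ht1 h
    have hsC : s1 ∈ C1 := ⟨hsJ, hs1'⟩
    have htC : t1 ∉ C1 := by
      rintro ⟨_, h⟩
      omega
    have hsepC : ∀ i ∈ C1, ∀ j, Δ.Adj i j → j ∈ C1 ∨ j ∈ J := by
      rintro i ⟨hiJ, hi⟩ j hij
      by_cases hjJ : j ∈ J
      · exact Or.inr hjJ
      · left
        refine ⟨hjJ, ?_⟩
        have hcomm : γ i * γ j = γ j * γ i := of_comm hij _ _
        obtain ⟨y, hy1, hy2⟩ := common_fixed hT hAct hev (hγ2 i) (hγ2 j) hcomm pt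
        have h1 := fix_side hT hAct hpq hiJ (hx i) hy1 hi
        exact fix_side hT hAct hpq hjJ hy2 (hx j) h1
    have hspJ : ∀ j ∈ sp Δ (Z (fun _ : κ => 2)) J,
        j • (Sum.inl u1 : PV Γ0 (Z ord0) C0 ⊕ YV Γ0 (Z ord0) C0) = Sum.inl u1 ∧
        j • (Sum.inr v1 : PV Γ0 (Z ord0) C0 ⊕ YV Γ0 (Z ord0) C0) = Sum.inr v1 := by
      intro j hj
      refine sp_induction (P := fun j : RACG Δ =>
        j • (Sum.inl u1 : PV Γ0 (Z ord0) C0 ⊕ YV Γ0 (Z ord0) C0) = Sum.inl u1 ∧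
        j • (Sum.inr v1 : PV Γ0 (Z ord0) C0 ⊕ YV Γ0 (Z ord0) C0) = Sum.inr v1) ?_ ?_ hj
      · exact ⟨one_smul _ _, one_smul _ _⟩
      · intro y _ i hi g hy
        rcases of_cases (Γ := Δ) (n := fun _ : κ => 2) (i := i) rfl g with h | h
        · rw [h, mul_one]
          exact hy
        · rw [h]
          refine ⟨?_, ?_⟩
          · rw [mul_smul]
            have := hi.1
            rw [show gen Δ (fun _ : κ => 2) i = γ i from rfl, this]
            exact hy.1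
          · rw [mul_smul]
            have := hi.2
            rw [show gen Δ (fun _ : κ => 2) i = γ i from rfl, this]
            exact hy.2
    have hstab : ∀ w : RACG Δ,
        w • (Sum.inr v1 : PV Γ0 (Z ord0) C0 ⊕ YV Γ0 (Z ord0) C0) = Sum.inr v1 →
        ∀ x ∈ S0.pts v1, ∃ y ∈ S0.pts v1, S0.d (D.action.act w x) y ≤ R := by
      intro w hw
      obtain ⟨v', hv', h⟩ := hY w v1
      rw [hw] at hv'
      have := Sum.inr_injective hv'
      rw [← this] at h
      exact h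
    obtain ⟨r, hr⟩ := D.split hS hsepC hsC hsJ htC htJ v1 R
      (fun j hj => hstab j (hspJ j hj).2)
    -- the finite group
    let B0 : Subgroup (RACG Δ) := MulAction.stabilizer (RACG Δ)
      (Sum.inr v1 : PV Γ0 (Z ord0) C0 ⊕ YV Γ0 (Z ord0) C0) ⊓
      (ret Δ (Z (fun _ : κ => 2)) J).ker
    have hB0fin : (B0 : Set (RACG Δ)).Finite := by
      have hf : {g : RACG Δ | nrm (letters Δ (Z (fun _ : κ => 2))) g ≤ r}.Finite :=
        finite_ball goodGen letters_finite r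
      refine (hf.image (fun b => ret Δ (Z (fun _ : κ => 2)) J b * b⁻¹)).subset ?_
      rintro w ⟨hw1, hw2⟩
      obtain ⟨j, hj, hd⟩ := hr w (hstab w hw1)
      refine ⟨w⁻¹ * j, hd, ?_⟩
      show ret Δ (Z (fun _ : κ => 2)) J (w⁻¹ * j) * (w⁻¹ * j)⁻¹ = w
      have h1 : ret Δ (Z (fun _ : κ => 2)) J w = 1 := hw2
      rw [_root_.map_mul, _root_.map_inv, h1, mem_sp.1 hj]
      group
    have hfB : Finite B0 := hB0fin
    have horb : MulAction.orbit B0 (Sum.inl u1 : PV Γ0 (Z ord0) C0 ⊕ YV Γ0 (Z ord0) C0) =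
        S0.T.neighborSet (Sum.inr v1) := by
      ext a
      constructor
      · rintro ⟨⟨b, hb1, hb2⟩, rfl⟩
        show S0.T.Adj (Sum.inr v1) (b • Sum.inl u1)
        have hb1' : b • (Sum.inr v1 : PV Γ0 (Z ord0) C0 ⊕ YV Γ0 (Z ord0) C0) = Sum.inr v1 := hb1
        have := hAct b _ _ hpq.symm
        rwa [hb1'] at this
      · intro ha
        rcases a with u' | v'
        · obtain ⟨w, hw1, hw2⟩ := htrans u' (bip_rl.1 ha)
          have hj := hspJ _ (ret_mem_sp (Γ := Δ) (G := Z (fun _ : κ => 2)) J w)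
          have e1 : (w * (ret Δ (Z (fun _ : κ => 2)) J w)⁻¹) •
              (Sum.inr v1 : PV Γ0 (Z ord0) C0 ⊕ YV Γ0 (Z ord0) C0) = Sum.inr v1 := by
            rw [mul_smul, inv_smul_eq_iff.2 hj.2.symm, hw1]
          have e2 : ret Δ (Z (fun _ : κ => 2)) J (w * (ret Δ (Z (fun _ : κ => 2)) J w)⁻¹) = 1 := by
            rw [_root_.map_mul, _root_.map_inv, ret_ret, Set.inter_self, mul_inv_cancel]
          have e3 : (w * (ret Δ (Z (fun _ : κ => 2)) J w)⁻¹) •
              (Sum.inl u1 : PV Γ0 (Z ord0) C0 ⊕ YV Γ0 (Z ord0) C0) = Sum.inl u' := by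
            rw [mul_smul, inv_smul_eq_iff.2 hj.1.symm, hw2]
          exact ⟨⟨w * (ret Δ (Z (fun _ : κ => 2)) J w)⁻¹, e1, e2⟩, e3⟩
        · exact absurd ha bip_rr
    -- Cauchy
    have hcard : ord0 v1.1.1 ∣ Nat.card B0 := by
      have h1 := MulAction.index_stabilizer B0
        (Sum.inl u1 : PV Γ0 (Z ord0) C0 ⊕ YV Γ0 (Z ord0) C0)
      rw [horb, ncard_inr] at h1
      rw [← h1]
      exact Subgroup.index_dvd_card _
    have hprime : (ord0 v1.1.1).Prime ∧ Odd (ord0 v1.1.1) := by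
      obtain ⟨⟨_, c, rfl⟩, a⟩ := v1
      cases c
      · show Nat.Prime 3 ∧ Odd 3
        exact ⟨Nat.prime_three, by decide⟩
      · show Nat.Prime 5 ∧ Odd 5
        exact ⟨Nat.prime_five, by decide⟩
    have : Fact (ord0 v1.1.1).Prime := ⟨hprime.1⟩
    obtain ⟨b, hb⟩ := exists_prime_orderOf_dvd_card' (G := B0) (ord0 v1.1.1) hcard
    have hb1 : (b : RACG Δ) ^ (ord0 v1.1.1) = 1 := by
      rw [← Subgroup.coe_pow, ← hb, pow_orderOf_eq_one, Subgroup.coe_one]
    have hb2 := no_odd_torsion Δ (b : RACG Δ) hprime.2 hb1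
    have hb3 : b = 1 := Subtype.ext hb2
    rw [hb3, orderOf_one] at hb
    exact hprime.1.one_lt.ne hb

/-- Word length in terms of a set. -/
theorem wl_mul {G : Type*} [Group G] {S : Set G} (hS : Subgroup.closure S = ⊤) (g h : G) :
    wordLength S (g * h) ≤ wordLength S g + wordLength S h := by
  refine Nat.sInf_le ?_
  show g * h ∈ (S ∪ S⁻¹) ^ (wordLength S g + wordLength S h)
  rw [pow_add]
  exact Set.mul_mem_mul (Nat.sInf_mem (exists_mem_pow hS g)) (Nat.sInf_mem (exists_mem_pow hS h))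

theorem wl_one {G : Type*} [Group G] (S : Set G) : wordLength S (1 : G) = 0 := by
  have : wordLength S (1 : G) ≤ 0 := by
    refine Nat.sInf_le ?_
    show (1 : G) ∈ (S ∪ S⁻¹) ^ 0
    rw [pow_zero]
    rfl
  omega

theorem wl_le {G : Type*} [Group G] {S L : Set G} (hS : Subgroup.closure S = ⊤)
    (hL : GoodGen L) (hf : L.Finite) : ∃ C : ℕ, ∀ g, wordLength S g ≤ C * nrm L g := by
  obtain ⟨C, hC⟩ : ∃ C, ∀ s ∈ L, wordLength S s ≤ C := by
    obtain ⟨C, hC⟩ := (hf.image (wordLength S)).bddAbove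
    exact ⟨C, fun s hs => hC ⟨s, hs, rfl⟩⟩
  refine ⟨C, fun g => ?_⟩
  have key : ∀ n : ℕ, ∀ g, nrm L g ≤ n → wordLength S g ≤ C * n := by
    intro n
    induction n with
    | zero =>
      intro g hg
      rw [hL.eq_one_of_nrm (Nat.le_zero.1 hg), wl_one]
      omega
    | succ n ih =>
      intro g hg
      obtain ⟨s, hs, h, rfl, hh⟩ := hL.exists_split hg
      have h1 := wl_mul hS s h
      have h2 := ih h hh
      have h3 := hC s hs
      rw [Nat.mul_succ]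
      omega
  exact key _ g le_rfl

theorem le_wl {G : Type*} [Group G] (S : Finset G) {L : Set G}
    (hS : Subgroup.closure (S : Set G) = ⊤) (hL : GoodGen L) :
    ∃ C : ℕ, ∀ g, nrm L g ≤ C * wordLength (S : Set G) g :=
  nrm_le_mul hL (S.finite_toSet.union S.finite_toSet.inv) (exists_mem_pow hS)

/-- The example is not quasi-isometric to a right-angled Coxeter group. -/
theorem not_qi {κ : Type*} [Finite κ] (Δ : SimpleGraph κ) :
    ¬ QuasiIsometric (GraphProduct Γ0 (Z ord0)) (RACG Δ) := by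
  rintro ⟨S, T, hS, hT, f0, K, C, hK, hC, hqi, hsurj⟩
  obtain ⟨c1, hc1⟩ := le_wl S hS (goodGen (Γ := Γ0) (G := Z ord0))
  obtain ⟨c2, hc2⟩ := wl_le hS (goodGen (Γ := Γ0) (G := Z ord0)) letters_finite
  obtain ⟨c3, hc3⟩ := le_wl T hT (goodGen (Γ := Δ) (G := Z (fun _ : κ => 2)))
  obtain ⟨c4, hc4⟩ := wl_le hT (goodGen (Γ := Δ) (G := Z (fun _ : κ => 2))) letters_finite
  have hK0 : 0 < K := by linarith
  -- natural number constants
  obtain ⟨N, hN⟩ := exists_nat_ge (c1 * (K * c4) + c1 * (K * C) + c3 * (K * c2) + c3 * C)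
  have hp1 : (0 : ℝ) ≤ c1 * (K * c4) := by positivity
  have hp2 : (0 : ℝ) ≤ c1 * (K * C) := by positivity
  have hp3 : (0 : ℝ) ≤ c3 * (K * c2) := by positivity
  have hp4 : (0 : ℝ) ≤ c3 * C := by positivity
  have h1 : ∀ x y, dst (letters Γ0 (Z ord0)) x y ≤ N * dst (letters Δ (Z (fun _ : κ => 2))) (f0 x) (f0 y) + N := by
    intro x y
    have e1 : (dst (letters Γ0 (Z ord0)) x y : ℝ) ≤ c1 * wordLength (S : Set _) (x⁻¹ * y) := by
      exact_mod_cast hc1 (x⁻¹ * y)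
    have e2 := (hqi x y).1
    have e3 : (wordLength (T : Set (RACG Δ)) ((f0 x)⁻¹ * f0 y) : ℝ) ≤
        c4 * dst (letters Δ (Z (fun _ : κ => 2))) (f0 x) (f0 y) := by exact_mod_cast hc4 _
    have e4 : (wordLength (S : Set (GraphProduct Γ0 (Z ord0))) (x⁻¹ * y) : ℝ) ≤
        K * (c4 * dst (letters Δ (Z (fun _ : κ => 2))) (f0 x) (f0 y) + C) := by
      have e5 : (wordLength (S : Set (GraphProduct Γ0 (Z ord0))) (x⁻¹ * y) : ℝ) / K ≤
        c4 * dst (letters Δ (Z (fun _ : κ => 2))) (f0 x) (f0 y) + C := by linarith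
      rw [div_le_iff₀ hK0] at e5
      linarith
    have e6 : (dst (letters Γ0 (Z ord0)) x y : ℝ) ≤ c1 * (K * (c4 * dst (letters Δ (Z (fun _ : κ => 2))) (f0 x) (f0 y) + C)) :=
      e1.trans (mul_le_mul_of_nonneg_left e4 (Nat.cast_nonneg _))
    have e7 : (dst (letters Γ0 (Z ord0)) x y : ℝ) ≤ N * dst (letters Δ (Z (fun _ : κ => 2))) (f0 x) (f0 y) + N := by
      have e8 : (0 : ℝ) ≤ dst (letters Δ (Z (fun _ : κ => 2))) (f0 x) (f0 y) := Nat.cast_nonneg _
      have e9 : c1 * (K * c4) * (dst (letters Δ (Z (fun _ : κ => 2))) (f0 x) (f0 y) : ℝ) ≤ N * dst (letters Δ (Z (fun _ : κ => 2))) (f0 x) (f0 y) :=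
        mul_le_mul_of_nonneg_right (by linarith) e8
      nlinarith
    exact_mod_cast e7
  have h2 : ∀ x y, dst (letters Δ (Z (fun _ : κ => 2))) (f0 x) (f0 y) ≤ N * dst (letters Γ0 (Z ord0)) x y + N := by
    intro x y
    have e1 : (dst (letters Δ (Z (fun _ : κ => 2))) (f0 x) (f0 y) : ℝ) ≤
        c3 * wordLength (T : Set (RACG Δ)) ((f0 x)⁻¹ * f0 y) := by exact_mod_cast hc3 _
    have e2 := (hqi x y).2
    have e3 : (wordLength (S : Set (GraphProduct Γ0 (Z ord0))) (x⁻¹ * y) : ℝ) ≤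
        c2 * dst (letters Γ0 (Z ord0)) x y := by exact_mod_cast hc2 _
    have e4 : (wordLength (T : Set (RACG Δ)) ((f0 x)⁻¹ * f0 y) : ℝ) ≤
        K * (c2 * dst (letters Γ0 (Z ord0)) x y) + C := by
      have := mul_le_mul_of_nonneg_left e3 hK0.le
      linarith
    have e6 : (dst (letters Δ (Z (fun _ : κ => 2))) (f0 x) (f0 y) : ℝ) ≤ c3 * (K * (c2 * dst (letters Γ0 (Z ord0)) x y) + C) :=
      e1.trans (mul_le_mul_of_nonneg_left e4 (Nat.cast_nonneg _))
    have e7 : (dst (letters Δ (Z (fun _ : κ => 2))) (f0 x) (f0 y) : ℝ) ≤ N * dst (letters Γ0 (Z ord0)) x y + N := by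
      have e8 : (0 : ℝ) ≤ dst (letters Γ0 (Z ord0)) x y := Nat.cast_nonneg _
      have e9 : c3 * (K * c2) * (dst (letters Γ0 (Z ord0)) x y : ℝ) ≤ N * dst (letters Γ0 (Z ord0)) x y :=
        mul_le_mul_of_nonneg_right (by linarith) e8
      nlinarith
    exact_mod_cast e7
  have h3 : ∀ z, ∃ x, dst (letters Δ (Z (fun _ : κ => 2))) (f0 x) z ≤ N := by
    intro z
    obtain ⟨x, hx⟩ := hsurj z
    refine ⟨x, ?_⟩
    have e1 : (dst (letters Δ (Z (fun _ : κ => 2))) (f0 x) z : ℝ) ≤ c3 * wordLength (T : Set (RACG Δ)) ((f0 x)⁻¹ * z) := by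
      exact_mod_cast hc3 _
    have e2 : (dst (letters Δ (Z (fun _ : κ => 2))) (f0 x) z : ℝ) ≤ N := by
      have := mul_le_mul_of_nonneg_left hx (Nat.cast_nonneg (α := ℝ) c3)
      linarith
    exact_mod_cast e2
  choose f hf using h3
  have gW := goodGen (Γ := Δ) (G := Z (fun _ : κ => 2))
  refine no_qi_data Δ
    { f := f
      g := f0
      K := 2 * N * N + 3 * N
      up := ?_
      lo := ?_
      rt := ?_ }
  · intro a b
    have e1 := h1 (f a) (f b)
    have e2 := hf a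
    have e3 := hf b
    have e4 := gW.dst_triangle (f0 (f a)) a (f0 (f b))
    have e5 := gW.dst_triangle a b (f0 (f b))
    have e6 := gW.dst_comm b (f0 (f b))
    have e7 : N * dst (letters Δ (Z (fun _ : κ => 2))) (f0 (f a)) (f0 (f b)) ≤ N * (dst (letters Δ (Z (fun _ : κ => 2))) a b + 2 * N) :=
      Nat.mul_le_mul_left _ (by omega)
    have e8 : N * dW Δ a b ≤ (2 * N * N + 3 * N) * dW Δ a b :=
      Nat.mul_le_mul_right _ (by nlinarith)
    show dst (letters Γ0 (Z ord0)) (f a) (f b) ≤ (2 * N * N + 3 * N) * dW Δ a b + (2 * N * N + 3 * N)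
    have e9 : dW Δ a b = dst (letters Δ (Z (fun _ : κ => 2))) a b := rfl
    rw [e9] at e8 ⊢
    nlinarith
  · intro a b
    have e1 := h2 (f a) (f b)
    have e2 := hf a
    have e3 := hf b
    have e4 := gW.dst_triangle a (f0 (f a)) b
    have e5 := gW.dst_triangle (f0 (f a)) (f0 (f b)) b
    have e6 := gW.dst_comm a (f0 (f a))
    have e8 : N * dst (letters Γ0 (Z ord0)) (f a) (f b) ≤ (2 * N * N + 3 * N) * dst (letters Γ0 (Z ord0)) (f a) (f b) :=
      Nat.mul_le_mul_right _ (by nlinarith)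
    show dst (letters Δ (Z (fun _ : κ => 2))) a b ≤ (2 * N * N + 3 * N) * dst (letters Γ0 (Z ord0)) (f a) (f b) + (2 * N * N + 3 * N)
    nlinarith
  · intro x
    have e1 := h1 (f (f0 x)) x
    have e2 := hf (f0 x)
    have e3 : N * dst (letters Δ (Z (fun _ : κ => 2))) (f0 (f (f0 x))) (f0 x) ≤ N * N := Nat.mul_le_mul_left _ e2
    show dst (letters Γ0 (Z ord0)) (f (f0 x)) x ≤ 2 * N * N + 3 * N
    nlinarith

end QI97
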