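import Pool.Agent.QI97.Defs
import Mathlib.Tactic

set_option maxSynthPendingDepth 3

namespace QI97

open scoped Pointwise

namespace GP

variable {ι : Type*} {Γ : SimpleGraph ι} {G : ι → Type*} [∀ i, Group (G i)]

/-- The canonical map of a vertex group. -/
def of (Γ : SimpleGraph ι) (G : ι → Type*) [∀ i, Group (G i)] (i : ι) : G i →* GraphProduct Γ G :=
  (QuotientGroup.mk' (Subgroup.normalClosure (graphRels Γ G))).comp Monoid.CoprodI.of

theorem of_comm {i j : ι} (h : Γ.Adj i j) (x : G i) (y : G j) :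
    of Γ G i x * of Γ G j y = of Γ G j y * of Γ G i x := by
  have h1 : (Monoid.CoprodI.of x * Monoid.CoprodI.of y *
      (Monoid.CoprodI.of x)⁻¹ * (Monoid.CoprodI.of y)⁻¹ : Monoid.CoprodI G)
      ∈ Subgroup.normalClosure (graphRels Γ G) :=
    Subgroup.subset_normalClosure ⟨i, j, x, y, h, rfl⟩
  have h2 : (QuotientGroup.mk' (Subgroup.normalClosure (graphRels Γ G)))
      (Monoid.CoprodI.of x * Monoid.CoprodI.of y *
      (Monoid.CoprodI.of x)⁻¹ * (Monoid.CoprodI.of y)⁻¹ : Monoid.CoprodI G) = 1 :=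
    (QuotientGroup.eq_one_iff _).2 h1
  rw [_root_.map_mul, _root_.map_mul, _root_.map_mul, _root_.map_inv, _root_.map_inv,
    mul_inv_eq_one, mul_inv_eq_iff_eq_mul] at h2
  exact h2

/-- Universal property. -/
def lift {H : Type*} [Group H] (f : ∀ i, G i →* H)
    (hf : ∀ i j, Γ.Adj i j → ∀ x y, f i x * f j y = f j y * f i x) : GraphProduct Γ G →* H :=
  QuotientGroup.lift (Subgroup.normalClosure (graphRels Γ G)) (Monoid.CoprodI.lift f) (by
    have : Subgroup.normalClosure (graphRels Γ G) ≤ (Monoid.CoprodI.lift f).ker := by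
      refine Subgroup.normalClosure_le_normal ?_
      rintro _ ⟨u, v, g, h, huv, rfl⟩
      rw [SetLike.mem_coe, MonoidHom.mem_ker, _root_.map_mul, _root_.map_mul, _root_.map_mul,
        _root_.map_inv, _root_.map_inv, Monoid.CoprodI.lift_of, Monoid.CoprodI.lift_of,
        mul_inv_eq_one, mul_inv_eq_iff_eq_mul]
      exact hf u v huv g h
    exact this)

@[simp] theorem lift_of {H : Type*} [Group H] (f : ∀ i, G i →* H)
    (hf : ∀ i j, Γ.Adj i j → ∀ x y, f i x * f j y = f j y * f i x) (i : ι) (x : G i) :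
    lift f hf (of Γ G i x) = f i x := by
  show QuotientGroup.lift _ _ _ (QuotientGroup.mk' _ (Monoid.CoprodI.of x)) = _
  rw [QuotientGroup.mk'_apply, QuotientGroup.lift_mk, Monoid.CoprodI.lift_of]

/-- Induction by right multiplication by letters. -/
theorem induction {P : GraphProduct Γ G → Prop} (h1 : P 1)
    (h2 : ∀ x i (g : G i), P x → P (x * of Γ G i g)) (x : GraphProduct Γ G) : P x := by
  obtain ⟨y, rfl⟩ := QuotientGroup.mk'_surjective _ x
  have key : ∀ m : Monoid.CoprodI G,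
      P (QuotientGroup.mk' (Subgroup.normalClosure (graphRels Γ G)) m⁻¹) := by
    intro m
    induction m using Monoid.CoprodI.induction_left with
    | one => rw [inv_one, _root_.map_one]; exact h1
    | mul m x hx =>
      rename_i i
      rw [mul_inv_rev, ← _root_.map_inv, _root_.map_mul]
      exact h2 _ i m⁻¹ hx
  have := key y⁻¹
  rwa [inv_inv] at this

theorem closure_letters :
    Subgroup.closure {x : GraphProduct Γ G | ∃ i g, x = of Γ G i g} = ⊤ := by
  rw [eq_top_iff]
  rintro x -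
  induction x using induction with
  | h1 => exact Subgroup.one_mem _
  | h2 x i g hx => exact Subgroup.mul_mem _ hx (Subgroup.subset_closure ⟨i, g, rfl⟩)

/-- Two homomorphisms agreeing on the vertex groups are equal. -/
theorem hom_ext {H : Type*} [Group H] {f g : GraphProduct Γ G →* H}
    (h : ∀ i x, f (of Γ G i x) = g (of Γ G i x)) (x : GraphProduct Γ G) : f x = g x := by
  induction x using induction with
  | h1 => rw [_root_.map_one, _root_.map_one]
  | h2 x i y hx => rw [_root_.map_mul, _root_.map_mul, hx, h]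

open Classical in
/-- The retraction killing the vertex groups outside `U`. -/
noncomputable def ret (Γ : SimpleGraph ι) (G : ι → Type*) [∀ i, Group (G i)] (U : Set ι) :
    GraphProduct Γ G →* GraphProduct Γ G :=
  lift (fun i => if i ∈ U then of Γ G i else 1) (by
    intro i j hij x y
    split_ifs with h1 h2 h2
    · exact of_comm hij x y
    · simp
    · simp
    · simp)

theorem ret_of_mem {U : Set ι} {i : ι} (h : i ∈ U) (x : G i) :
    ret Γ G U (of Γ G i x) = of Γ G i x := by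
  unfold ret
  rw [lift_of, if_pos h]

theorem ret_of_not_mem {U : Set ι} {i : ι} (h : i ∉ U) (x : G i) :
    ret Γ G U (of Γ G i x) = 1 := by
  unfold ret
  rw [lift_of, if_neg h]; rfl

theorem ret_ret (U U' : Set ι) (x : GraphProduct Γ G) :
    ret Γ G U (ret Γ G U' x) = ret Γ G (U ∩ U') x := by
  have := hom_ext (f := (ret Γ G U).comp (ret Γ G U')) (g := ret Γ G (U ∩ U')) ?_ x
  · exact this
  · intro i y
    rw [MonoidHom.comp_apply]
    by_cases h' : i ∈ U'
    · rw [ret_of_mem h']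
      by_cases h : i ∈ U
      · rw [ret_of_mem h, ret_of_mem (Set.mem_inter h h')]
      · rw [ret_of_not_mem h, ret_of_not_mem (fun hh => h hh.1)]
    · rw [ret_of_not_mem h', _root_.map_one, ret_of_not_mem (fun hh => h' hh.2)]

theorem ret_univ (x : GraphProduct Γ G) : ret Γ G Set.univ x = x :=
  hom_ext (f := ret Γ G Set.univ) (g := MonoidHom.id _) (fun _ y => ret_of_mem (Set.mem_univ _) y) x

/-- The subgroup generated by the vertex groups in `U`. -/
noncomputable def sp (Γ : SimpleGraph ι) (G : ι → Type*) [∀ i, Group (G i)] (U : Set ι) :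
    Subgroup (GraphProduct Γ G) := (ret Γ G U).range

theorem mem_sp {U : Set ι} {x : GraphProduct Γ G} : x ∈ sp Γ G U ↔ ret Γ G U x = x := by
  constructor
  · rintro ⟨y, rfl⟩
    rw [ret_ret, Set.inter_self]
  · intro h
    exact ⟨x, h⟩

theorem ret_mem_sp (U : Set ι) (x : GraphProduct Γ G) : ret Γ G U x ∈ sp Γ G U := ⟨x, rfl⟩

theorem of_mem_sp {U : Set ι} {i : ι} (h : i ∈ U) (x : G i) : of Γ G i x ∈ sp Γ G U :=
  mem_sp.2 (ret_of_mem h x)

theorem sp_mono {U U' : Set ι} (h : U ⊆ U') : sp Γ G U ≤ sp Γ G U' := by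
  intro x hx
  rw [mem_sp] at hx ⊢
  rw [← hx, ret_ret, Set.inter_eq_self_of_subset_right h]

theorem mem_sp_inter {U U' : Set ι} {x : GraphProduct Γ G} (h : x ∈ sp Γ G U)
    (h' : x ∈ sp Γ G U') : x ∈ sp Γ G (U ∩ U') := by
  rw [mem_sp] at h h' ⊢
  rw [← ret_ret, h', h]

theorem ret_eq_self {U U' : Set ι} (hUU : U ⊆ U') {x : GraphProduct Γ G} (h : x ∈ sp Γ G U) :
    ret Γ G U' x = x := mem_sp.1 (sp_mono hUU h)

/-- Induction in special subgroups. -/
theorem sp_induction {U : Set ι} {P : GraphProduct Γ G → Prop} (h1 : P 1)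
    (h2 : ∀ x ∈ sp Γ G U, ∀ i ∈ U, ∀ (g : G i), P x → P (x * of Γ G i g))
    {x : GraphProduct Γ G} (hx : x ∈ sp Γ G U) : P x := by
  have key : ∀ y, P (ret Γ G U y) := by
    intro y
    induction y using induction with
    | h1 => rw [_root_.map_one]; exact h1
    | h2 y i g hy =>
      rw [_root_.map_mul]
      by_cases hi : i ∈ U
      · rw [ret_of_mem hi]
        exact h2 _ (ret_mem_sp U y) i hi g hy
      · rw [ret_of_not_mem hi, mul_one]
        exact hy
  have := key x
  rwa [mem_sp.1 hx] at this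

/-- Functions defined by cocycles on letters. -/
theorem exists_cocycle {K : Type*} [Group K] (δ : ∀ i, GraphProduct Γ G → G i → K)
    (h1 : ∀ i g x y, δ i g (x * y) = δ i g x * δ i (g * of Γ G i x) y)
    (h2 : ∀ i j, Γ.Adj i j → ∀ g x y, δ i g x * δ j (g * of Γ G i x) y =
      δ j g y * δ i (g * of Γ G j y) x) :
    ∃ F : GraphProduct Γ G → K, F 1 = 1 ∧ ∀ g i (x : G i), F (g * of Γ G i x) = F g * δ i g x := by
  have hδ1 : ∀ i g, δ i g 1 = 1 := by
    intro i g
    have := h1 i g 1 1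
    rw [mul_one, _root_.map_one, mul_one] at this
    exact (mul_eq_left.1 this.symm)
  let act : ∀ i, G i →* Function.End (GraphProduct Γ G × K) := fun i =>
    { toFun := fun x p => (p.1 * (of Γ G i x)⁻¹, p.2 * δ i p.1 x⁻¹)
      map_one' := by
        funext p
        show (p.1 * (of Γ G i 1)⁻¹, p.2 * δ i p.1 (1 : G i)⁻¹) = p
        rw [_root_.map_one, inv_one, inv_one, hδ1, mul_one, mul_one]
      map_mul' := by
        intro x y
        funext p
        show (p.1 * (of Γ G i (x * y))⁻¹, p.2 * δ i p.1 (x * y)⁻¹) =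
          ((p.1 * (of Γ G i y)⁻¹) * (of Γ G i x)⁻¹,
            (p.2 * δ i p.1 y⁻¹) * δ i (p.1 * (of Γ G i y)⁻¹) x⁻¹)
        rw [_root_.map_mul, mul_inv_rev, mul_inv_rev, h1, _root_.map_inv, ← mul_assoc, ← mul_assoc] }
  have hact : ∀ i (x : G i) p, act i x p = (p.1 * (of Γ G i x)⁻¹, p.2 * δ i p.1 x⁻¹) :=
    fun _ _ _ => rfl
  let Ψ : GraphProduct Γ G →* Equiv.Perm (GraphProduct Γ G × K) :=
    lift (fun i => (act i).toHomPerm) (by
      intro i j hij x y
      ext1 p
      show act i x (act j y p) = act j y (act i x p)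
      rw [hact, hact, hact, hact]
      have e := h2 i j hij p.1 x⁻¹ y⁻¹
      rw [_root_.map_inv, _root_.map_inv] at e
      ext
      · show p.1 * (of Γ G j y)⁻¹ * (of Γ G i x)⁻¹ = p.1 * (of Γ G i x)⁻¹ * (of Γ G j y)⁻¹
        rw [mul_assoc, mul_assoc, ← mul_inv_rev, ← mul_inv_rev, of_comm hij]
      · show p.2 * δ j p.1 y⁻¹ * δ i (p.1 * (of Γ G j y)⁻¹) x⁻¹ =
          p.2 * δ i p.1 x⁻¹ * δ j (p.1 * (of Γ G i x)⁻¹) y⁻¹
        rw [mul_assoc, mul_assoc, e])
  have hΨ : ∀ i (x : G i) p, Ψ (of Γ G i x) p = (p.1 * (of Γ G i x)⁻¹, p.2 * δ i p.1 x⁻¹) := by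
    intro i x p
    simp only [Ψ]
    rw [lift_of]
    rfl
  have hfst : ∀ g p, (Ψ g p).1 = p.1 * g⁻¹ := by
    intro g
    induction g using induction with
    | h1 => intro p; rw [_root_.map_one, inv_one, mul_one]; rfl
    | h2 g i x ih =>
      intro p
      rw [_root_.map_mul, Equiv.Perm.mul_apply, ih, hΨ, mul_inv_rev, mul_assoc]
  refine ⟨fun g => (Ψ g⁻¹ (1, 1)).2, ?_, ?_⟩
  · show (Ψ (1 : GraphProduct Γ G)⁻¹ (1, 1)).2 = 1
    rw [inv_one, _root_.map_one]; rfl
  · intro g i x
    show (Ψ (g * of Γ G i x)⁻¹ (1, 1)).2 = (Ψ g⁻¹ (1, 1)).2 * δ i g x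
    rw [mul_inv_rev, ← _root_.map_inv, _root_.map_mul, Equiv.Perm.mul_apply, hΨ, hfst, inv_inv,
      inv_inv, one_mul]

end GP

end QI97
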