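import Pool.Agent.QI97.GPTree

set_option maxSynthPendingDepth 3

namespace QI97

open SimpleGraph
open scoped Pointwise

namespace GP

variable {ι : Type*} {Γ : SimpleGraph ι} {G : ι → Type*} [∀ i, Group (G i)]

/-- `P`-vertices. -/
abbrev PV (Γ : SimpleGraph ι) (G : ι → Type*) [∀ i, Group (G i)] (C : Set ι) : Type _ :=
  GraphProduct Γ G ⧸ sp Γ G Cᶜ

/-- `Y`-vertices. -/
abbrev YV (Γ : SimpleGraph ι) (G : ι → Type*) [∀ i, Group (G i)] (C : Set ι) : Type _ :=
  Σ c : C, GraphProduct Γ G ⧸ sp Γ G (star Γ c.1)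

/-- adjacency -/
def padj {C : Set ι} (u : PV Γ G C) (v : YV Γ G C) : Prop :=
  ∃ g : GraphProduct Γ G, (QuotientGroup.mk g : PV Γ G C) = u ∧ QuotientGroup.mk g = v.2

/-- The `Y`-vertex of an element. -/
noncomputable def yv {C : Set ι} (c : C) (g : GraphProduct Γ G) : YV Γ G C := ⟨c, QuotientGroup.mk g⟩

theorem padj_mk {C : Set ι} (c : C) (g : GraphProduct Γ G) :
    padj (QuotientGroup.mk g : PV Γ G C) (yv c g) := ⟨g, rfl, rfl⟩

theorem yv_eq {C : Set ι} {c : C} {g h : GraphProduct Γ G} :
    (yv c g : YV Γ G C) = yv c h ↔ g⁻¹ * h ∈ sp Γ G (star Γ c.1) := by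
  rw [← QuotientGroup.eq]
  constructor
  · intro h1
    unfold yv at h1
    simpa using h1
  · intro h1
    unfold yv
    rw [h1]

theorem yv_snd {C : Set ι} {v : YV Γ G C} {g : GraphProduct Γ G}
    (h : QuotientGroup.mk g = v.2) : yv v.1 g = v := by
  unfold yv
  rw [h]

theorem lk_subset_compl {C : Set ι} (hC : ∀ c ∈ C, ∀ c' ∈ C, ¬ Γ.Adj c c') {c : ι} (hc : c ∈ C) :
    lk Γ c ⊆ Cᶜ := fun i hi hiC => hC c hc i hiC hi

/-- The tree is a tree. -/
theorem isTree {C : Set ι} (hC : ∀ c ∈ C, ∀ c' ∈ C, ¬ Γ.Adj c c') :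
    (bip (padj (Γ := Γ) (G := G) (C := C))).IsTree := by
  classical
  set T := bip (padj (Γ := Γ) (G := G) (C := C)) with hT
  constructor
  · -- connected
    have hP : ∀ g : GraphProduct Γ G, T.Reachable (Sum.inl (QuotientGroup.mk 1))
        (Sum.inl (QuotientGroup.mk g)) := by
      intro g
      induction g using induction with
      | h1 => exact Reachable.refl _
      | h2 g i x ih =>
        by_cases hi : i ∈ C
        · have h1 : T.Adj (Sum.inl (QuotientGroup.mk g)) (Sum.inr (yv ⟨i, hi⟩ g)) :=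
            bip_lr.2 (padj_mk ⟨i, hi⟩ g)
          have h2 : T.Adj (Sum.inr (yv ⟨i, hi⟩ (g * of Γ G i x)))
              (Sum.inl (QuotientGroup.mk (g * of Γ G i x))) :=
            bip_rl.2 (padj_mk ⟨i, hi⟩ _)
          have h3 : (yv ⟨i, hi⟩ (g * of Γ G i x) : YV Γ G C) = yv ⟨i, hi⟩ g := by
            symm
            rw [yv_eq, inv_mul_cancel_left]
            exact of_mem_sp (mem_star_self i) x
          rw [h3] at h2
          exact (ih.trans h1.reachable).trans h2.reachable
        · have h3 : (QuotientGroup.mk (g * of Γ G i x) : PV Γ G C) = QuotientGroup.mk g := by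
            symm
            rw [QuotientGroup.eq, inv_mul_cancel_left]
            exact of_mem_sp hi x
          rw [h3]
          exact ih
    have hall : ∀ a, T.Reachable (Sum.inl (QuotientGroup.mk 1)) a := by
      rintro (u | v)
      · obtain ⟨g, rfl⟩ := QuotientGroup.mk_surjective u
        exact hP g
      · obtain ⟨c, q⟩ := v
        obtain ⟨g, rfl⟩ := QuotientGroup.mk_surjective q
        exact (hP g).trans (bip_lr.2 (padj_mk c g)).reachable
    exact (connected_iff_exists_forall_reachable T).2 ⟨_, hall⟩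
  · -- acyclic
    have hbr : ∀ (u : PV Γ G C) (v : YV Γ G C), padj u v →
        ¬ (T.deleteEdges {s(Sum.inl u, Sum.inr v)}).Reachable (Sum.inl u) (Sum.inr v) := by
      rintro u ⟨c, q⟩ ⟨h1, hu, hv⟩
      obtain ⟨g, rfl⟩ := QuotientGroup.mk_surjective q
      have hc := c.2
      have hv' : g⁻¹ * h1 ∈ sp Γ G (star Γ c.1) := QuotientGroup.eq.1 hv.symm
      -- the invariant
      let Inv : PV Γ G C ⊕ YV Γ G C → Prop := fun a =>
        a ≠ Sum.inr (yv c g) ∧
        (∀ h : GraphProduct Γ G, a = Sum.inl (QuotientGroup.mk h) →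
          σ Γ G c.1 (g⁻¹ * h) = σ Γ G c.1 (g⁻¹ * h1)) ∧
        (∀ (c' : C) (h : GraphProduct Γ G), a = Sum.inr (yv c' h) →
          σ Γ G c.1 (g⁻¹ * h) = σ Γ G c.1 (g⁻¹ * h1))
      -- any element of a P-vertex has the same value
      have hPval : ∀ h h' : GraphProduct Γ G,
          (QuotientGroup.mk h : PV Γ G C) = QuotientGroup.mk h' →
          σ Γ G c.1 (g⁻¹ * h) = σ Γ G c.1 (g⁻¹ * h') := by
        intro h h' hh
        have h2 : h⁻¹ * h' ∈ sp Γ G Cᶜ := QuotientGroup.eq.1 hh
        have h3 := σ_mul_sp (Γ := Γ) (G := G) (c := c.1) (U := Cᶜ) (fun hh => hh hc)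
          (g⁻¹ * h) h2
        rw [← h3]
        congr 1
        group
      have hYval : ∀ (c' : C) (h h' : GraphProduct Γ G), (yv c' h : YV Γ G C) = yv c' h' →
          (yv c' h : YV Γ G C) ≠ yv c g →
          σ Γ G c.1 (g⁻¹ * h) = σ Γ G c.1 (g⁻¹ * h') := by
        intro c' h h' hh hne
        have h2 : h⁻¹ * h' ∈ sp Γ G (star Γ c'.1) := yv_eq.1 hh
        have e : g⁻¹ * h' = (g⁻¹ * h) * (h⁻¹ * h') := by group
        by_cases hcc : c' = c
        · subst hcc
          have h3 : g⁻¹ * h ∉ sp Γ G (star Γ c'.1) := by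
            intro h4
            exact hne (yv_eq.2 h4).symm
          rw [e, σ_mul_star h3 h2]
        · rw [e, σ_mul_sp _ _ h2]
          rintro (h4 | h4)
          · exact hcc (Subtype.ext h4).symm
          · exact hC _ c'.2 _ hc h4
      have hstart : Inv (Sum.inl u) := by
        refine ⟨by simp, ?_, ?_⟩
        · intro h hh
          have hh' : u = QuotientGroup.mk h := by simpa using hh
          exact hPval h h1 (hh'.symm.trans hu.symm)
        · intro c' h hh
          simp at hh
      have hstep : ∀ a b, (T.deleteEdges {s(Sum.inl u, Sum.inr (yv c g))}).Adj a b →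
          Inv a → Inv b := by
        rintro (a | a) (b | b) hab hI
        · rw [deleteEdges_adj] at hab
          exact absurd hab.1 bip_ll
        · rw [deleteEdges_adj] at hab
          obtain ⟨hab1, hab2⟩ := hab
          obtain ⟨h0, ha, hb⟩ := bip_lr.1 hab1
          obtain ⟨c', q'⟩ := b
          have hb' : (⟨c', q'⟩ : YV Γ G C) = yv c' h0 := (yv_snd hb).symm
          rw [hb'] at hab2 ⊢
          have hval : σ Γ G c.1 (g⁻¹ * h0) = σ Γ G c.1 (g⁻¹ * h1) := hI.2.1 h0 (by rw [ha])
          have hne : (yv c' h0 : YV Γ G C) ≠ yv c g := by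
            intro heq
            apply hab2
            have hcc : c' = c := congrArg Sigma.fst heq
            subst hcc
            have h2 : g⁻¹ * h0 ∈ sp Γ G (star Γ c'.1) := yv_eq.1 heq.symm
            have h3 : (g⁻¹ * h1)⁻¹ * (g⁻¹ * h0) ∈ sp Γ G (star Γ c'.1) :=
              Subgroup.mul_mem _ (Subgroup.inv_mem _ hv') h2
            have h4 : σ Γ G c'.1 ((g⁻¹ * h1)⁻¹ * (g⁻¹ * h0)) = 1 := by
              have h5 := σ_mul_left hv' ((g⁻¹ * h1)⁻¹ * (g⁻¹ * h0))
              rw [mul_inv_cancel_left, hval] at h5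
              exact (mul_eq_left.1 h5.symm)
            have h6 := star_decomp h3
            rw [h4, mul_one] at h6
            have h7 : h1⁻¹ * h0 ∈ sp Γ G Cᶜ := by
              have h8 : h1⁻¹ * h0 = (g⁻¹ * h1)⁻¹ * (g⁻¹ * h0) := by group
              rw [h8, h6]
              exact sp_mono (lk_subset_compl hC hc) (ret_mem_sp _ _)
            have h8 : a = u := by
              rw [← ha, ← hu]
              exact (QuotientGroup.eq.2 h7).symm
            rw [h8, heq]
            rfl
          refine ⟨by simpa using hne, ?_, ?_⟩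
          · intro h hh
            simp at hh
          · intro c'' h hh
            have hh' : (yv c' h0 : YV Γ G C) = yv c'' h := by simpa using hh
            have hcc : c' = c'' := congrArg Sigma.fst hh'
            subst hcc
            rw [← hval]
            exact (hYval c' h0 h hh' hne).symm
        · rw [deleteEdges_adj] at hab
          obtain ⟨hab1, hab2⟩ := hab
          obtain ⟨h0, hb, ha⟩ := bip_rl.1 hab1
          obtain ⟨c', q'⟩ := a
          have ha' : (⟨c', q'⟩ : YV Γ G C) = yv c' h0 := (yv_snd ha).symm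
          rw [ha'] at hI
          have hval : σ Γ G c.1 (g⁻¹ * h0) = σ Γ G c.1 (g⁻¹ * h1) := hI.2.2 c' h0 rfl
          refine ⟨by simp, ?_, ?_⟩
          · intro h hh
            have hh' : b = QuotientGroup.mk h := by simpa using hh
            rw [← hval]
            exact hPval h h0 (hh'.symm.trans hb.symm)
          · intro c'' h hh
            simp at hh
        · rw [deleteEdges_adj] at hab
          exact absurd hab.1 bip_rr
      intro hreach
      obtain ⟨p⟩ := hreach
      have hend : ∀ a b (p : (T.deleteEdges {s(Sum.inl u, Sum.inr (yv c g))}).Walk a b),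
          Inv a → Inv b := by
        intro a b p
        induction p with
        | nil => exact id
        | cons hadj q ih => exact fun hI => ih (hstep _ _ hadj hI)
      exact (hend _ _ p hstart).1 rfl
    rw [isAcyclic_iff_forall_adj_isBridge]
    rintro (a | a) (b | b) hab
    · exact absurd hab bip_ll
    · rw [isBridge_iff]
      exact hbr a b (bip_lr.1 hab)
    · rw [isBridge_iff]
      intro h
      refine hbr b a (bip_rl.1 hab) ?_
      rw [Sym2.eq_swap]
      exact h.symm
    · exact absurd hab bip_rr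

/-- The tree space of a graph product and an independent set of vertices. -/
noncomputable def space (Γ : SimpleGraph ι) (G : ι → Type*) [∀ i, Group (G i)] (C : Set ι)
    (hC : ∀ c ∈ C, ∀ c' ∈ C, ¬ Γ.Adj c c') : TreeSpace (GraphProduct Γ G) (PV Γ G C) (YV Γ G C) where
  d := dst (letters Γ G)
  d_self := goodGen.dst_self
  d_eq := fun _ _ => goodGen.eq_of_dst
  d_comm := goodGen.dst_comm
  d_tri := goodGen.dst_triangle
  chain := fun _ _ _ => goodGen.exists_chain
  adj := padj
  tree := isTree hC
  π := QuotientGroup.mk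
  surj := QuotientGroup.mk_surjective
  pts := fun v => {g | yv v.1 g = v}
  cross := by
    intro x y h
    have h1 : x⁻¹ * y ∈ letters Γ G := by
      have := goodGen.nrm_le_iff.1 h
      rwa [pow_one] at this
    rcases h1 with h1 | ⟨i, g, h1⟩
    · left
      rw [inv_mul_eq_one.1 h1]
    · have h2 : y = x * of Γ G i g := by rw [← h1, mul_inv_cancel_left]
      by_cases hi : i ∈ C
      · right
        have h3 : (yv ⟨i, hi⟩ y : YV Γ G C) = yv ⟨i, hi⟩ x := by
          symm
          rw [yv_eq, h1]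
          exact of_mem_sp (mem_star_self i) g
        refine ⟨yv ⟨i, hi⟩ x, padj_mk _ _, ?_, rfl, ?_⟩
        · rw [← h3]
          exact padj_mk _ _
        · show yv (yv ⟨i, hi⟩ x : YV Γ G C).1 y = yv ⟨i, hi⟩ x
          rw [← h3]
          rfl
      · left
        rw [QuotientGroup.eq, h1]
        exact of_mem_sp hi g
  pts_adj := by
    rintro v x hx
    have h : yv v.1 x = v := hx
    rw [← h]
    exact padj_mk _ _
  near := by
    rintro u ⟨c, q⟩ ⟨h, hu, hv⟩ x hx
    have hx' : (yv c x : YV Γ G C) = ⟨c, q⟩ := hx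
    have hv' : (yv c h : YV Γ G C) = ⟨c, q⟩ := yv_snd hv
    have h1 : h⁻¹ * x ∈ sp Γ G (star Γ c.1) := yv_eq.1 (hv'.trans hx'.symm)
    have h2 := star_decomp h1
    obtain ⟨k, hk⟩ := exists_σ c.1 (h⁻¹ * x)
    refine ⟨h * ret Γ G (lk Γ c.1) (h⁻¹ * x), ?_, ?_, ?_⟩
    · show (yv c (h * ret Γ G (lk Γ c.1) (h⁻¹ * x)) : YV Γ G C) = ⟨c, q⟩
      rw [← hv']
      symm
      rw [yv_eq, inv_mul_cancel_left]
      exact sp_mono (lk_subset_star c.1) (ret_mem_sp _ _)
    · rw [goodGen.dst_comm]
      unfold dst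
      have e : (h * ret Γ G (lk Γ c.1) (h⁻¹ * x))⁻¹ * x = of Γ G c.1 k := by
        rw [mul_inv_rev, mul_assoc, inv_mul_eq_iff_eq_mul, ← hk]
        exact h2
      rw [e]
      exact goodGen.nrm_letter (Or.inr ⟨_, _, rfl⟩)
    · rw [← hu]
      symm
      rw [QuotientGroup.eq, inv_mul_cancel_left]
      exact sp_mono (lk_subset_compl hC c.2) (ret_mem_sp _ _)

end GP

end QI97
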