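import Pool.Agent.QI97.TreeLib

set_option maxSynthPendingDepth 3

namespace QI97

open SimpleGraph

/-- The bipartite graph of a relation. -/
def bip {P Y : Type*} (adj : P → Y → Prop) : SimpleGraph (P ⊕ Y) where
  Adj a b := (∃ u v, a = Sum.inl u ∧ b = Sum.inr v ∧ adj u v) ∨
    (∃ u v, a = Sum.inr v ∧ b = Sum.inl u ∧ adj u v)
  symm := ⟨by
    rintro a b (⟨u, v, h1, h2, h3⟩ | ⟨u, v, h1, h2, h3⟩)
    · exact Or.inr ⟨u, v, h2, h1, h3⟩
    · exact Or.inl ⟨u, v, h2, h1, h3⟩⟩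
  loopless := ⟨by
    rintro a (⟨u, v, h1, h2, _⟩ | ⟨u, v, h1, h2, _⟩)
    · rw [h1] at h2; cases h2
    · rw [h1] at h2; cases h2⟩

section bip

variable {P Y : Type*} {adj : P → Y → Prop}

@[simp] theorem bip_lr {u : P} {v : Y} : (bip adj).Adj (Sum.inl u) (Sum.inr v) ↔ adj u v := by
  constructor
  · rintro (⟨u', v', h1, h2, h3⟩ | ⟨u', v', h1, _, _⟩)
    · cases h1; cases h2; exact h3
    · cases h1
  · intro h
    exact Or.inl ⟨u, v, rfl, rfl, h⟩

@[simp] theorem bip_rl {u : P} {v : Y} : (bip adj).Adj (Sum.inr v) (Sum.inl u) ↔ adj u v := by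
  rw [SimpleGraph.adj_comm, bip_lr]

@[simp] theorem bip_ll {u u' : P} : ¬ (bip adj).Adj (Sum.inl u) (Sum.inl u') := by
  rintro (⟨u', v', h1, h2, h3⟩ | ⟨u', v', h1, _, _⟩)
  · cases h2
  · cases h1

@[simp] theorem bip_rr {v v' : Y} : ¬ (bip adj).Adj (Sum.inr v) (Sum.inr v') := by
  rintro (⟨u', v', h1, h2, h3⟩ | ⟨u', v', _, h2, _⟩)
  · cases h1
  · cases h2

end bip

/-- A metric space `X` fibred over the `P`-vertices of a tree. -/
structure TreeSpace (X P Y : Type*) where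
  d : X → X → ℕ
  d_self : ∀ x, d x x = 0
  d_eq : ∀ x y, d x y = 0 → x = y
  d_comm : ∀ x y, d x y = d y x
  d_tri : ∀ x y z, d x z ≤ d x y + d y z
  chain : ∀ x y n, d x y ≤ n + 1 → ∃ z, d x z ≤ 1 ∧ d z y ≤ n
  adj : P → Y → Prop
  tree : (bip adj).IsTree
  π : X → P
  surj : Function.Surjective π
  pts : Y → Set X
  cross : ∀ x y, d x y ≤ 1 → π x = π y ∨ ∃ v, adj (π x) v ∧ adj (π y) v ∧ x ∈ pts v ∧ y ∈ pts v
  pts_adj : ∀ v, ∀ x ∈ pts v, adj (π x) v
  near : ∀ u v, adj u v → ∀ x ∈ pts v, ∃ x' ∈ pts v, d x x' ≤ 1 ∧ π x' = u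

namespace TreeSpace

variable {X P Y : Type*} (S : TreeSpace X P Y)

/-- The tree. -/
abbrev T : SimpleGraph (P ⊕ Y) := bip S.adj

theorem isTree : S.T.IsTree := S.tree

/-- The side of a `P`-vertex at a `Y`-vertex. -/
noncomputable def side (v : Y) (u : P) : P ⊕ Y := gate S.T (Sum.inr v) (Sum.inl u)

theorem exists_side_eq (v : Y) (u : P) : ∃ u', S.side v u = Sum.inl u' ∧ S.adj u' v := by
  have h : (Sum.inr v : P ⊕ Y) ≠ Sum.inl u := by simp
  obtain ⟨h1, _⟩ := gate_spec S.isTree h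
  rcases hg : gate S.T (Sum.inr v) (Sum.inl u) with u' | v'
  · refine ⟨u', hg, ?_⟩
    rw [hg] at h1
    exact bip_rl.1 h1
  · rw [hg] at h1
    exact absurd h1 bip_rr

theorem side_adj {v : Y} {u : P} (h : S.adj u v) : S.side v u = Sum.inl u :=
  gate_adj S.isTree (bip_rl.2 h)

/-- two `P`-vertices with a common neighbour `≠ v` are on the same side of `v`. -/
theorem side_congr {v v' : Y} {u u' : P} (h : S.adj u v') (h' : S.adj u' v') (hne : v ≠ v') :
    S.side v u = S.side v u' := by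
  unfold side
  rw [gate_congr S.isTree (a := Sum.inl u) (b := Sum.inr v') (bip_lr.2 h) (by simp)
    (by simpa using hne)]
  exact gate_congr S.isTree (bip_rl.2 h') (by simpa using hne) (by simp)

/-- Different `P`-vertices are separated by a `Y`-vertex adjacent to the first one. -/
theorem exists_sep {u u' : P} (h : u ≠ u') : ∃ v, S.adj u v ∧ S.side v u ≠ S.side v u' ∧
    gate S.T (Sum.inl u) (Sum.inl u') = Sum.inr v := by
  have hne : (Sum.inl u : P ⊕ Y) ≠ Sum.inl u' := by simpa using h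
  obtain ⟨h1, h2⟩ := gate_spec S.isTree hne
  rcases hg : gate S.T (Sum.inl u) (Sum.inl u') with w | v
  · rw [hg] at h1
    exact absurd h1 bip_ll
  · rw [hg] at h1 h2
    have hadj : S.adj u v := bip_lr.1 h1
    refine ⟨v, hadj, ?_, rfl⟩
    rw [S.side_adj hadj]
    intro h3
    have h4 : (Sum.inr v : P ⊕ Y) ≠ Sum.inl u' := by simp
    obtain ⟨h5, h6⟩ := gate_spec S.isTree h4
    have h7 : gate S.T (Sum.inr v) (Sum.inl u') = Sum.inl u := h3.symm
    rw [h7] at h6
    omega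

/-- The separation property. -/
theorem sep (v : Y) : ∀ (r : ℕ) (x y : X), S.d x y ≤ r → S.side v (S.π x) ≠ S.side v (S.π y) →
    ∃ z ∈ S.pts v, S.d x z ≤ r := by
  intro r
  induction r with
  | zero =>
    intro x y h hne
    have := S.d_eq x y (Nat.le_zero.1 h)
    rw [this] at hne
    exact absurd rfl hne
  | succ r ih =>
    intro x y h hne
    obtain ⟨z, h1, h2⟩ := S.chain x y r h
    by_cases hs : S.side v (S.π x) = S.side v (S.π z)
    · obtain ⟨p, hp, hpz⟩ := ih z y h2 (by rw [← hs]; exact hne)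
      refine ⟨p, hp, ?_⟩
      have := S.d_tri x z p
      omega
    · rcases S.cross x z h1 with h3 | ⟨v', h3, h4, h5, h6⟩
      · rw [h3] at hs
        exact absurd rfl hs
      · by_cases hv : v = v'
        · subst hv
          exact ⟨x, h5, by rw [S.d_self]; omega⟩
        · exact absurd (S.side_congr h3 h4 hv) hs

end TreeSpace

end QI97
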