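import Pool.Agent.QI97.Defs
import Mathlib.Tactic
import Mathlib.Algebra.Group.Pointwise.Set.Finite

set_option maxSynthPendingDepth 3

namespace QI97

open scoped Pointwise

section Words

variable {G : Type*} [Group G]

/-- A generating set containing `1` and closed under inverses. -/
structure GoodGen (L : Set G) : Prop where
  one_mem : (1 : G) ∈ L
  inv_mem : ∀ x ∈ L, x⁻¹ ∈ L
  gen : ∀ g : G, ∃ n : ℕ, g ∈ L ^ n

/-- The norm with respect to a set. -/
noncomputable def nrm (L : Set G) (g : G) : ℕ := sInf {n | g ∈ L ^ n}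

/-- The distance with respect to a set. -/
noncomputable def dst (L : Set G) (x y : G) : ℕ := nrm L (x⁻¹ * y)

namespace GoodGen

variable {L : Set G} (hL : GoodGen L)

include hL

theorem inv_eq : L⁻¹ = L := by
  ext x
  rw [Set.mem_inv]
  exact ⟨fun h => by simpa using hL.inv_mem _ h, fun h => hL.inv_mem _ h⟩

theorem mem_pow_nrm (g : G) : g ∈ L ^ (nrm L g) := Nat.sInf_mem (hL.gen g)

theorem nrm_le_iff {g : G} {n : ℕ} : nrm L g ≤ n ↔ g ∈ L ^ n := by
  constructor
  · intro h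
    exact Set.pow_subset_pow_right hL.one_mem h (hL.mem_pow_nrm g)
  · intro h
    exact Nat.sInf_le h

theorem mem_of_nrm {g : G} (h : nrm L g ≤ 1) : g ∈ L := by
  have := hL.nrm_le_iff.1 h
  rwa [pow_one] at this

theorem nrm_one : nrm L (1 : G) = 0 := by
  have : nrm L (1 : G) ≤ 0 := by
    rw [hL.nrm_le_iff, pow_zero]; rfl
  omega

theorem eq_one_of_nrm {g : G} (h : nrm L g = 0) : g = 1 := by
  have : nrm L g ≤ 0 := by omega
  rw [hL.nrm_le_iff, pow_zero] at this
  exact this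

theorem nrm_inv (g : G) : nrm L g⁻¹ = nrm L g := by
  have key : ∀ g : G, nrm L g⁻¹ ≤ nrm L g := by
    intro g
    rw [hL.nrm_le_iff, ← Set.mem_inv, ← inv_pow, hL.inv_eq]
    exact hL.mem_pow_nrm g
  refine le_antisymm (key g) ?_
  have := key g⁻¹
  rwa [inv_inv] at this

theorem nrm_mul (g h : G) : nrm L (g * h) ≤ nrm L g + nrm L h := by
  rw [hL.nrm_le_iff, pow_add]
  exact Set.mul_mem_mul (hL.mem_pow_nrm g) (hL.mem_pow_nrm h)

theorem nrm_letter {s : G} (hs : s ∈ L) : nrm L s ≤ 1 := by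
  rw [hL.nrm_le_iff, pow_one]; exact hs

theorem exists_split {g : G} {n : ℕ} (h : nrm L g ≤ n + 1) :
    ∃ s ∈ L, ∃ h, g = s * h ∧ nrm L h ≤ n := by
  rw [hL.nrm_le_iff, pow_succ', Set.mem_mul] at h
  obtain ⟨s, hs, k, hk, rfl⟩ := h
  exact ⟨s, hs, k, rfl, hL.nrm_le_iff.2 hk⟩

theorem exists_split_right {g : G} {n : ℕ} (h : nrm L g ≤ n + 1) :
    ∃ s ∈ L, ∃ h, g = h * s ∧ nrm L h ≤ n := by
  rw [hL.nrm_le_iff, pow_succ, Set.mem_mul] at h
  obtain ⟨k, hk, s, hs, rfl⟩ := h
  exact ⟨s, hs, k, rfl, hL.nrm_le_iff.2 hk⟩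

theorem dst_self (x : G) : dst L x x = 0 := by
  unfold dst; rw [inv_mul_cancel]; exact hL.nrm_one

theorem dst_comm (x y : G) : dst L x y = dst L y x := by
  unfold dst
  rw [← hL.nrm_inv, mul_inv_rev, inv_inv]

theorem dst_triangle (x y z : G) : dst L x z ≤ dst L x y + dst L y z := by
  unfold dst
  have := hL.nrm_mul (x⁻¹ * y) (y⁻¹ * z)
  rwa [show x⁻¹ * y * (y⁻¹ * z) = x⁻¹ * z by group] at this

theorem eq_of_dst {x y : G} (h : dst L x y = 0) : x = y := by
  have := hL.eq_one_of_nrm h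
  rwa [inv_mul_eq_one] at this

theorem exists_chain {x y : G} {n : ℕ} (h : dst L x y ≤ n + 1) :
    ∃ z, dst L x z ≤ 1 ∧ dst L z y ≤ n := by
  obtain ⟨s, hs, k, hk, hn⟩ := hL.exists_split h
  refine ⟨x * s, ?_, ?_⟩
  · unfold dst
    rw [inv_mul_cancel_left]
    exact hL.nrm_letter hs
  · unfold dst
    rw [mul_inv_rev, mul_assoc, hk, inv_mul_cancel_left]
    exact hn

end GoodGen

theorem dst_mul_left (L : Set G) (g x y : G) : dst L (g * x) (g * y) = dst L x y := by
  unfold dst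
  rw [mul_inv_rev, mul_assoc, inv_mul_cancel_left]

/-- Homomorphisms mapping letters to letters are 1-Lipschitz. -/
theorem nrm_map_le {H : Type*} [Group H] {L : Set G} {L' : Set H} (hL : GoodGen L)
    (hL' : GoodGen L') (f : G →* H) (hf : ∀ x ∈ L, f x ∈ L') (g : G) : nrm L' (f g) ≤ nrm L g := by
  have key : ∀ n g, nrm L g ≤ n → nrm L' (f g) ≤ n := by
    intro n
    induction n with
    | zero =>
      intro g hg
      have := hL.eq_one_of_nrm (Nat.le_zero.1 hg)
      rw [this, _root_.map_one, hL'.nrm_one]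
    | succ n ih =>
      intro g hg
      obtain ⟨s, hs, k, rfl, hk⟩ := hL.exists_split hg
      rw [_root_.map_mul]
      have h1 := hL'.nrm_mul (f s) (f k)
      have h2 := hL'.nrm_letter (hf s hs)
      have h3 := ih k hk
      omega
  exact key _ g le_rfl

/-- Word lengths of finitely generated groups are comparable. -/
theorem nrm_le_mul {L : Set G} (hL : GoodGen L) {S : Set G} (hS : S.Finite)
    (hSg : ∀ g : G, ∃ n : ℕ, g ∈ S ^ n) : ∃ C : ℕ, ∀ g, nrm L g ≤ C * nrm S g := by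
  obtain ⟨C, hC⟩ : ∃ C, ∀ s ∈ S, nrm L s ≤ C := by
    obtain ⟨C, hC⟩ := (hS.image (nrm L)).bddAbove
    exact ⟨C, fun s hs => hC ⟨s, hs, rfl⟩⟩
  refine ⟨C, fun g => ?_⟩
  have key : ∀ n : ℕ, ∀ g ∈ S ^ n, nrm L g ≤ C * n := by
    intro n
    induction n with
    | zero =>
      intro g hg
      rw [pow_zero] at hg
      rw [Set.mem_one.1 hg, hL.nrm_one]
      omega
    | succ n ih =>
      intro g hg
      rw [pow_succ, Set.mem_mul] at hg
      obtain ⟨a, ha, b, hb, rfl⟩ := hg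
      have h1 := hL.nrm_mul a b
      have h2 := ih a ha
      have h3 := hC b hb
      rw [Nat.mul_succ]
      omega
  exact key _ g (Nat.sInf_mem (hSg g))

/-- Generation as a monoid by `S ∪ S⁻¹`. -/
theorem exists_mem_pow {S : Set G} (hS : Subgroup.closure S = ⊤) (g : G) :
    ∃ n : ℕ, g ∈ (S ∪ S⁻¹) ^ n := by
  have hg : g ∈ Subgroup.closure S := by rw [hS]; exact Subgroup.mem_top g
  induction hg using Subgroup.closure_induction with
  | mem x hx => exact ⟨1, by rw [pow_one]; exact Or.inl hx⟩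
  | one => exact ⟨0, by rw [pow_zero]; rfl⟩
  | mul a b _ _ ha hb =>
    obtain ⟨n, hn⟩ := ha
    obtain ⟨m, hm⟩ := hb
    exact ⟨n + m, by rw [pow_add]; exact Set.mul_mem_mul hn hm⟩
  | inv a _ ha =>
    obtain ⟨n, hn⟩ := ha
    refine ⟨n, ?_⟩
    have e : (S ∪ S⁻¹)⁻¹ = S ∪ S⁻¹ := by
      rw [Set.union_inv, inv_inv, Set.union_comm]
    rw [← Set.mem_inv, ← inv_pow, e]
    exact hn

/-- Balls are finite. -/
theorem finite_ball {L : Set G} (hL : GoodGen L) (hf : L.Finite) (n : ℕ) :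
    {g : G | nrm L g ≤ n}.Finite := by
  have : {g : G | nrm L g ≤ n} = L ^ n := by
    ext g
    exact hL.nrm_le_iff
  rw [this]
  clear this
  induction n with
  | zero => rw [pow_zero]; exact Set.finite_one
  | succ n ih => rw [pow_succ]; exact ih.mul hf

end Words

end QI97
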