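import Pool.Agent.QI97.GP
import Pool.Agent.QI97.Words
import Pool.Agent.QI97.TreeSpace

set_option maxSynthPendingDepth 3

namespace QI97

open SimpleGraph
open scoped Pointwise

namespace GP

variable {ι : Type*} {Γ : SimpleGraph ι} {G : ι → Type*} [∀ i, Group (G i)]

/-- The letters. -/
def letters (Γ : SimpleGraph ι) (G : ι → Type*) [∀ i, Group (G i)] : Set (GraphProduct Γ G) :=
  {x | x = 1 ∨ ∃ i g, x = of Γ G i g}

theorem goodGen : GoodGen (letters Γ G) where
  one_mem := Or.inl rfl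
  inv_mem := by
    rintro x (rfl | ⟨i, g, rfl⟩)
    · exact Or.inl inv_one
    · exact Or.inr ⟨i, g⁻¹, (_root_.map_inv _ _).symm⟩
  gen := by
    intro g
    induction g using induction with
    | h1 => exact ⟨0, by rw [pow_zero]; rfl⟩
    | h2 x i g hx =>
      obtain ⟨n, hn⟩ := hx
      exact ⟨n + 1, by rw [pow_succ]; exact Set.mul_mem_mul hn (Or.inr ⟨i, g, rfl⟩)⟩

theorem letters_finite [Finite ι] [∀ i, Finite (G i)] : (letters Γ G).Finite := by
  have : letters Γ G = {1} ∪ ⋃ i, Set.range (of Γ G i) := by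
    ext x
    simp only [letters, Set.mem_ofPred_eq, Set.singleton_union, Set.mem_insert_iff, Set.mem_iUnion,
      Set.mem_range]
    constructor
    · rintro (h | ⟨i, g, rfl⟩)
      · exact Or.inl h
      · exact Or.inr ⟨i, g, rfl⟩
    · rintro (h | ⟨i, g, rfl⟩)
      · exact Or.inl h
      · exact Or.inr ⟨i, g, rfl⟩
  rw [this]
  exact (Set.finite_singleton _).union (Set.finite_iUnion fun i => Set.finite_range _)

theorem ret_letters (U : Set ι) : ∀ x ∈ letters Γ G, ret Γ G U x ∈ letters Γ G := by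
  rintro x (rfl | ⟨i, g, rfl⟩)
  · exact Or.inl (_root_.map_one _)
  · by_cases h : i ∈ U
    · rw [ret_of_mem h]; exact Or.inr ⟨i, g, rfl⟩
    · rw [ret_of_not_mem h]; exact Or.inl rfl

theorem nrm_ret (U : Set ι) (x : GraphProduct Γ G) :
    nrm (letters Γ G) (ret Γ G U x) ≤ nrm (letters Γ G) x :=
  nrm_map_le goodGen goodGen _ (ret_letters U) x

theorem dst_ret (U : Set ι) (x y : GraphProduct Γ G) :
    dst (letters Γ G) (ret Γ G U x) (ret Γ G U y) ≤ dst (letters Γ G) x y := by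
  unfold dst
  rw [← _root_.map_inv, ← _root_.map_mul]
  exact nrm_ret U _

/-- The star of a vertex. -/
def star (Γ : SimpleGraph ι) (c : ι) : Set ι := {i | i = c ∨ Γ.Adj c i}

/-- The link of a vertex. -/
def lk (Γ : SimpleGraph ι) (c : ι) : Set ι := {i | Γ.Adj c i}

theorem mem_star_self (c : ι) : c ∈ star Γ c := Or.inl rfl

theorem mem_star_of_adj {c i : ι} (h : Γ.Adj c i) : i ∈ star Γ c := Or.inr h

theorem lk_subset_star (c : ι) : lk Γ c ⊆ star Γ c := fun _ h => Or.inr h

theorem of_comm_sp {c : ι} (k : G c) {x : GraphProduct Γ G}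
    (h : x ∈ sp Γ G (lk Γ c)) : x * of Γ G c k = of Γ G c k * x := by
  refine sp_induction (P := fun x => x * of Γ G c k = of Γ G c k * x) ?_ ?_ h
  · simp
  · intro x hx' i hi g ih
    rw [mul_assoc, of_comm (SimpleGraph.Adj.symm hi : Γ.Adj i c), ← mul_assoc, ih, mul_assoc]

theorem exists_side_fun (Γ : SimpleGraph ι) (G : ι → Type*) [∀ i, Group (G i)] (c : ι) :
    ∃ F : GraphProduct Γ G → GraphProduct Γ G, F 1 = 1 ∧
      (∀ g (x : G c), g ∈ sp Γ G (star Γ c) → F (g * of Γ G c x) = F g * of Γ G c x) ∧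
      (∀ g (x : G c), g ∉ sp Γ G (star Γ c) → F (g * of Γ G c x) = F g) ∧
      (∀ g i (x : G i), i ≠ c → F (g * of Γ G i x) = F g) := by
  classical
  have hcoc : ∃ F : GraphProduct Γ G → GraphProduct Γ G, F 1 = 1 ∧ ∀ g i (x : G i),
      F (g * of Γ G i x) = F g * (if i = c ∧ g ∈ sp Γ G (star Γ c) then of Γ G i x else 1) := by
    refine exists_cocycle (Γ := Γ) (G := G) (K := GraphProduct Γ G)
      (fun i g x => if i = c ∧ g ∈ sp Γ G (star Γ c) then of Γ G i x else 1) ?_ ?_
    · intro i g x y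
      by_cases hi : i = c
      · subst hi
        have hm : (g * of Γ G i x ∈ sp Γ G (star Γ i)) ↔ g ∈ sp Γ G (star Γ i) :=
          Subgroup.mul_mem_cancel_right _ (of_mem_sp (mem_star_self i) x)
        simp only [true_and, hm]
        split_ifs
        · rw [_root_.map_mul]
        · rw [mul_one]
      · simp [hi]
    · intro i j hij g x y
      by_cases hi : i = c
      · subst hi
        have hj : j ≠ i := hij.ne'
        have hm : (g * of Γ G j y ∈ sp Γ G (star Γ i)) ↔ g ∈ sp Γ G (star Γ i) :=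
          Subgroup.mul_mem_cancel_right _ (of_mem_sp (mem_star_of_adj hij) y)
        simp [hj, hm]
      · by_cases hj : j = c
        · subst hj
          have hm : (g * of Γ G i x ∈ sp Γ G (star Γ j)) ↔ g ∈ sp Γ G (star Γ j) :=
            Subgroup.mul_mem_cancel_right _ (of_mem_sp (mem_star_of_adj hij.symm) x)
          simp [hi, hm]
        · simp [hi, hj]
  obtain ⟨F, hF1, hF⟩ := hcoc
  refine ⟨F, hF1, ?_, ?_, ?_⟩
  · intro g x hg
    rw [hF, if_pos ⟨rfl, hg⟩]
  · intro g x hg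
    rw [hF, if_neg (fun h => hg h.2), mul_one]
  · intro g i x hi
    rw [hF, if_neg (fun h => hi h.1), mul_one]

/-- The projection to the vertex group `G c` of the nearest point of `⟨star c⟩`. -/
noncomputable def σ (Γ : SimpleGraph ι) (G : ι → Type*) [∀ i, Group (G i)] (c : ι) :
    GraphProduct Γ G → GraphProduct Γ G := (exists_side_fun Γ G c).choose

theorem σ_one (c : ι) : σ Γ G c 1 = 1 := (exists_side_fun Γ G c).choose_spec.1

theorem σ_mul_of {c : ι} {g : GraphProduct Γ G} (x : G c) (hg : g ∈ sp Γ G (star Γ c)) :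
    σ Γ G c (g * of Γ G c x) = σ Γ G c g * of Γ G c x :=
  (exists_side_fun Γ G c).choose_spec.2.1 g x hg

theorem σ_mul_of' {c : ι} {g : GraphProduct Γ G} (x : G c) (hg : g ∉ sp Γ G (star Γ c)) :
    σ Γ G c (g * of Γ G c x) = σ Γ G c g :=
  (exists_side_fun Γ G c).choose_spec.2.2.1 g x hg

theorem σ_mul_ne {c i : ι} (g : GraphProduct Γ G) (x : G i) (hi : i ≠ c) :
    σ Γ G c (g * of Γ G i x) = σ Γ G c g :=
  (exists_side_fun Γ G c).choose_spec.2.2.2 g i x hi

theorem σ_mul_sp {c : ι} {U : Set ι} (hU : c ∉ U) (g : GraphProduct Γ G) {x : GraphProduct Γ G}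
    (hx : x ∈ sp Γ G U) : σ Γ G c (g * x) = σ Γ G c g := by
  refine sp_induction (P := fun x => σ Γ G c (g * x) = σ Γ G c g) ?_ ?_ hx
  · rw [mul_one]
  · intro x _ i hi y ih
    have hne : i ≠ c := by
      rintro rfl
      exact hU hi
    rw [← mul_assoc, σ_mul_ne _ _ hne, ih]

theorem σ_mul_star {c : ι} {g : GraphProduct Γ G} (hg : g ∉ sp Γ G (star Γ c))
    {x : GraphProduct Γ G} (hx : x ∈ sp Γ G (star Γ c)) : σ Γ G c (g * x) = σ Γ G c g := by
  refine sp_induction (P := fun x => σ Γ G c (g * x) = σ Γ G c g) ?_ ?_ hx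
  · rw [mul_one]
  · intro x hx' i hi y ih
    by_cases hc : i = c
    · subst hc
      rw [← mul_assoc, σ_mul_of', ih]
      rwa [Subgroup.mul_mem_cancel_right _ hx']
    · rw [← mul_assoc, σ_mul_ne _ _ hc, ih]

theorem σ_mul_left {c : ι} {h : GraphProduct Γ G} (hh : h ∈ sp Γ G (star Γ c))
    (g : GraphProduct Γ G) : σ Γ G c (h * g) = σ Γ G c h * σ Γ G c g := by
  induction g using induction with
  | h1 => rw [mul_one, σ_one, mul_one]
  | h2 g i x ih =>
    by_cases hc : i = c
    · subst hc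
      by_cases hg : g ∈ sp Γ G (star Γ i)
      · rw [← mul_assoc, σ_mul_of _ (Subgroup.mul_mem _ hh hg), ih, σ_mul_of _ hg, mul_assoc]
      · rw [← mul_assoc, σ_mul_of' _ hg, σ_mul_of', ih]
        rwa [Subgroup.mul_mem_cancel_left _ hh]
    · rw [← mul_assoc, σ_mul_ne _ _ hc, ih, σ_mul_ne _ _ hc]

theorem exists_σ (c : ι) (g : GraphProduct Γ G) : ∃ k : G c, σ Γ G c g = of Γ G c k := by
  induction g using induction with
  | h1 => exact ⟨1, by rw [σ_one, _root_.map_one]⟩
  | h2 g i x ih =>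
    obtain ⟨k, hk⟩ := ih
    by_cases hc : i = c
    · subst hc
      by_cases hg : g ∈ sp Γ G (star Γ i)
      · exact ⟨k * x, by rw [σ_mul_of _ hg, hk, _root_.map_mul]⟩
      · exact ⟨k, by rw [σ_mul_of' _ hg, hk]⟩
    · exact ⟨k, by rw [σ_mul_ne _ _ hc, hk]⟩

theorem not_mem_lk (c : ι) : c ∉ lk Γ c := fun h => Γ.loopless.irrefl c h

theorem star_decomp {c : ι} {x : GraphProduct Γ G} (hx : x ∈ sp Γ G (star Γ c)) :
    x = ret Γ G (lk Γ c) x * σ Γ G c x := by
  refine sp_induction (P := fun x => x = ret Γ G (lk Γ c) x * σ Γ G c x) ?_ ?_ hx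
  · rw [_root_.map_one, σ_one, mul_one]
  · intro x hx' i hi y ih
    by_cases hc : i = c
    · subst hc
      rw [_root_.map_mul, ret_of_not_mem (not_mem_lk i), mul_one, σ_mul_of _ hx', ← mul_assoc, ← ih]
    · have hadj : Γ.Adj c i := by
        rcases hi with h | h
        · exact absurd h hc
        · exact h
      rw [_root_.map_mul, ret_of_mem (show i ∈ lk Γ c from hadj), σ_mul_ne _ _ hc]
      obtain ⟨k, hk⟩ := exists_σ c x
      rw [hk] at ih ⊢
      rw [mul_assoc, of_comm hadj.symm, ← mul_assoc, ← ih]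

theorem star_decomp' {c : ι} {x : GraphProduct Γ G} (hx : x ∈ sp Γ G (star Γ c)) :
    x = σ Γ G c x * ret Γ G (lk Γ c) x := by
  obtain ⟨k, hk⟩ := exists_σ c x
  have h := star_decomp hx
  rw [hk] at h ⊢
  rw [← of_comm_sp k (ret_mem_sp _ _)]
  exact h

end GP

end QI97
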