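import Pool.Agent.QI97.Cyc

set_option maxSynthPendingDepth 3

namespace QI97

open SimpleGraph

namespace GP

variable {ι : Type*} {Γ : SimpleGraph ι} {n : ι → ℕ}

theorem mem_sp_of_forall {G : ι → Type*} [∀ i, Group (G i)] [Finite ι] {U : Set ι}
    {x : GraphProduct Γ G} (h : ∀ z ∉ U, x ∈ sp Γ G {z}ᶜ) : x ∈ sp Γ G U := by
  classical
  have key : ∀ Z : Finset ι, (∀ z ∈ Z, x ∈ sp Γ G {z}ᶜ) → x ∈ sp Γ G (Z : Set ι)ᶜ := by
    intro Z
    induction Z using Finset.induction_on with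
    | empty =>
      intro _
      rw [mem_sp, Finset.coe_empty, Set.compl_empty, ret_univ]
    | insert z Z _ ih =>
      intro hz
      have h1 := ih (fun z' hz' => hz z' (Finset.mem_insert_of_mem hz'))
      have h2 := hz z (Finset.mem_insert_self _ _)
      have h3 := mem_sp_inter h2 h1
      refine sp_mono ?_ h3
      rintro i ⟨hi1, hi2⟩
      rw [Set.mem_compl_iff, Finset.mem_coe, Finset.mem_insert, not_or]
      exact ⟨hi1, hi2⟩
  have hf : (Uᶜ).Finite := Set.toFinite _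
  have h1 := key hf.toFinset (fun z hz => h z (by simpa using hz))
  rw [Set.Finite.coe_toFinset, compl_compl] at h1
  exact h1

/-- Different flats are not coarsely nested. -/
theorem not_near_gen [Finite ι] [∀ i, NeZero (n i)] {C : Set ι}
    (hC : ∀ c ∈ C, ∀ c' ∈ C, ¬ Γ.Adj c c')
    (H : ∀ c ∈ C, ∀ z, z ∉ star Γ c → ∃ p q, p ∈ star Γ c ∧ q ∈ star Γ c ∧ ¬ Γ.Adj p q ∧
      p ≠ q ∧ n p = 2 ∧ n q = 2 ∧ ¬ (p ∈ star Γ z ∧ q ∈ star Γ z))
    (v v' : YV Γ (Z n) C) (r : ℕ) (hne : v ≠ v') :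
    ¬ ((space Γ (Z n) C hC).pts v ⊆ (space Γ (Z n) C hC).nbhd ((space Γ (Z n) C hC).pts v') r) := by
  obtain ⟨c, a⟩ := v
  obtain ⟨c', a'⟩ := v'
  obtain ⟨g, rfl⟩ := QuotientGroup.mk_surjective a
  obtain ⟨g', rfl⟩ := QuotientGroup.mk_surjective a'
  have hne' : (yv c g : YV Γ (Z n) C) ≠ yv c' g' := hne
  clear hne
  intro hsub
  -- elements of the first flat
  have hmem : ∀ x ∈ sp Γ (Z n) (star Γ c.1), ∃ k ∈ sp Γ (Z n) (star Γ c'.1),
      dst (letters Γ (Z n)) (g * x) (g' * k) ≤ r := by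
    intro x hx
    have h1 : g * x ∈ (space Γ (Z n) C hC).pts ⟨c, QuotientGroup.mk g⟩ := by
      show (yv c (g * x) : YV Γ (Z n) C) = yv c g
      symm
      rw [yv_eq, inv_mul_cancel_left]
      exact hx
    obtain ⟨y, hy, hd⟩ := hsub h1
    have hy' : (yv c' y : YV Γ (Z n) C) = yv c' g' := hy
    refine ⟨g'⁻¹ * y, yv_eq.1 hy'.symm, ?_⟩
    rw [mul_inv_cancel_left]
    exact hd
  by_cases hcc : c = c'
  · subst hcc
    apply hne'
    rw [yv_eq]
    refine mem_sp_of_forall ?_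
    intro z hz
    by_contra hcon
    obtain ⟨p, q, hp, hq, hpq, hpq', hnp, hnq, hnot⟩ := H c.1 c.2 z hz
    have hCz : ∀ a ∈ ({z} : Set ι), ∀ b ∈ ({z} : Set ι), ¬ Γ.Adj a b := by
      intro a ha b hb hab
      have ha' : a = z := ha
      have hb' : b = z := hb
      rw [ha', hb'] at hab
      exact Γ.loopless.irrefl z hab
    set S' := space Γ (Z n) {z} hCz with hS'
    have hu : (QuotientGroup.mk g : PV Γ (Z n) {z}) ≠ QuotientGroup.mk g' := by
      intro h
      exact hcon (QuotientGroup.eq.1 h)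
    obtain ⟨v1, _, hs, _⟩ := S'.exists_sep hu
    obtain ⟨z', a1⟩ := v1
    obtain ⟨h, rfl⟩ := QuotientGroup.mk_surjective a1
    have hz' : z'.1 = z := z'.2
    refine not_coarse hpq hpq' hnp hnq hp hq hnot g h r ?_
    intro x hx
    obtain ⟨k, hk, hd⟩ := hmem x hx
    have hπ1 : S'.π (g * x) = QuotientGroup.mk g := by
      show (QuotientGroup.mk (g * x) : PV Γ (Z n) {z}) = QuotientGroup.mk g
      symm
      rw [QuotientGroup.eq, inv_mul_cancel_left]
      refine sp_mono ?_ hx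
      intro i hi hi'
      have hi'' : i = z := hi'
      rw [hi''] at hi
      exact hz hi
    have hπ2 : S'.π (g' * k) = QuotientGroup.mk g' := by
      show (QuotientGroup.mk (g' * k) : PV Γ (Z n) {z}) = QuotientGroup.mk g'
      symm
      rw [QuotientGroup.eq, inv_mul_cancel_left]
      refine sp_mono ?_ hk
      intro i hi hi'
      have hi'' : i = z := hi'
      rw [hi''] at hi
      exact hz hi
    obtain ⟨w, hw, hdw⟩ := S'.sep _ r (g * x) (g' * k) hd (by rw [hπ1, hπ2]; exact hs)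
    have hw' : (yv z' w : YV Γ (Z n) {z}) = yv z' h := hw
    refine ⟨h⁻¹ * w, ?_, ?_⟩
    · rw [← hz']
      exact yv_eq.1 hw'.symm
    · rw [mul_inv_cancel_left]
      exact hdw
  · have hz : c'.1 ∉ star Γ c.1 := by
      rintro (h | h)
      · exact hcc (Subtype.ext h).symm
      · exact hC _ c.2 _ c'.2 h
    obtain ⟨p, q, hp, hq, hpq, hpq', hnp, hnq, hnot⟩ := H c.1 c.2 c'.1 hz
    exact not_coarse hpq hpq' hnp hnq hp hq hnot g g' r hmem

section general

variable {G : ι → Type*} [∀ i, Group (G i)]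

theorem ball_gen [Finite ι] [∀ i, Finite (G i)] (ρ : ℕ) :
    ∃ B, ∀ (x : GraphProduct Γ G) (F : Finset (GraphProduct Γ G)),
      (∀ y ∈ F, dst (letters Γ G) x y ≤ ρ) → F.card ≤ B := by
  classical
  have hf : {g : GraphProduct Γ G | nrm (letters Γ G) g ≤ ρ}.Finite :=
    finite_ball goodGen letters_finite ρ
  refine ⟨hf.toFinset.card, fun x F hF => ?_⟩
  rw [← Finset.card_image_of_injective F (mul_right_injective x⁻¹)]
  refine Finset.card_le_card ?_
  intro y hy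
  obtain ⟨a, ha, rfl⟩ := Finset.mem_image.1 hy
  rw [Set.Finite.mem_toFinset]
  exact hF a ha

theorem fin_pts_gen [Finite ι] [∀ i, Finite (G i)] {C : Set ι}
    (hC : ∀ c ∈ C, ∀ c' ∈ C, ¬ Γ.Adj c c') (x : GraphProduct Γ G) (r : ℕ) :
    {v | ∃ y ∈ (space Γ G C hC).pts v, (space Γ G C hC).d x y ≤ r}.Finite := by
  have hf : {g : GraphProduct Γ G | nrm (letters Γ G) g ≤ r}.Finite :=
    finite_ball goodGen letters_finite r
  have h1 : (Set.univ ×ˢ {g : GraphProduct Γ G | nrm (letters Γ G) g ≤ r} :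
      Set (C × GraphProduct Γ G)).Finite := Set.Finite.prod Set.finite_univ hf
  refine (h1.image (fun a => (yv a.1 (x * a.2) : YV Γ G C))).subset ?_
  rintro v ⟨y, hy, hd⟩
  refine ⟨(v.1, x⁻¹ * y), ⟨Set.mem_univ _, hd⟩, ?_⟩
  show yv v.1 (x * (x⁻¹ * y)) = v
  rw [mul_inv_cancel_left]
  exact hy

/-- Products of commuting special subgroups. -/
theorem join_decomp {A B : Set ι} (hAB : ∀ i ∈ A, ∀ j ∈ B, Γ.Adj i j) {x : GraphProduct Γ G}
    (hx : x ∈ sp Γ G (A ∪ B)) : x = ret Γ G A x * ret Γ G B x := by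
  have hcomm : ∀ i ∈ A, ∀ (y : G i), ∀ z ∈ sp Γ G B, z * of Γ G i y = of Γ G i y * z := by
    intro i hi y z hz
    refine sp_induction (P := fun z => z * of Γ G i y = of Γ G i y * z) (by simp) ?_ hz
    intro z _ j hj g ih
    rw [mul_assoc, of_comm (hAB i hi j hj).symm, ← mul_assoc, ih, mul_assoc]
  refine sp_induction (P := fun x => x = ret Γ G A x * ret Γ G B x) (by simp) ?_ hx
  intro x _ i hi y ih
  rcases hi with hi | hi
  · have hiB : i ∉ B := fun h => Γ.loopless.irrefl i (hAB i hi i h)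
    rw [_root_.map_mul, _root_.map_mul, ret_of_mem hi, ret_of_not_mem hiB, mul_one, mul_assoc,
      ← hcomm i hi y _ (ret_mem_sp _ _), ← mul_assoc, ← ih]
  · have hiA : i ∉ A := fun h => Γ.loopless.irrefl i (hAB i h i hi)
    rw [_root_.map_mul, _root_.map_mul, ret_of_mem hi, ret_of_not_mem hiA, mul_one, ← mul_assoc,
      ← ih]

end general

/-! ### Counting in dihedral subgroups -/

/-- alternating words -/
def alt {G : Type*} [Group G] (s t : G) : Bool → ℕ → G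
  | _, 0 => 1
  | b, k + 1 => alt s t (!b) k * (if b then s else t)

theorem alt_mul {G : Type*} [Group G] {s t : G} (hs : s * s = 1) (ht : t * t = 1) (b c : Bool)
    (k : ℕ) : ∃ b' k', k' ≤ k + 1 ∧ alt s t b k * (if c then s else t) = alt s t b' k' := by
  cases k with
  | zero => exact ⟨c, 1, le_rfl, rfl⟩
  | succ k =>
    by_cases h : b = c
    · subst h
      refine ⟨!b, k, by omega, ?_⟩
      show alt s t (!b) k * (if b then s else t) * (if b then s else t) = _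
      rw [mul_assoc]
      cases b
      · simp [ht]
      · simp [hs]
    · have h' : b = !c := by
        cases b <;> cases c <;> simp_all
      subst h'
      exact ⟨c, k + 2, le_rfl, rfl⟩

theorem dihedral_words [∀ i, NeZero (n i)] {p q : ι} (hp : n p = 2) (hq : n q = 2) (R : ℕ) :
    ∀ x : GraphProduct Γ (Z n), nrm (letters Γ (Z n)) x ≤ R →
      ∃ b k, k ≤ R ∧ ret Γ (Z n) {p, q} x = alt (gen Γ n p) (gen Γ n q) b k := by
  induction R with
  | zero =>
    intro x hx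
    have := goodGen.eq_one_of_nrm (Nat.le_zero.1 hx)
    rw [this, _root_.map_one]
    exact ⟨true, 0, le_rfl, rfl⟩
  | succ R ih =>
    intro x hx
    obtain ⟨l, hl, h, rfl, hh⟩ := goodGen.exists_split_right hx
    obtain ⟨b, k, hk, e⟩ := ih h hh
    rw [_root_.map_mul, e]
    have hl' : ret Γ (Z n) {p, q} l = 1 ∨ ∃ c : Bool, ret Γ (Z n) {p, q} l =
        (if c then gen Γ n p else gen Γ n q) := by
      rcases hl with rfl | ⟨i, y, rfl⟩
      · left; exact _root_.map_one _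
      · by_cases hi : i ∈ ({p, q} : Set ι)
        · rw [ret_of_mem hi]
          rcases hi with hi | hi
          · have hi' : i = p := hi
            subst hi'
            rcases of_cases (Γ := Γ) hp y with h1 | h1
            · left; exact h1
            · right; exact ⟨true, h1⟩
          · have hi' : i = q := hi
            subst hi'
            rcases of_cases (Γ := Γ) hq y with h1 | h1
            · left; exact h1
            · right; exact ⟨false, h1⟩
        · left; exact ret_of_not_mem hi y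
    rcases hl' with h1 | ⟨c, h1⟩
    · rw [h1, mul_one]
      exact ⟨b, k, by omega, rfl⟩
    · rw [h1]
      obtain ⟨b', k', hk', e'⟩ := alt_mul (gen_mul_self (Γ := Γ) hp) (gen_mul_self (Γ := Γ) hq) b c k
      exact ⟨b', k', by omega, e'⟩

/-- Quadratic growth of `⟨p,q⟩ × ⟨p',q'⟩ × finite`. -/
theorem thin_gen [Finite ι] [∀ i, NeZero (n i)] {C : Set ι}
    (hC : ∀ c ∈ C, ∀ c' ∈ C, ¬ Γ.Adj c c') (m0 : ℕ)
    (H : ∀ c ∈ C, n c ≤ m0 ∧ ∃ p q p' q', n p = 2 ∧ n q = 2 ∧ n p' = 2 ∧ n q' = 2 ∧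
      lk Γ c = {p, q} ∪ {p', q'} ∧ ∀ i ∈ ({p, q} : Set ι), ∀ j ∈ ({p', q'} : Set ι), Γ.Adj i j)
    (v : YV Γ (Z n) C) :
    (space Γ (Z n) C hC).Thin (16 * m0) ((space Γ (Z n) C hC).pts v) := by
  classical
  intro x ρ F hF
  rcases F.eq_empty_or_nonempty with hF0 | ⟨y0, hy0⟩
  · rw [hF0]; simp
  obtain ⟨c, a⟩ := v
  obtain ⟨hm, p, q, p', q', hp, hq, hp', hq', hlk, hjoin⟩ := H c.1 c.2
  have hpts : ∀ y ∈ F, y0⁻¹ * y ∈ sp Γ (Z n) (star Γ c.1) := by
    intro y hy
    have h1 : (yv c y : YV Γ (Z n) C) = ⟨c, a⟩ := (hF y hy).1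
    have h2 : (yv c y0 : YV Γ (Z n) C) = ⟨c, a⟩ := (hF y0 hy0).1
    exact yv_eq.1 (h2.trans h1.symm)
  have hnrm : ∀ y ∈ F, nrm (letters Γ (Z n)) (y0⁻¹ * y) ≤ 2 * ρ := by
    intro y hy
    have h1 : dst (letters Γ (Z n)) x y ≤ ρ := (hF y hy).2
    have h2 : dst (letters Γ (Z n)) x y0 ≤ ρ := (hF y0 hy0).2
    have h3 := (goodGen (Γ := Γ) (G := Z n)).dst_triangle y0 x y
    have h4 := (goodGen (Γ := Γ) (G := Z n)).dst_comm y0 x
    have h5 : nrm (letters Γ (Z n)) (y0⁻¹ * y) = dst (letters Γ (Z n)) y0 y := rfl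
    omega
  -- parametrization
  let Φ : ((Bool × Fin (2 * ρ + 1)) × (Bool × Fin (2 * ρ + 1))) × Z n c.1 → GraphProduct Γ (Z n) :=
    fun a => y0 * (alt (gen Γ n p) (gen Γ n q) a.1.1.1 a.1.1.2 *
      alt (gen Γ n p') (gen Γ n q') a.1.2.1 a.1.2.2 * of Γ (Z n) c.1 a.2)
  have : Fintype (Z n c.1) := Fintype.ofFinite _
  have hsub : F ⊆ Finset.univ.image Φ := by
    intro y hy
    have hx := hpts y hy
    have h1 := star_decomp hx
    obtain ⟨k, hk⟩ := exists_σ c.1 (y0⁻¹ * y)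
    have h2 : ret Γ (Z n) (lk Γ c.1) (y0⁻¹ * y) ∈ sp Γ (Z n) ({p, q} ∪ {p', q'}) := by
      rw [← hlk]
      exact ret_mem_sp _ _
    have h3 := join_decomp hjoin h2
    rw [ret_ret, ret_ret, hlk] at h3
    have e1 : ({p, q} : Set ι) ∩ ({p, q} ∪ {p', q'}) = {p, q} := by
      rw [Set.inter_eq_left]
      exact Set.subset_union_left
    have e2 : ({p', q'} : Set ι) ∩ ({p, q} ∪ {p', q'}) = {p', q'} := by
      rw [Set.inter_eq_left]
      exact Set.subset_union_right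
    rw [e1, e2] at h3
    obtain ⟨b1, k1, hk1, w1⟩ := dihedral_words (Γ := Γ) hp hq (2 * ρ) _ (hnrm y hy)
    obtain ⟨b2, k2, hk2, w2⟩ := dihedral_words (Γ := Γ) hp' hq' (2 * ρ) _ (hnrm y hy)
    rw [Finset.mem_image]
    refine ⟨(((b1, ⟨k1, by omega⟩), (b2, ⟨k2, by omega⟩)), k), Finset.mem_univ _, ?_⟩
    show y0 * (alt (gen Γ n p) (gen Γ n q) b1 k1 * alt (gen Γ n p') (gen Γ n q') b2 k2 *
      of Γ (Z n) c.1 k) = y
    rw [← w1, ← w2, ← h3, ← hlk, ← hk, ← h1, mul_inv_cancel_left]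
  have h1 := (Finset.card_le_card hsub).trans Finset.card_image_le
  have h2 : Fintype.card (Z n c.1) = n c.1 := by
    rw [← Nat.card_eq_fintype_card]
    show Nat.card (ZMod (n c.1)) = n c.1
    exact Nat.card_zmod _
  rw [Finset.card_univ, Fintype.card_prod, Fintype.card_prod, Fintype.card_prod, Fintype.card_bool,
    Fintype.card_fin, h2] at h1
  calc F.card ≤ 2 * (2 * ρ + 1) * (2 * (2 * ρ + 1)) * n c.1 := h1
    _ ≤ 2 * (2 * ρ + 1) * (2 * (2 * ρ + 1)) * m0 := Nat.mul_le_mul_left _ hm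
    _ ≤ 16 * m0 * (ρ + 1) ^ 2 := by
      have : 2 * (2 * ρ + 1) * (2 * (2 * ρ + 1)) ≤ 16 * (ρ + 1) ^ 2 := by nlinarith
      calc 2 * (2 * ρ + 1) * (2 * (2 * ρ + 1)) * m0 ≤ 16 * (ρ + 1) ^ 2 * m0 :=
            Nat.mul_le_mul_right _ this
        _ = 16 * m0 * (ρ + 1) ^ 2 := by ring

/-- Valence of the `Y`-vertices. -/
theorem valence [∀ i, NeZero (n i)] {C : Set ι}
    (hC : ∀ c ∈ C, ∀ c' ∈ C, ¬ Γ.Adj c c') (v : YV Γ (Z n) C) :
    {u : PV Γ (Z n) C | padj u v}.ncard = n v.1.1 := by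
  obtain ⟨c, a⟩ := v
  obtain ⟨g, rfl⟩ := QuotientGroup.mk_surjective a
  have hset : {u : PV Γ (Z n) C | padj u ⟨c, QuotientGroup.mk g⟩} =
      (fun k : Z n c.1 => (QuotientGroup.mk (g * of Γ (Z n) c.1 k) : PV Γ (Z n) C)) '' Set.univ := by
    ext u
    constructor
    · rintro ⟨h, hu, hv⟩
      have h1 : g⁻¹ * h ∈ sp Γ (Z n) (star Γ c.1) := QuotientGroup.eq.1 hv.symm
      obtain ⟨k, hk⟩ := exists_σ c.1 (g⁻¹ * h)
      refine ⟨k, Set.mem_univ _, ?_⟩
      show (QuotientGroup.mk (g * of Γ (Z n) c.1 k) : PV Γ (Z n) C) = u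
      rw [← hu, QuotientGroup.eq]
      have h2 := star_decomp' h1
      rw [hk] at h2
      have h3 : (g * of Γ (Z n) c.1 k)⁻¹ * h = ret Γ (Z n) (lk Γ c.1) (g⁻¹ * h) := by
        rw [mul_inv_rev, mul_assoc, h2]
        rw [← h2]
        conv_lhs => rw [h2]
        rw [inv_mul_cancel_left]
      rw [h3]
      exact sp_mono (lk_subset_compl hC c.2) (ret_mem_sp _ _)
    · rintro ⟨k, _, rfl⟩
      refine ⟨g * of Γ (Z n) c.1 k, rfl, ?_⟩
      show (QuotientGroup.mk (g * of Γ (Z n) c.1 k) : GraphProduct Γ (Z n) ⧸ sp Γ (Z n) (star Γ c.1))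
        = QuotientGroup.mk g
      symm
      rw [QuotientGroup.eq, inv_mul_cancel_left]
      exact of_mem_sp (mem_star_self _) k
  rw [hset, Set.ncard_image_of_injective, Set.ncard_univ]
  · show Nat.card (ZMod (n c.1)) = n c.1
    exact Nat.card_zmod _
  · intro k k' hkk
    have h1 : (QuotientGroup.mk (g * of Γ (Z n) c.1 k) : PV Γ (Z n) C) =
      QuotientGroup.mk (g * of Γ (Z n) c.1 k') := hkk
    rw [QuotientGroup.eq] at h1
    have h2 : (g * of Γ (Z n) c.1 k)⁻¹ * (g * of Γ (Z n) c.1 k') = of Γ (Z n) c.1 (k⁻¹ * k') := by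
      rw [_root_.map_mul, _root_.map_inv]; group
    rw [h2] at h1
    have h3 := of_not_mem_sp (U := Cᶜ) (fun h => h c.2) h1
    rw [inv_mul_eq_one] at h3
    exact h3

end GP

end QI97
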