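import Pool.Agent.QI97.Torsion

set_option maxSynthPendingDepth 3

namespace QI97

open SimpleGraph Relation

namespace GP

variable {κ : Type*} {Δ : SimpleGraph κ}

/-- Word metric of the right-angled Coxeter group. -/
noncomputable abbrev dW (Δ : SimpleGraph κ) (a b : RACG Δ) : ℕ :=
  dst (letters Δ (Z (fun _ : κ => 2))) a b

open Classical in
theorem exists_tau (J C1 : Set κ) (h : ∀ i ∈ C1, ∀ j, Δ.Adj i j → j ∈ C1 ∨ j ∈ J) :
    ∃ τ : RACG Δ → ℤ, τ 1 = 0 ∧
      (∀ g i (x : Z (fun _ : κ => 2) i), i ∈ C1 → τ (g * of Δ (Z (fun _ : κ => 2)) i x) = τ g +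
        ((if g ∈ sp Δ (Z (fun _ : κ => 2)) J then 1 else 0) -
          (if g * of Δ (Z (fun _ : κ => 2)) i x ∈ sp Δ (Z (fun _ : κ => 2)) J then 1 else 0))) ∧
      (∀ g i (x : Z (fun _ : κ => 2) i), i ∉ C1 → τ (g * of Δ (Z (fun _ : κ => 2)) i x) = τ g) := by
  set H := sp Δ (Z (fun _ : κ => 2)) J with hH
  let ind : RACG Δ → ℤ := fun g => if g ∈ H then 1 else 0
  have hind : ∀ g (j : κ) (y : Z (fun _ : κ => 2) j), j ∈ J →
      ind (g * of Δ (Z (fun _ : κ => 2)) j y) = ind g := by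
    intro g j y hj
    have hm : (g * of Δ (Z (fun _ : κ => 2)) j y ∈ H) ↔ g ∈ H :=
      Subgroup.mul_mem_cancel_right _ (of_mem_sp hj y)
    simp only [ind, hm]
  have hcoc : ∃ F : RACG Δ → Multiplicative ℤ, F 1 = 1 ∧ ∀ g i (x : Z (fun _ : κ => 2) i),
      F (g * of Δ (Z (fun _ : κ => 2)) i x) = F g * (if i ∈ C1 then
        Multiplicative.ofAdd (ind g - ind (g * of Δ (Z (fun _ : κ => 2)) i x)) else 1) := by
    refine exists_cocycle (Γ := Δ) (G := Z (fun _ : κ => 2)) (K := Multiplicative ℤ)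
      (fun i g x => if i ∈ C1 then
        Multiplicative.ofAdd (ind g - ind (g * of Δ (Z (fun _ : κ => 2)) i x)) else 1) ?_ ?_
    · intro i g x y
      by_cases hi : i ∈ C1
      · simp only [if_pos hi]
        rw [← ofAdd_add, _root_.map_mul, ← mul_assoc]
        congr 1
        ring
      · simp only [if_neg hi]
        rw [mul_one]
    · intro i j hij g x y
      have hcomm : g * of Δ (Z (fun _ : κ => 2)) i x * of Δ (Z (fun _ : κ => 2)) j y =
          g * of Δ (Z (fun _ : κ => 2)) j y * of Δ (Z (fun _ : κ => 2)) i x := by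
        rw [mul_assoc, of_comm hij, ← mul_assoc]
      by_cases hi : i ∈ C1
      · by_cases hj : j ∈ C1
        · simp only [if_pos hi, if_pos hj]
          rw [← ofAdd_add, ← ofAdd_add, hcomm]
          congr 1
          ring
        · have hjJ : j ∈ J := by
            rcases h i hi j hij with h1 | h1
            · exact absurd h1 hj
            · exact h1
          simp only [if_pos hi, if_neg hj]
          rw [mul_one, one_mul, ← hcomm, hind _ j y hjJ, hind _ j y hjJ]
      · by_cases hj : j ∈ C1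
        · have hiJ : i ∈ J := by
            rcases h j hj i hij.symm with h1 | h1
            · exact absurd h1 hi
            · exact h1
          simp only [if_neg hi, if_pos hj]
          rw [mul_one, one_mul, hcomm, hind _ i x hiJ, hind _ i x hiJ]
        · simp only [if_neg hi, if_neg hj]
  obtain ⟨F, hF1, hF⟩ := hcoc
  refine ⟨fun g => Multiplicative.toAdd (F g), ?_, ?_, ?_⟩
  · show Multiplicative.toAdd (F 1) = 0
    rw [hF1]; rfl
  · intro g i x hi
    show Multiplicative.toAdd (F (g * of Δ (Z (fun _ : κ => 2)) i x)) = _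
    rw [hF, if_pos hi]
    rfl
  · intro g i x hi
    show Multiplicative.toAdd (F (g * of Δ (Z (fun _ : κ => 2)) i x)) = _
    rw [hF, if_neg hi, mul_one]

/-- The separation statement in the right-angled Coxeter group: `τ` is constant along short steps
far from `⟨J⟩` and takes different values on `(st)^m` and `(ts)^m`. -/
theorem exists_tau' (J C1 : Set κ) (h : ∀ i ∈ C1, ∀ j, Δ.Adj i j → j ∈ C1 ∨ j ∈ J) {s t : κ}
    (hs : s ∈ C1) (hsJ : s ∉ J) (ht : t ∉ C1) (htJ : t ∉ J) :
    ∃ τ : RACG Δ → ℤ,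
      (∀ (k : ℕ) (a b : RACG Δ), dW Δ a b ≤ k →
        (∀ j ∈ sp Δ (Z (fun _ : κ => 2)) J, ¬ dW Δ a j ≤ k) → τ a = τ b) ∧
      ∀ m : ℕ, 0 < m → τ ((gen Δ (fun _ => 2) s * gen Δ (fun _ => 2) t) ^ m) = 1 ∧
        τ ((gen Δ (fun _ => 2) t * gen Δ (fun _ => 2) s) ^ m) = 0 := by
  classical
  obtain ⟨τ, h1, h2, h3⟩ := exists_tau J C1 h
  set H := sp Δ (Z (fun _ : κ => 2)) J with hH
  have hadj : ¬ Δ.Adj s t := by
    intro hadj
    rcases h s hs t hadj with h4 | h4
    · exact ht h4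
    · exact htJ h4
  have hne : s ≠ t := by
    rintro rfl
    exact ht hs
  set a := gen Δ (fun _ : κ => 2) s with ha
  set b := gen Δ (fun _ : κ => 2) t with hb
  have haa : a * a = 1 := gen_mul_self (n := fun _ : κ => 2) rfl
  have hbb : b * b = 1 := gen_mul_self (n := fun _ : κ => 2) rfl
  refine ⟨τ, ?_, ?_⟩
  · intro k
    induction k with
    | zero =>
      intro x y hxy _
      rw [goodGen.eq_of_dst (Nat.le_zero.1 hxy)]
    | succ k ih =>
      intro x y hxy hfar
      obtain ⟨z, hz1, hz2⟩ := goodGen.exists_chain hxy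
      have hzfar : ∀ j ∈ H, ¬ dW Δ z j ≤ k := by
        intro j hj hjk
        apply hfar j hj
        have := (goodGen (Γ := Δ) (G := Z (fun _ : κ => 2))).dst_triangle x z j
        have h5 : dW Δ x j ≤ dW Δ x z + dW Δ z j := this
        have h6 : dW Δ x z ≤ 1 := hz1
        omega
      rw [← ih z y hz2 hzfar]
      have hxH : x ∉ H := by
        intro hx
        apply hfar x hx
        have : dW Δ x x = 0 := goodGen.dst_self x
        omega
      have hzH : z ∉ H := by
        intro hz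
        apply hzfar z hz
        have : dW Δ z z = 0 := goodGen.dst_self z
        omega
      have hl : x⁻¹ * z ∈ letters Δ (Z (fun _ : κ => 2)) := goodGen.mem_of_nrm hz1
      rcases hl with hl | ⟨i, g, hl⟩
      · rw [inv_mul_eq_one.1 hl]
      · have hz' : z = x * of Δ (Z (fun _ : κ => 2)) i g := by rw [← hl, mul_inv_cancel_left]
        by_cases hi : i ∈ C1
        · have h5 := h2 x i g hi
          rw [← hz', if_neg hxH, if_neg hzH] at h5
          rw [h5]; ring
        · have h5 := h3 x i g hi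
          rw [← hz'] at h5
          exact h5.symm
  · -- values
    have hHone : ∀ x ∈ H, x ∈ sp Δ (Z (fun _ : κ => 2)) {s, t} → x = 1 := by
      intro x hx hx'
      have h4 := mem_sp_inter hx hx'
      have h5 : J ∩ {s, t} = ∅ := by
        rw [Set.eq_empty_iff_forall_notMem]
        rintro i ⟨hi1, hi2 | hi2⟩
        · have hi' : i = s := hi2
          rw [hi'] at hi1
          exact hsJ hi1
        · have hi' : i = t := hi2
          rw [hi'] at hi1
          exact htJ hi1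
      rw [h5] at h4
      exact sp_empty h4
    have haU : a ∈ sp Δ (Z (fun _ : κ => 2)) {s, t} := gen_mem_sp (by simp)
    have hbU : b ∈ sp Δ (Z (fun _ : κ => 2)) {s, t} := gen_mem_sp (by simp)
    have hpow : ∀ m : ℕ, (a * b) ^ m ∈ sp Δ (Z (fun _ : κ => 2)) {s, t} := fun m =>
      Subgroup.pow_mem _ (Subgroup.mul_mem _ haU hbU) m
    have hinv : ∀ m : ℕ, (b * a) ^ m = ((a * b) ^ m)⁻¹ := by
      intro m
      have h4 : b * a = (a * b)⁻¹ := by
        rw [eq_comm, inv_eq_iff_mul_eq_one]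
        calc a * b * (b * a) = a * (b * b) * a := by group
          _ = 1 := by rw [hbb, mul_one, haa]
      rw [h4, inv_pow]
    -- dihedral action
    have hD := dih_pow (Γ := Δ) (n := fun _ : κ => 2) hadj hne rfl rfl
    have n1 : ∀ m : ℕ, (a * b) ^ m * a ∉ H := by
      intro m hm
      have h4 := hHone _ hm (Subgroup.mul_mem _ (hpow m) haU)
      have h5 : dih Δ (fun _ : κ => 2) hadj hne rfl rfl ((a * b) ^ m * a) = 1 := by
        rw [h4]; exact _root_.map_one _
      have h6 := DFunLike.congr_fun h5 (1 : ℤ)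
      rw [_root_.map_mul, Equiv.Perm.mul_apply, dih_p, hD] at h6
      have h7 : (-1 : ℤ) - m = 1 := h6
      omega
    have n2 : ∀ m : ℕ, 0 < m → (a * b) ^ m ∉ H := by
      intro m hm0 hm
      have h4 := hHone _ hm (hpow m)
      have h5 : dih Δ (fun _ : κ => 2) hadj hne rfl rfl ((a * b) ^ m) = 1 := by
        rw [h4]; exact _root_.map_one _
      have h6 := DFunLike.congr_fun h5 (0 : ℤ)
      rw [hD] at h6
      have h7 : (0 : ℤ) - m = 0 := h6
      omega
    have n3 : ∀ m : ℕ, (b * a) ^ m * b ∉ H := by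
      intro m hm
      rw [hinv] at hm
      have h4 := hHone _ hm (Subgroup.mul_mem _ (Subgroup.inv_mem _ (hpow m)) hbU)
      rw [inv_mul_eq_one] at h4
      have h5 : dih Δ (fun _ : κ => 2) hadj hne rfl rfl ((a * b) ^ m) 0 =
          dih Δ (fun _ : κ => 2) hadj hne rfl rfl b 0 := by rw [h4]
      rw [hD, dih_q] at h5
      omega
    have n4 : ∀ m : ℕ, 0 < m → (b * a) ^ m ∉ H := by
      intro m hm0 hm
      rw [hinv] at hm
      exact n2 m hm0 ((Subgroup.inv_mem_iff _).1 hm)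
    have v1 : ∀ m : ℕ, τ ((a * b) ^ m * a) = 1 ∧ τ ((a * b) ^ (m + 1)) = 1 := by
      intro m
      have hstep : ∀ m : ℕ, τ ((a * b) ^ m * a) = 1 → τ ((a * b) ^ (m + 1)) = 1 := by
        intro m hm
        rw [pow_succ, ← mul_assoc]
        have h5 := h3 ((a * b) ^ m * a) t (Multiplicative.ofAdd 1) ht
        exact h5.trans hm
      induction m with
      | zero =>
        have h4 : τ ((a * b) ^ 0 * a) = 1 := by
          have h5 := h2 1 s (Multiplicative.ofAdd 1) hs
          rw [if_pos (Subgroup.one_mem _)] at h5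
          have h6 : (1 : RACG Δ) * of Δ (Z (fun _ : κ => 2)) s (Multiplicative.ofAdd 1) =
            (a * b) ^ 0 * a := by rw [pow_zero]; rfl
          rw [h6, if_neg (n1 0), h1] at h5
          rw [h5]; ring
        exact ⟨h4, hstep 0 h4⟩
      | succ m ih =>
        have h4 : τ ((a * b) ^ (m + 1) * a) = 1 := by
          have h5 := h2 ((a * b) ^ (m + 1)) s (Multiplicative.ofAdd 1) hs
          rw [if_neg (n2 (m + 1) (by omega))] at h5
          have h6 : (a * b) ^ (m + 1) * of Δ (Z (fun _ : κ => 2)) s (Multiplicative.ofAdd 1) =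
            (a * b) ^ (m + 1) * a := rfl
          rw [h6, if_neg (n1 (m + 1)), ih.2] at h5
          rw [h5]; ring
        exact ⟨h4, hstep _ h4⟩
    have v2 : ∀ m : ℕ, τ ((b * a) ^ m) = 0 := by
      intro m
      induction m with
      | zero => rw [pow_zero]; exact h1
      | succ m ih =>
        have h4 : τ ((b * a) ^ m * b) = 0 := by
          have h5 := h3 ((b * a) ^ m) t (Multiplicative.ofAdd 1) ht
          exact h5.trans ih
        have h5 := h2 ((b * a) ^ m * b) s (Multiplicative.ofAdd 1) hs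
        have h6 : (b * a) ^ m * b * of Δ (Z (fun _ : κ => 2)) s (Multiplicative.ofAdd 1) =
            (b * a) ^ (m + 1) := by rw [pow_succ, ← mul_assoc]; rfl
        rw [h6, if_neg (n3 m), if_neg (n4 (m + 1) (by omega)), h4] at h5
        rw [h5]; ring
    intro m hm
    obtain ⟨m', rfl⟩ : ∃ m', m = m' + 1 := ⟨m - 1, by omega⟩
    exact ⟨(v1 m').2, v2 _⟩

/-- Quasi-isometry data with natural number constants. -/
structure QIData {X P Y : Type*} (S : TreeSpace X P Y) (Δ : SimpleGraph κ) where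
  f : RACG Δ → X
  g : X → RACG Δ
  K : ℕ
  up : ∀ a b, S.d (f a) (f b) ≤ K * dW Δ a b + K
  lo : ∀ a b, dW Δ a b ≤ K * S.d (f a) (f b) + K
  rt : ∀ x, S.d (f (g x)) x ≤ K

namespace QIData

variable {X P Y : Type*} {S : TreeSpace X P Y} (D : QIData S Δ)

theorem g_lip (x y : X) : dW Δ (D.g x) (D.g y) ≤ D.K * S.d x y + (2 * D.K * D.K + D.K) := by
  have h1 := D.lo (D.g x) (D.g y)
  have h2 := D.rt x
  have h3 := D.rt y
  have h4 := S.d_tri (D.f (D.g x)) x (D.f (D.g y))
  have h5 := S.d_tri x y (D.f (D.g y))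
  have h6 := S.d_comm y (D.f (D.g y))
  have h7 : D.K * S.d (D.f (D.g x)) (D.f (D.g y)) ≤ D.K * (S.d x y + 2 * D.K) :=
    Nat.mul_le_mul_left _ (by omega)
  nlinarith

theorem g_f (a : RACG Δ) : dW Δ (D.g (D.f a)) a ≤ D.K * D.K + D.K := by
  have h1 := D.lo (D.g (D.f a)) a
  have h2 := D.rt (D.f a)
  have h3 : D.K * S.d (D.f (D.g (D.f a))) (D.f a) ≤ D.K * D.K := Nat.mul_le_mul_left _ h2
  omega

theorem f_le {a b : RACG Δ} {r : ℕ} (h : dW Δ a b ≤ r) : S.d (D.f a) (D.f b) ≤ D.K * r + D.K := by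
  have h1 := D.up a b
  have h2 : D.K * dW Δ a b ≤ D.K * r := Nat.mul_le_mul_left _ h
  omega

/-- The coarse action of the Coxeter group. -/
noncomputable def action : S.CoarseAction (RACG Δ) where
  act w x := D.f (w * D.g x)
  K := 3 * D.K * D.K * D.K + 4 * D.K * D.K + 3 * D.K
  lip := by
    intro w x y
    have h1 := D.g_lip x y
    have h2 : dW Δ (w * D.g x) (w * D.g y) ≤ D.K * S.d x y + (2 * D.K * D.K + D.K) := by
      have : dW Δ (w * D.g x) (w * D.g y) = dW Δ (D.g x) (D.g y) := dst_mul_left _ _ _ _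
      omega
    have h3 := D.f_le h2
    have h4 : D.K * (D.K * S.d x y + (2 * D.K * D.K + D.K)) + D.K =
      D.K * D.K * S.d x y + (2 * D.K * D.K * D.K + D.K * D.K + D.K) := by ring
    have h5 : D.K * D.K * S.d x y ≤ (3 * D.K * D.K * D.K + 4 * D.K * D.K + 3 * D.K) * S.d x y :=
      Nat.mul_le_mul_right _ (by nlinarith [Nat.zero_le (D.K * D.K * D.K)])
    nlinarith [Nat.zero_le (D.K * D.K * D.K)]
  comp := by
    intro w w' x
    have h1 := D.g_f (w' * D.g x)
    have h2 : dW Δ (w * D.g (D.f (w' * D.g x))) (w * (w' * D.g x)) ≤ D.K * D.K + D.K := by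
      have : dW Δ (w * D.g (D.f (w' * D.g x))) (w * (w' * D.g x)) =
        dW Δ (D.g (D.f (w' * D.g x))) (w' * D.g x) := dst_mul_left _ _ _ _
      omega
    have h3 := D.f_le h2
    rw [← mul_assoc w w'] at h3
    nlinarith [Nat.zero_le (D.K * D.K * D.K)]
  one := by
    intro x
    rw [one_mul]
    have := D.rt x
    nlinarith [Nat.zero_le (D.K * D.K * D.K)]
  x0 := D.f 1
  cob := by
    intro x
    refine ⟨D.g x, ?_⟩
    have h1 := D.g_f 1
    have h2 : dW Δ (D.g x) (D.g x * D.g (D.f 1)) ≤ D.K * D.K + D.K := by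
      have h3 : dW Δ (D.g x * 1) (D.g x * D.g (D.f 1)) = dW Δ 1 (D.g (D.f 1)) :=
        dst_mul_left _ _ _ _
      rw [mul_one] at h3
      have h4 : dW Δ 1 (D.g (D.f 1)) = dW Δ (D.g (D.f 1)) 1 := goodGen.dst_comm _ _
      omega
    have h3 := D.f_le h2
    have h4 := D.rt x
    have h5 := S.d_tri x (D.f (D.g x)) (D.f (D.g x * D.g (D.f 1)))
    have h6 := S.d_comm x (D.f (D.g x))
    nlinarith [Nat.zero_le (D.K * D.K * D.K)]

theorem act_eq (w : RACG Δ) (x : X) : D.action.act w x = D.f (w * D.g x) := rfl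

theorem x0_eq : D.action.x0 = D.f 1 := rfl

/-- comparison of orbit points -/
theorem orbit_lo {w j : RACG Δ} {r : ℕ}
    (h : S.d (D.action.act w (D.f 1)) (D.action.act j (D.f 1)) ≤ r) :
    dW Δ w j ≤ 2 * (D.K * D.K + D.K) + (D.K * r + D.K) := by
  rw [act_eq, act_eq] at h
  have h1 := D.lo (w * D.g (D.f 1)) (j * D.g (D.f 1))
  have h2 : D.K * S.d (D.f (w * D.g (D.f 1))) (D.f (j * D.g (D.f 1))) ≤ D.K * r :=
    Nat.mul_le_mul_left _ h
  have h3 := D.g_f 1
  have h4 : ∀ w : RACG Δ, dW Δ w (w * D.g (D.f 1)) ≤ D.K * D.K + D.K := by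
    intro w
    have h5 : dW Δ (w * 1) (w * D.g (D.f 1)) = dW Δ 1 (D.g (D.f 1)) := dst_mul_left _ _ _ _
    rw [mul_one] at h5
    have h6 : dW Δ 1 (D.g (D.f 1)) = dW Δ (D.g (D.f 1)) 1 := goodGen.dst_comm _ _
    omega
  have h5 := h4 w
  have h6 := h4 j
  have h7 : dW Δ w j ≤ dW Δ w (w * D.g (D.f 1)) + dW Δ (w * D.g (D.f 1)) j :=
    goodGen.dst_triangle _ _ _
  have h8 : dW Δ (w * D.g (D.f 1)) j ≤ dW Δ (w * D.g (D.f 1)) (j * D.g (D.f 1)) +
    dW Δ (j * D.g (D.f 1)) j := goodGen.dst_triangle _ _ _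
  have h9 : dW Δ (j * D.g (D.f 1)) j = dW Δ j (j * D.g (D.f 1)) := goodGen.dst_comm _ _
  omega

/-- The key finiteness statement. -/
theorem split [Finite κ] (hS : S.Rigid) {J C1 : Set κ}
    (h : ∀ i ∈ C1, ∀ j, Δ.Adj i j → j ∈ C1 ∨ j ∈ J) {s t : κ}
    (hs : s ∈ C1) (hsJ : s ∉ J) (ht : t ∉ C1) (htJ : t ∉ J) (v : Y) (R : ℕ)
    (hJ : ∀ j ∈ sp Δ (Z (fun _ : κ => 2)) J, ∀ x ∈ S.pts v, ∃ y ∈ S.pts v,
      S.d (D.action.act j x) y ≤ R) :
    ∃ r, ∀ w : RACG Δ, (∀ x ∈ S.pts v, ∃ y ∈ S.pts v, S.d (D.action.act w x) y ≤ R) →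
      ∃ j ∈ sp Δ (Z (fun _ : κ => 2)) J, dW Δ w j ≤ r := by
  obtain ⟨x1, hx1⟩ := hS.pts_ne v
  set A := D.action with hA
  set Y0 : Set X := {x | ∃ j ∈ sp Δ (Z (fun _ : κ => 2)) J, x = A.act j (D.f 1)} with hY0
  -- orbit points of elements preserving `v` are near `v`
  set r0 := A.K * S.d (D.f 1) x1 + A.K + R with hr0
  have hnear : ∀ w : RACG Δ, (∀ x ∈ S.pts v, ∃ y ∈ S.pts v, S.d (A.act w x) y ≤ R) →
      A.act w (D.f 1) ∈ S.nbhd (S.pts v) r0 := by
    intro w hw
    obtain ⟨y, hy, hd⟩ := hw x1 hx1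
    refine ⟨y, hy, ?_⟩
    have h1 := A.lip w (D.f 1) x1
    have h2 := S.d_tri (A.act w (D.f 1)) (A.act w x1) y
    omega
  have hY0sub : Y0 ⊆ S.nbhd (S.pts v) r0 := by
    rintro _ ⟨j, hj, rfl⟩
    exact hnear j (hJ j hj)
  by_cases hcon : ∃ r, S.pts v ⊆ S.nbhd Y0 r
  · obtain ⟨r, hr⟩ := hcon
    refine ⟨2 * (D.K * D.K + D.K) + (D.K * (r + r0) + D.K), ?_⟩
    intro w hw
    obtain ⟨y, hy, hd⟩ := hnear w hw
    obtain ⟨_, ⟨j, hj, rfl⟩, hd'⟩ := hr hy
    have h1 := S.d_tri (A.act w (D.f 1)) y (A.act j (D.f 1))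
    have h2 : S.d (A.act w (D.f 1)) (A.act j (D.f 1)) ≤ r + r0 := by omega
    exact ⟨j, hj, D.orbit_lo h2⟩
  · exfalso
    push Not at hcon
    obtain ⟨τ, hτ1, hτ2⟩ := exists_tau' J C1 h hs hsJ ht htJ
    set k0 := D.K * 2 + (2 * D.K * D.K + D.K) with hk0
    set ρ := D.K + (D.K * k0 + D.K) + (D.K * (D.K * D.K + D.K) + D.K) with hρ
    obtain ⟨R', hR'⟩ := TreeSpace.nonsep hS v Y0 r0 hY0sub hcon ρ
    set k1 := (D.K * D.K + D.K) + (D.K * D.K + D.K) with hk1
    have hadj : ¬ Δ.Adj s t := by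
      intro hadj
      rcases h s hs t hadj with h4 | h4
      · exact ht h4
      · exact htJ h4
    have hne : s ≠ t := by
      rintro rfl
      exact ht hs
    obtain ⟨m, hm⟩ := exists_large (Γ := Δ) (n := fun _ : κ => 2) hadj hne rfl rfl
      (k1 + (2 * (D.K * D.K + D.K) + (D.K * R' + D.K)))
    set a := gen Δ (fun _ : κ => 2) s with ha
    set b := gen Δ (fun _ : κ => 2) t with hb
    have hm0 : 0 < m := by
      by_contra h0
      have h0' : m = 0 := by omega
      rw [h0', pow_zero, goodGen.nrm_one] at hm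
      omega
    have haa : a * a = 1 := gen_mul_self (n := fun _ : κ => 2) rfl
    have hbb : b * b = 1 := gen_mul_self (n := fun _ : κ => 2) rfl
    have hinv : (b * a) ^ m = ((a * b) ^ m)⁻¹ := by
      have h4 : b * a = (a * b)⁻¹ := by
        rw [eq_comm, inv_eq_iff_mul_eq_one]
        calc a * b * (b * a) = a * (b * b) * a := by group
          _ = 1 := by rw [hbb, mul_one, haa]
      rw [h4, inv_pow]
    -- distance of the powers to `⟨J⟩`
    have hfar : ∀ w ∈ sp Δ (Z (fun _ : κ => 2)) {s, t}, ∀ j ∈ sp Δ (Z (fun _ : κ => 2)) J,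
        nrm (letters Δ (Z (fun _ : κ => 2))) w ≤ dW Δ w j := by
      intro w hw j hj
      have h1 := dst_ret {s, t} w j
      have h2 : ret Δ (Z (fun _ : κ => 2)) {s, t} j = 1 := by
        have h4 := ret_mem_sp (Γ := Δ) (G := Z (fun _ : κ => 2)) ({s, t} ∩ J) j
        have h5 : ({s, t} ∩ J : Set κ) = ∅ := by
          rw [Set.eq_empty_iff_forall_notMem]
          rintro i ⟨hi2 | hi2, hi1⟩
          · have hi' : i = s := hi2
            rw [hi'] at hi1
            exact hsJ hi1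
          · have hi' : i = t := hi2
            rw [hi'] at hi1
            exact htJ hi1
        rw [← mem_sp.1 hj, ret_ret]
        rw [h5] at h4 ⊢
        exact sp_empty h4
      rw [mem_sp.1 hw, h2] at h1
      have h3 : dst (letters Δ (Z (fun _ : κ => 2))) w 1 =
          nrm (letters Δ (Z (fun _ : κ => 2))) w := by
        unfold dst
        rw [mul_one, goodGen.nrm_inv]
      rw [h3] at h1
      exact h1
    have haU : a ∈ sp Δ (Z (fun _ : κ => 2)) {s, t} := gen_mem_sp (by simp)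
    have hbU : b ∈ sp Δ (Z (fun _ : κ => 2)) {s, t} := gen_mem_sp (by simp)
    have hpow : (a * b) ^ m ∈ sp Δ (Z (fun _ : κ => 2)) {s, t} :=
      Subgroup.pow_mem _ (Subgroup.mul_mem _ haU hbU) m
    have hpow' : (b * a) ^ m ∈ sp Δ (Z (fun _ : κ => 2)) {s, t} :=
      Subgroup.pow_mem _ (Subgroup.mul_mem _ hbU haU) m
    have hm' : k1 + (2 * (D.K * D.K + D.K) + (D.K * R' + D.K)) <
        nrm (letters Δ (Z (fun _ : κ => 2))) ((b * a) ^ m) := by
      rw [hinv, goodGen.nrm_inv]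
      exact hm
    -- far points
    have hout : ∀ w ∈ sp Δ (Z (fun _ : κ => 2)) {s, t},
        k1 + (2 * (D.K * D.K + D.K) + (D.K * R' + D.K)) <
          nrm (letters Δ (Z (fun _ : κ => 2))) w → A.act w (D.f 1) ∉ S.nbhd Y0 R' := by
      rintro w hw hlarge ⟨_, ⟨j, hj, rfl⟩, hd⟩
      have h1 := D.orbit_lo hd
      have h2 := hfar w hw j hj
      omega
    have hτg : ∀ w ∈ sp Δ (Z (fun _ : κ => 2)) {s, t},
        k1 + (2 * (D.K * D.K + D.K) + (D.K * R' + D.K)) <
          nrm (letters Δ (Z (fun _ : κ => 2))) w → τ w = τ (D.g (A.act w (D.f 1))) := by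
      intro w hw hlarge
      refine hτ1 k1 _ _ ?_ ?_
      · have h1 := D.g_f (w * D.g (D.f 1))
        have h2 := D.g_f 1
        have h3 : dW Δ w (w * D.g (D.f 1)) ≤ D.K * D.K + D.K := by
          have h5 : dW Δ (w * 1) (w * D.g (D.f 1)) = dW Δ 1 (D.g (D.f 1)) := dst_mul_left _ _ _ _
          rw [mul_one] at h5
          have h6 : dW Δ 1 (D.g (D.f 1)) = dW Δ (D.g (D.f 1)) 1 := goodGen.dst_comm _ _
          omega
        have h4 : dW Δ w (D.g (A.act w (D.f 1))) ≤ dW Δ w (w * D.g (D.f 1)) +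
          dW Δ (w * D.g (D.f 1)) (D.g (A.act w (D.f 1))) := goodGen.dst_triangle _ _ _
        have h5 : dW Δ (w * D.g (D.f 1)) (D.g (A.act w (D.f 1))) =
          dW Δ (D.g (D.f (w * D.g (D.f 1)))) (w * D.g (D.f 1)) := goodGen.dst_comm _ _
        omega
      · intro j hj hd
        have h2 := hfar w hw j hj
        omega
    have hchain := hR' _ _ (hout _ hpow hm) (hout _ hpow' hm')
    have hconst : ∀ x y, ReflTransGen
        (fun a b => S.d a b ≤ 2 ∧ a ∉ S.nbhd Y0 ρ ∧ b ∉ S.nbhd Y0 ρ) x y →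
        τ (D.g x) = τ (D.g y) := by
      intro x y hxy
      induction hxy with
      | refl => rfl
      | @tail y z _ hyz ih =>
        rw [ih]
        refine hτ1 k0 _ _ ?_ ?_
        · have h1 := D.g_lip y z
          have h2 : D.K * S.d y z ≤ D.K * 2 := Nat.mul_le_mul_left _ hyz.1
          omega
        · intro j hj hd
          apply hyz.2.1
          refine ⟨A.act j (D.f 1), ⟨j, hj, rfl⟩, ?_⟩
          have h1 := D.rt y
          have h2 := D.f_le hd
          have h3 : dW Δ j (j * D.g (D.f 1)) ≤ D.K * D.K + D.K := by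
            have h5 : dW Δ (j * 1) (j * D.g (D.f 1)) = dW Δ 1 (D.g (D.f 1)) :=
              dst_mul_left _ _ _ _
            rw [mul_one] at h5
            have h6 : dW Δ 1 (D.g (D.f 1)) = dW Δ (D.g (D.f 1)) 1 := goodGen.dst_comm _ _
            have h7 := D.g_f 1
            omega
          have h4 := D.f_le h3
          have h5 := S.d_tri y (D.f (D.g y)) (A.act j (D.f 1))
          have h6 := S.d_tri (D.f (D.g y)) (D.f j) (A.act j (D.f 1))
          have h7 := S.d_comm y (D.f (D.g y))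
          have h8 : A.act j (D.f 1) = D.f (j * D.g (D.f 1)) := rfl
          rw [h8] at h5 h6 ⊢
          omega
    have e1 := hconst _ _ hchain
    rw [← hτg _ hpow hm, ← hτg _ hpow' hm', (hτ2 m hm0).1, (hτ2 m hm0).2] at e1
    exact absurd e1 one_ne_zero

end QIData

end GP

end QI97
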