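import Pool.Agent.QI97.TreeLib

set_option maxSynthPendingDepth 3

namespace QI97

open SimpleGraph

variable {V : Type*} {T : SimpleGraph V}
variable {W : Type*} [Group W] [MulAction W V]

/-- minimal choice of fixed vertices -/
theorem exists_min_fixed {S : Type*} [Fintype S] (γ : S → W) (hfix : ∀ s, ∃ x : V, γ s • x = x) :
    ∃ x : S → V, (∀ s, γ s • x s = x s) ∧
      ∀ x' : S → V, (∀ s, γ s • x' s = x' s) →
        ∑ s, ∑ t, T.dist (x s) (x t) ≤ ∑ s, ∑ t, T.dist (x' s) (x' t) := by
  classical
  choose x0 hx0 using hfix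
  let A := {x : S → V // ∀ s, γ s • x s = x s}
  have : Nonempty A := ⟨⟨x0, hx0⟩⟩
  let D : A → ℕ := fun x => ∑ s, ∑ t, T.dist (x.1 s) (x.1 t)
  refine ⟨(Function.argmin D).1, (Function.argmin D).2, ?_⟩
  intro x' hx'
  exact Function.argmin_le D ⟨x', hx'⟩

/-- On each side of a separating edge there is a generator not fixing the edge. -/
theorem exists_side {S : Type*} [Fintype S] (hT : T.IsTree) (γ : S → W) (x : S → V)
    (hx : ∀ s, γ s • x s = x s)
    (hmin : ∀ x' : S → V, (∀ s, γ s • x' s = x' s) →
        ∑ s, ∑ t, T.dist (x s) (x t) ≤ ∑ s, ∑ t, T.dist (x' s) (x' t))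
    {p q : V} (hpq : T.Adj p q) {s0 t0 : S} (hs0 : T.dist (x s0) p < T.dist (x s0) q)
    (ht0 : T.dist (x t0) q < T.dist (x t0) p) :
    ∃ s, ¬ (γ s • p = p ∧ γ s • q = q) ∧ T.dist (x s) q < T.dist (x s) p := by
  classical
  by_contra hcon
  push Not at hcon
  let x' : S → V := fun s => if T.dist (x s) q < T.dist (x s) p then p else x s
  have hx' : ∀ s, γ s • x' s = x' s := by
    intro s
    simp only [x']
    split_ifs with h
    · by_contra h1
      have := hcon s (fun h2 => absurd h2 h1)
      omega
    · exact hx s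
  have hcase : ∀ s, T.dist (x s) q < T.dist (x s) p ∨ T.dist (x s) p < T.dist (x s) q := by
    intro s
    have := hT.dist_ne_of_adj (x s) hpq
    omega
  have hle : ∀ s t, T.dist (x' s) (x' t) ≤ T.dist (x s) (x t) := by
    intro s t
    simp only [x']
    split_ifs with h1 h2 h2
    · simp
    · have h2' : T.dist (x t) p < T.dist (x t) q := by
        rcases hcase t with h | h
        · exact absurd h h2
        · exact h
      have := dist_across hT hpq h2' h1
      rw [dist_comm (u := x s), this, dist_comm (u := p)]
      omega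
    · have h1' : T.dist (x s) p < T.dist (x s) q := by
        rcases hcase s with h | h
        · exact absurd h h1
        · exact h
      have := dist_across hT hpq h1' h2
      rw [this]
      omega
    · exact le_rfl
  have hlt : T.dist (x' s0) (x' t0) < T.dist (x s0) (x t0) := by
    simp only [x']
    rw [if_neg (by omega), if_pos ht0]
    have := dist_across hT hpq hs0 ht0
    rw [this]
    omega
  have h1 : ∑ s, ∑ t, T.dist (x' s) (x' t) < ∑ s, ∑ t, T.dist (x s) (x t) := by
    refine Finset.sum_lt_sum (fun s _ => Finset.sum_le_sum fun t _ => hle s t) ⟨s0, Finset.mem_univ _, ?_⟩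
    exact Finset.sum_lt_sum (fun t _ => hle s0 t) ⟨t0, Finset.mem_univ _, hlt⟩
  have := hmin x' hx'
  omega

/-- If `s` does not fix the edge, its fixed points lie on one side. -/
theorem fix_side (hT : T.IsTree) (hA : ActsOn W T) {g : W} {p q x y : V} (hpq : T.Adj p q)
    (hg : ¬ (g • p = p ∧ g • q = q)) (hx : g • x = x) (hy : g • y = y)
    (hxp : T.dist x p < T.dist x q) : T.dist y p < T.dist y q := by
  by_contra hcon
  have hy' : T.dist y q < T.dist y p := by
    have := hT.dist_ne_of_adj y hpq
    omega
  apply hg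
  have h1 := dist_across hT hpq hxp hy'
  constructor
  · refine fixed_between hT hA hy _ x p rfl hx ?_
    have : T.dist y p = T.dist y q + 1 := by
      have := hT.1.dist_triangle (u := y) (v := q) (w := p)
      rw [dist_eq_one_iff_adj.2 hpq.symm] at this
      omega
    rw [dist_comm (u := p), this, dist_comm (u := y)]
    omega
  · refine fixed_between hT hA hy _ x q rfl hx ?_
    have : T.dist x q = T.dist x p + 1 := by
      have := hT.1.dist_triangle (u := x) (v := p) (w := q)
      rw [dist_eq_one_iff_adj.2 hpq] at this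
      omega
    omega

/-- Extending geodesics in a leafless tree. -/
theorem exists_deep (hT : T.IsTree) (hnl : ∀ x y, T.Adj x y → ∃ z, T.Adj x z ∧ z ≠ y)
    {a b : V} (hab : T.Adj a b) (n : ℕ) :
    ∃ z, T.dist z b = n ∧ T.dist z b < T.dist z a := by
  induction n with
  | zero => exact ⟨b, by simp, by simp [dist_eq_one_iff_adj.2 hab.symm]⟩
  | succ n ih =>
    obtain ⟨z, h1, h2⟩ := ih
    -- the neighbour of z towards a
    have hza : z ≠ a := by
      rintro rfl
      simp at h2
    obtain ⟨g1, g2⟩ := gate_spec hT hza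
    obtain ⟨w, hw1, hw2⟩ := hnl z (gate T z a) g1
    have e1 : T.dist w a = T.dist z a + 1 := dist_of_gate_ne hT hw1 (Ne.symm hw2)
    refine ⟨w, ?_, ?_⟩
    · -- gate z b
      by_cases hzb : z = b
      · subst hzb
        rw [dist_self] at h1
        rw [← h1]
        rw [dist_comm]
        simpa using dist_eq_one_iff_adj.2 hw1
      · have hbet : T.dist z b + T.dist b a = T.dist z a := by
          have h3 := hT.1.dist_triangle (u := z) (v := b) (w := a)
          rw [dist_eq_one_iff_adj.2 hab.symm] at h3 ⊢
          omega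
        have := gate_of_between hT hbet hzb
        have e2 : T.dist w b = T.dist z b + 1 := by
          refine dist_of_gate_ne hT hw1 ?_
          rw [this]
          exact Ne.symm hw2
        omega
    · have h3 := hT.1.dist_triangle (u := w) (v := z) (w := b)
      rw [dist_eq_one_iff_adj.2 hw1.symm] at h3
      omega

/-- Every edge has a translate separating two of the chosen fixed vertices. -/
theorem exists_translate {S : Type*} (hT : T.IsTree) (hA : ActsOn W T)
    (γ : S → W) (hgen : Subgroup.closure (Set.range γ) = ⊤) (x : S → V)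
    (hx : ∀ s, γ s • x s = x s) [Nonempty S]
    (hnl : ∀ x y, T.Adj x y → ∃ z, T.Adj x z ∧ z ≠ y)
    (hfin : ∃ F : Set V, F.Finite ∧ ∀ x : V, ∃ w : W, w • x ∈ F)
    {a b : V} (hab : T.Adj a b) :
    ∃ (w : W) (s t : S), T.dist (x s) (w • a) < T.dist (x s) (w • b) ∧
      T.dist (x t) (w • b) < T.dist (x t) (w • a) := by
  classical
  by_contra hcon
  push Not at hcon
  obtain ⟨s0⟩ := ‹Nonempty S›
  have hne : ∀ z : V, T.dist z a ≠ T.dist z b := fun z => hT.dist_ne_of_adj z hab
  -- side function
  have hside : ∀ (w : W) (s t : S), T.dist (w • x s) a < T.dist (w • x s) b →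
      T.dist (w • x t) a < T.dist (w • x t) b := by
    intro w s t h
    have h1 : ∀ z y : V, T.dist (w • z) y = T.dist z (w⁻¹ • y) := by
      intro z y
      rw [← dist_smul hT hA w z (w⁻¹ • y), smul_inv_smul]
    rw [h1, h1] at h ⊢
    have h2 := hcon w⁻¹ s t h
    have h3 := hT.dist_ne_of_adj (x t) (hA w⁻¹ _ _ hab)
    omega
  let K : Subgroup W :=
    { carrier := {g | ∀ w : W, T.dist ((w * g) • x s0) a < T.dist ((w * g) • x s0) b ↔
        T.dist (w • x s0) a < T.dist (w • x s0) b}
      one_mem' := by
        intro w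
        rw [mul_one]
      mul_mem' := by
        intro g h hg hh w
        rw [← mul_assoc]
        exact (hh (w * g)).trans (hg w)
      inv_mem' := by
        intro g hg w
        have := hg (w * g⁻¹)
        rw [inv_mul_cancel_right] at this
        exact this.symm }
  have hK : Set.range γ ⊆ K := by
    rintro _ ⟨s, rfl⟩
    intro w
    have e : (w * γ s) • x s = w • x s := by rw [mul_smul, hx]
    constructor
    · intro h
      have h1 := hside _ s0 s h
      rw [e] at h1
      exact hside _ s s0 h1
    · intro h
      have h1 := hside _ s0 s h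
      rw [← e] at h1
      exact hside _ s s0 h1
  have hall : ∀ w : W, T.dist (w • x s0) a < T.dist (w • x s0) b ↔
        T.dist (x s0) a < T.dist (x s0) b := by
    intro w
    have h1 : Subgroup.closure (Set.range γ) ≤ K := (Subgroup.closure_le K).2 hK
    rw [hgen] at h1
    have := h1 (Subgroup.mem_top w) 1
    rwa [one_mul, one_smul] at this
  -- bounded distance to the orbit
  obtain ⟨F, hF, hFx⟩ := hfin
  obtain ⟨D, hD⟩ : ∃ D, ∀ f ∈ F, T.dist f (x s0) ≤ D := by
    obtain ⟨D, hD⟩ := (hF.image (fun f => T.dist f (x s0))).bddAbove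
    exact ⟨D, fun f hf => hD ⟨f, hf, rfl⟩⟩
  have hclose : ∀ z : V, ∃ w : W, T.dist z (w • x s0) ≤ D := by
    intro z
    obtain ⟨w, hw⟩ := hFx z
    refine ⟨w⁻¹, ?_⟩
    have := hD _ hw
    rwa [← dist_smul hT hA w, smul_inv_smul]
  by_cases hs : T.dist (x s0) a < T.dist (x s0) b
  · obtain ⟨z, hz1, hz2⟩ := exists_deep hT hnl hab (D + 1)
    obtain ⟨w, hw⟩ := hclose z
    have h1 := (hall w).2 hs
    have h2 := dist_across hT hab h1 hz2
    rw [dist_comm (u := w • x s0), dist_comm (u := b)] at h2
    omega
  · have hs' : T.dist (x s0) b < T.dist (x s0) a := by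
      have := hne (x s0)
      omega
    obtain ⟨z, hz1, hz2⟩ := exists_deep hT hnl hab.symm (D + 1)
    obtain ⟨w, hw⟩ := hclose z
    have h1 : T.dist (w • x s0) b < T.dist (w • x s0) a := by
      have h3 := hne (w • x s0)
      have h4 : ¬ (T.dist (w • x s0) a < T.dist (w • x s0) b) := fun h => hs ((hall w).1 h)
      omega
    have h2 := dist_across hT hab.symm h1 hz2
    rw [dist_comm (u := w • x s0), dist_comm (u := a)] at h2
    omega

/-- Commuting involutions (more generally, a finite set closed under left multiplication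
by two elements) have a common fixed vertex. -/
theorem common_fixed (hT : T.IsTree) (hA : ActsOn W T)
    (hev : ∀ (w : W) (x : V), Even (T.dist x (w • x))) {g h : W} (hg : g * g = 1) (hh : h * h = 1)
    (hc : g * h = h * g) (x0 : V) : ∃ x : V, g • x = x ∧ h • x = x := by
  classical
  have := exists_fixed hT hA hev {1, g, h, g * h} {g, h} ?_ ⟨1, by simp⟩ x0
  · obtain ⟨x, hx⟩ := this
    exact ⟨x, hx g (by simp), hx h (by simp)⟩
  · have key : ∀ k ∈ ({g, h} : Set W), ∀ f ∈ ({1, g, h, g * h} : Finset W),
        k * f ∈ ({1, g, h, g * h} : Finset W) := by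
      intro k hk f hf
      simp only [Set.mem_insert_iff, Set.mem_singleton_iff] at hk
      simp only [Finset.mem_insert, Finset.mem_singleton] at hf ⊢
      have e1 : g * (g * h) = h := by rw [← mul_assoc, hg, one_mul]
      have e2 : h * (g * h) = g := by rw [hc, ← mul_assoc, hh, one_mul]
      rcases hk with rfl | rfl <;> rcases hf with rfl | rfl | rfl | rfl
      · simp
      · simp [hg]
      · simp
      · simp [e1]
      · simp
      · simp [hc]
      · simp [hh]
      · simp [e2]
    intro k hk f
    refine ⟨fun h1 => ?_, fun h1 => key k hk f h1⟩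
    have h2 := key k hk _ h1
    have h3 : k * k = 1 := by
      simp only [Set.mem_insert_iff, Set.mem_singleton_iff] at hk
      rcases hk with rfl | rfl
      · exact hg
      · exact hh
    rwa [← mul_assoc, h3, one_mul] at h2

end QI97
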