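import Pool.Agent.QI97.Gen
import Pool.Agent.QI97.TreeSplit

set_option maxSynthPendingDepth 3

namespace QI97

open SimpleGraph

/-- Parity of distances in bipartite graphs. -/
theorem bip_even {P Y : Type*} {adj : P → Y → Prop} (hT : (bip adj).IsTree) (a b : P ⊕ Y)
    (h : a.isLeft = b.isLeft) : Even ((bip adj).dist a b) := by
  have key : ∀ (a b : P ⊕ Y) (p : (bip adj).Walk a b), (a.isLeft = b.isLeft ↔ Even p.length) := by
    intro a b p
    induction p with
    | nil => simp
    | @cons x y z hadj q ih =>
      rw [Walk.length_cons, Nat.even_add_one, ← ih]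
      have hxy : x.isLeft = !y.isLeft := by
        rcases x with x | x <;> rcases y with y | y
        · exact absurd hadj bip_ll
        · rfl
        · rfl
        · exact absurd hadj bip_rr
      rw [hxy]
      cases y.isLeft <;> cases z.isLeft <;> simp
  obtain ⟨p, hp⟩ := hT.1.exists_walk_length_eq_dist a b
  rw [← hp]
  exact (key a b p).1 h

namespace GP

section act

variable {ι : Type*} {Γ : SimpleGraph ι} {G : ι → Type*} [∀ i, Group (G i)]

/-- The action of a graph product on its tree. -/
@[reducible] noncomputable def treeAct (Γ : SimpleGraph ι) (G : ι → Type*) [∀ i, Group (G i)]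
    (C : Set ι) : MulAction (GraphProduct Γ G) (PV Γ G C ⊕ YV Γ G C) where
  smul g a := Sum.map (fun u => g • u) (fun v => (⟨v.1, g • v.2⟩ : YV Γ G C)) a
  one_smul := by
    rintro (u | ⟨c, v⟩)
    · show Sum.inl ((1 : GraphProduct Γ G) • u) = Sum.inl u
      rw [one_smul]
    · show Sum.inr (⟨c, (1 : GraphProduct Γ G) • v⟩ : YV Γ G C) = Sum.inr ⟨c, v⟩
      rw [one_smul]
  mul_smul := by
    rintro g h (u | ⟨c, v⟩)
    · show Sum.inl ((g * h) • u) = Sum.inl (g • h • u)
      rw [mul_smul]
    · show Sum.inr (⟨c, (g * h) • v⟩ : YV Γ G C) = Sum.inr ⟨c, g • h • v⟩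
      rw [mul_smul]

end act

/-- Right-angled Coxeter groups have no odd torsion. -/
theorem no_odd_torsion {κ : Type*} [Finite κ] (Δ : SimpleGraph κ) (g : RACG Δ) {q : ℕ}
    (hq : Odd q) (hg : g ^ q = 1) : g = 1 := by
  classical
  have hodd : ∀ k : Multiplicative (ZMod 2), k ^ q = 1 → k = 1 := by
    intro k hk
    obtain ⟨m, rfl⟩ := hq
    have h2 : k ^ 2 = 1 := by
      have : ∀ k : Multiplicative (ZMod 2), k ^ 2 = 1 := by decide
      exact this k
    rw [pow_add, pow_mul, h2, one_pow, one_mul, pow_one] at hk
    exact hk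
  have key : ∀ (U : Finset κ) (g : RACG Δ), g ∈ sp Δ (Z (fun _ => 2)) (U : Set κ) → g ^ q = 1 →
      g = 1 := by
    intro U
    induction U using Finset.induction_on with
    | empty =>
      intro g hg _
      rw [Finset.coe_empty] at hg
      exact sp_empty hg
    | insert s U _ ih =>
      intro g hgU hgq
      have hCs : ∀ a ∈ ({s} : Set κ), ∀ b ∈ ({s} : Set κ), ¬ Δ.Adj a b := by
        intro a ha b hb hab
        have ha' : a = s := ha
        have hb' : b = s := hb
        rw [ha', hb'] at hab
        exact Δ.loopless.irrefl s hab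
      let _ := treeAct Δ (Z (fun _ : κ => 2)) {s}
      have hT := isTree (G := Z (fun _ : κ => 2)) hCs
      have hA : ActsOn (RACG Δ) (bip (padj (Γ := Δ) (G := Z (fun _ : κ => 2)) (C := {s}))) := by
        rintro w (u | v) (u' | v') h
        · exact absurd h bip_ll
        · obtain ⟨x, hx1, hx2⟩ := bip_lr.1 h
          refine bip_lr.2 ⟨w * x, ?_, ?_⟩
          · rw [← hx1]; rfl
          · show _ = w • v'.2
            rw [← hx2]; rfl
        · obtain ⟨x, hx1, hx2⟩ := bip_rl.1 h
          refine bip_rl.2 ⟨w * x, ?_, ?_⟩
          · rw [← hx1]; rfl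
          · show _ = w • v.2
            rw [← hx2]; rfl
        · exact absurd h bip_rr
      have hev : ∀ (w : RACG Δ) (x : PV Δ (Z (fun _ : κ => 2)) {s} ⊕ YV Δ (Z (fun _ : κ => 2)) {s}),
          Even ((bip (padj (Γ := Δ) (G := Z (fun _ : κ => 2)) (C := {s}))).dist x (w • x)) := by
        intro w x
        refine bip_even hT _ _ ?_
        rcases x with u | v
        · rfl
        · rfl
      -- a fixed vertex
      have hqpos : 0 < q := hq.pos
      obtain ⟨x, hx⟩ := exists_fixed hT hA hev
        ((Finset.range q).image (fun k => g ^ k)) {g} (by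
          intro h hh f
          have hh' : h = g := hh
          subst hh'
          have key : ∀ f, f ∈ (Finset.range q).image (fun k => h ^ k) ↔ ∃ k : ℕ, h ^ k = f := by
            intro f
            rw [Finset.mem_image]
            constructor
            · rintro ⟨k, _, hk⟩
              exact ⟨k, hk⟩
            · rintro ⟨k, hk⟩
              refine ⟨k % q, Finset.mem_range.2 (Nat.mod_lt _ hqpos), ?_⟩
              show h ^ (k % q) = f
              rw [← pow_eq_pow_mod k hgq, hk]
          rw [key, key]
          constructor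
          · rintro ⟨k, hk⟩
            refine ⟨k + (q - 1), ?_⟩
            have h1 : h ^ (q - 1) * h = 1 := by
              rw [← pow_succ, Nat.sub_add_cancel hqpos, hgq]
            have h2 : h ^ (q - 1) = h⁻¹ := eq_inv_of_mul_eq_one_left h1
            rw [add_comm, pow_add, h2, hk, inv_mul_cancel_left]
          · rintro ⟨k, hk⟩
            exact ⟨k + 1, by rw [pow_succ', hk]⟩)
        ⟨1, Finset.mem_image.2 ⟨0, Finset.mem_range.2 hqpos, pow_zero g⟩⟩
        (Sum.inl (QuotientGroup.mk 1))
      have hx' := hx g rfl
      -- conjugate into the subgroup without s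
      have hconj : ∃ x0 : RACG Δ, x0⁻¹ * g * x0 ∈ sp Δ (Z (fun _ => 2)) {s}ᶜ := by
        rcases x with u | ⟨⟨c, hc⟩, v⟩
        · obtain ⟨x0, rfl⟩ := QuotientGroup.mk_surjective u
          have h1 : (QuotientGroup.mk (g * x0) : PV Δ (Z (fun _ : κ => 2)) {s}) =
            QuotientGroup.mk x0 := Sum.inl_injective hx'
          refine ⟨x0, ?_⟩
          have h2 := QuotientGroup.eq.1 h1.symm
          rwa [← mul_assoc] at h2
        · obtain ⟨x0, rfl⟩ := QuotientGroup.mk_surjective v
          have hc' : c = s := hc
          subst hc'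
          have h1 : (⟨⟨c, hc⟩, QuotientGroup.mk (g * x0)⟩ : YV Δ (Z (fun _ : κ => 2)) {c}) =
            ⟨⟨c, hc⟩, QuotientGroup.mk x0⟩ := Sum.inr_injective hx'
          have h2 : x0⁻¹ * (g * x0) ∈ sp Δ (Z (fun _ => 2)) (star Δ c) :=
            (yv_eq (C := {c}) (c := ⟨c, hc⟩)).1 h1.symm
          refine ⟨x0, ?_⟩
          rw [← mul_assoc] at h2
          set y := x0⁻¹ * g * x0 with hy
          have hyq : y ^ q = 1 := by
            have : ∀ m : ℕ, y ^ m = x0⁻¹ * g ^ m * x0 := by
              intro m
              induction m with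
              | zero => simp
              | succ m ihm => rw [pow_succ, ihm, hy, pow_succ]; group
            rw [this, hgq]; group
          have h3 := star_decomp h2
          obtain ⟨k, hk⟩ := exists_σ c y
          have h4 : proj Δ (fun _ => 2) c y = k := by
            rw [h3, hk, _root_.map_mul, proj_of]
            have h5 : proj Δ (fun _ => 2) c (ret Δ (Z (fun _ => 2)) (lk Δ c) y) = 1 := by
              refine sp_induction (P := fun z => proj Δ (fun _ => 2) c z = 1)
                (_root_.map_one _) ?_ (ret_mem_sp (lk Δ c) y)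
              intro z _ i hi a ih'
              have hic : i ≠ c := by
                rintro rfl
                exact not_mem_lk i hi
              rw [_root_.map_mul, ih', proj_of_ne hic, one_mul]
            rw [h5, one_mul]
          have h6 : k = 1 := by
            apply hodd
            rw [← h4, ← _root_.map_pow, hyq, _root_.map_one]
          rw [h3, hk, h6, _root_.map_one, mul_one]
          refine sp_mono ?_ (ret_mem_sp _ _)
          intro i hi hi'
          have hi'' : i = c := hi'
          rw [hi''] at hi
          exact not_mem_lk c hi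
      obtain ⟨x0, hx0⟩ := hconj
      set x1 := ret Δ (Z (fun _ => 2)) ((insert s U : Finset κ) : Set κ) x0 with hx1
      have h1 : x1⁻¹ * g * x1 ∈ sp Δ (Z (fun _ => 2)) (U : Set κ) := by
        have h2 : ret Δ (Z (fun _ => 2)) ((insert s U : Finset κ) : Set κ) (x0⁻¹ * g * x0) =
            x1⁻¹ * g * x1 := by
          rw [_root_.map_mul, _root_.map_mul, _root_.map_inv, mem_sp.1 hgU]
        rw [← h2]
        rw [← mem_sp.1 hx0, ret_ret]
        refine sp_mono ?_ (ret_mem_sp _ _)
        rintro i ⟨hi1, hi2⟩
        rw [Finset.mem_coe, Finset.mem_insert] at hi1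
        rcases hi1 with hi1 | hi1
        · exact absurd hi1 hi2
        · exact hi1
      have h3 : (x1⁻¹ * g * x1) ^ q = 1 := by
        have : ∀ m : ℕ, (x1⁻¹ * g * x1) ^ m = x1⁻¹ * g ^ m * x1 := by
          intro m
          induction m with
          | zero => simp
          | succ m ihm => rw [pow_succ, ihm, pow_succ]; group
        rw [this, hgq]; group
      have h4 := ih _ h1 h3
      have h5 : g = x1 * (x1⁻¹ * g * x1) * x1⁻¹ := by group
      rw [h5, h4]; group
  have : Fintype κ := Fintype.ofFinite κ
  refine key Finset.univ g ?_ hg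
  rw [Finset.coe_univ, mem_sp, ret_univ]

end GP

end QI97
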